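import Pool.Agent.H88.A4.Iface
import Pool.Agent.H88.A4.Geo

/-!
# W1 (weak Malle for `A_4`), steps 6-8: definitions and elementary facts

`sz φ x` the absolute value of an algebraic integer `x` at the embedding `φ`, `vol R = ∏ φ, R φ` the
volume (up to a constant) of the box with the radii `R φ`, `nz x` the absolute norm of `x`, `ni I` the
norm of an ideal.
-/

set_option autoImplicit false

namespace Pool.Agent.H67.WA

open NumberField Finset H88.A4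

variable {K : Type} [Field K] [NumberField K]

/-- the absolute value of an integer at an embedding -/
noncomputable def sz (φ : K →+* ℂ) (x : 𝓞 K) : ℝ := ‖φ (x : K)‖

/-- the volume of a box -/
noncomputable def vol (R : (K →+* ℂ) → ℝ) : ℝ := ∏ φ, R φ

/-- the norm of an ideal -/
noncomputable def ni (I : Ideal (𝓞 K)) : ℝ := (Ideal.absNorm I : ℝ)

/-- the norm of an integer -/
noncomputable def nz (x : 𝓞 K) : ℝ := vol fun φ => sz φ x

theorem nz_def (x : 𝓞 K) : nz x = H88.A4.nm (x : K) := rfl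

theorem sz_nonneg (φ : K →+* ℂ) (x : 𝓞 K) : 0 ≤ sz φ x := norm_nonneg _

theorem sz_mul (φ : K →+* ℂ) (x y : 𝓞 K) : sz φ (x * y) = sz φ x * sz φ y := by
  simp [sz, map_mul]

theorem sz_pow (φ : K →+* ℂ) (x : 𝓞 K) (n : ℕ) : sz φ (x ^ n) = sz φ x ^ n := by
  simp [sz, map_pow]

theorem sz_add (φ : K →+* ℂ) (x y : 𝓞 K) : sz φ (x + y) ≤ sz φ x + sz φ y := by
  simpa [sz, map_add] using norm_add_le (φ (x : K)) (φ (y : K))

theorem sz_neg (φ : K →+* ℂ) (x : 𝓞 K) : sz φ (-x) = sz φ x := by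
  simp [sz, map_neg]

theorem sz_sub (φ : K →+* ℂ) (x y : 𝓞 K) : sz φ (x - y) ≤ sz φ x + sz φ y := by
  rw [sub_eq_add_neg]
  exact (sz_add φ x (-y)).trans (by rw [sz_neg])

theorem sz_pos (φ : K →+* ℂ) {x : 𝓞 K} (hx : x ≠ 0) : 0 < sz φ x := by
  unfold sz
  rw [norm_pos_iff]
  simpa using hx

theorem sz_zero (φ : K →+* ℂ) : sz φ 0 = 0 := by simp [sz]

theorem sz_one (φ : K →+* ℂ) : sz φ 1 = 1 := by simp [sz]

theorem sz_two (φ : K →+* ℂ) : sz φ 2 = 2 := by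
  have : ((2 : 𝓞 K) : K) = 2 := by simpa using map_ofNat (algebraMap (𝓞 K) K) 2
  unfold sz
  rw [this, map_ofNat]
  simp

theorem vol_nonneg {R : (K →+* ℂ) → ℝ} (h : ∀ φ, 0 ≤ R φ) : 0 ≤ vol R :=
  Finset.prod_nonneg fun φ _ => h φ

theorem vol_pos {R : (K →+* ℂ) → ℝ} (h : ∀ φ, 0 < R φ) : 0 < vol R :=
  Finset.prod_pos fun φ _ => h φ

theorem vol_mono {R S : (K →+* ℂ) → ℝ} (h0 : ∀ φ, 0 ≤ R φ) (h : ∀ φ, R φ ≤ S φ) :
    vol R ≤ vol S :=
  Finset.prod_le_prod (fun φ _ => h0 φ) fun φ _ => h φ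

theorem vol_mul (R S : (K →+* ℂ) → ℝ) : vol (fun φ => R φ * S φ) = vol R * vol S :=
  Finset.prod_mul_distrib

theorem vol_const (t : ℝ) : vol (fun _ : K →+* ℂ => t) = t ^ Module.finrank ℚ K := by
  unfold vol
  rw [Finset.prod_const, Finset.card_univ, Embeddings.card]

theorem vol_smul (t : ℝ) (R : (K →+* ℂ) → ℝ) :
    vol (fun φ => t * R φ) = t ^ Module.finrank ℚ K * vol R := by
  rw [vol_mul, vol_const]

theorem vol_mul_const (t : ℝ) (R : (K →+* ℂ) → ℝ) :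
    vol (fun φ => R φ * t) = vol R * t ^ Module.finrank ℚ K := by
  rw [vol_mul, vol_const]

theorem vol_div (R S : (K →+* ℂ) → ℝ) : vol (fun φ => R φ / S φ) = vol R / vol S :=
  Finset.prod_div_distrib _ _

theorem vol_pow (R : (K →+* ℂ) → ℝ) (n : ℕ) : vol (fun φ => R φ ^ n) = vol R ^ n := by
  unfold vol
  rw [← Finset.prod_pow]

theorem vol_sqrt {R : (K →+* ℂ) → ℝ} (h : ∀ φ, 0 ≤ R φ) :
    vol (fun φ => Real.sqrt (R φ)) = Real.sqrt (vol R) := by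
  have h1 : vol (fun φ => Real.sqrt (R φ)) ^ 2 = vol R := by
    rw [← vol_pow]
    congr 1
    funext φ
    exact Real.sq_sqrt (h φ)
  rw [← h1, Real.sqrt_sq (vol_nonneg fun φ => Real.sqrt_nonneg _)]

theorem ni_nonneg (I : Ideal (𝓞 K)) : 0 ≤ ni I := Nat.cast_nonneg _

theorem one_le_ni {I : Ideal (𝓞 K)} (h : I ≠ ⊥) : 1 ≤ ni I := by
  unfold ni
  have : Ideal.absNorm I ≠ 0 := by rwa [Ne, Ideal.absNorm_eq_zero_iff]
  exact_mod_cast Nat.one_le_iff_ne_zero.2 this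

theorem ni_mul (I J : Ideal (𝓞 K)) : ni (I * J) = ni I * ni J := by
  unfold ni
  rw [map_mul, Nat.cast_mul]

theorem ni_top : ni (⊤ : Ideal (𝓞 K)) = 1 := by
  unfold ni
  rw [Ideal.absNorm_top, Nat.cast_one]

theorem nz_ni (x : 𝓞 K) : nz x = ni (Ideal.span {x}) := by
  unfold nz vol sz ni
  rw [Ideal.absNorm_span_singleton, ← norm_prod]
  have h1 := Algebra.norm_eq_prod_embeddings ℚ ℂ (x : K)
  have h2 : ∏ φ : K →+* ℂ, φ (x : K) = ∏ σ : K →ₐ[ℚ] ℂ, σ (x : K) := by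
    exact Fintype.prod_equiv (RingHom.equivRatAlgHom K ℂ) _ _ fun φ => rfl
  rw [h2, ← h1]
  rw [← Algebra.coe_norm_int]
  simp

theorem nz_mul (x y : 𝓞 K) : nz (x * y) = nz x * nz y := by
  rw [nz_ni, nz_ni, nz_ni, ← Ideal.span_singleton_mul_span_singleton, ni_mul]

theorem span_ne {x : 𝓞 K} (hx : x ≠ 0) : (Ideal.span {x} : Ideal (𝓞 K)) ≠ ⊥ := by
  simpa using hx

theorem one_le_nz {x : 𝓞 K} (hx : x ≠ 0) : 1 ≤ nz x := by
  rw [nz_ni]
  exact one_le_ni (span_ne hx)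

theorem nz_pos {x : 𝓞 K} (hx : x ≠ 0) : 0 < nz x := lt_of_lt_of_le one_pos (one_le_nz hx)

theorem nz_nonneg (x : 𝓞 K) : 0 ≤ nz x := by
  rw [nz_ni]
  exact ni_nonneg _

theorem nz_neg (x : 𝓞 K) : nz (-x) = nz x := by
  unfold nz
  congr 1
  funext φ
  exact sz_neg φ x

theorem nz_pow (x : 𝓞 K) (n : ℕ) : nz (x ^ n) = nz x ^ n := by
  unfold nz
  rw [← vol_pow]
  congr 1
  funext φ
  exact sz_pow φ x n

theorem ni_le_of_le {I J : Ideal (𝓞 K)} (h : I ≤ J) (hI : I ≠ ⊥) : ni J ≤ ni I := by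
  unfold ni
  have h1 : Ideal.absNorm J ∣ Ideal.absNorm I := Ideal.absNorm_dvd_absNorm_of_le h
  have h2 : Ideal.absNorm I ≠ 0 := by rwa [Ne, Ideal.absNorm_eq_zero_iff]
  exact_mod_cast Nat.le_of_dvd (Nat.pos_of_ne_zero h2) h1

theorem ni_le_nz {I : Ideal (𝓞 K)} {x : 𝓞 K} (hx : x ∈ I) (h0 : x ≠ 0) : ni I ≤ nz x := by
  rw [nz_ni]
  exact ni_le_of_le ((Ideal.span_singleton_le_iff_mem I).2 hx) (span_ne h0)

theorem nz_le_vol {x : 𝓞 K} {R : (K →+* ℂ) → ℝ} (h : ∀ φ, sz φ x ≤ R φ) : nz x ≤ vol R :=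
  vol_mono (fun φ => sz_nonneg φ x) h

/-- an integer which is not too large is not too small either -/
theorem sz_low {x : 𝓞 K} (hx : x ≠ 0) {X : ℝ} (hX : 1 ≤ X) (h : ∀ φ, sz φ x ≤ X)
    (φ : K →+* ℂ) : (X ^ Module.finrank ℚ K)⁻¹ ≤ sz φ x := by
  classical
  have hX0 : 0 < X := lt_of_lt_of_le one_pos hX
  by_contra hcon
  push Not at hcon
  have h1 := one_le_nz hx
  rw [nz, vol, ← Finset.mul_prod_erase _ _ (Finset.mem_univ φ)] at h1
  have h3 : ∏ ψ ∈ Finset.univ.erase φ, sz ψ x ≤ X ^ Module.finrank ℚ K := by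
    calc ∏ ψ ∈ Finset.univ.erase φ, sz ψ x
        ≤ ∏ ψ ∈ Finset.univ.erase φ, X :=
          Finset.prod_le_prod (fun ψ _ => sz_nonneg ψ x) fun ψ _ => h ψ
      _ ≤ ∏ ψ : K →+* ℂ, X := by
          rw [← Finset.mul_prod_erase (s := (Finset.univ : Finset (K →+* ℂ))) (a := φ)
            (fun ψ => X) (Finset.mem_univ φ)]
          exact le_mul_of_one_le_left (Finset.prod_nonneg fun ψ _ => hX0.le) hX
      _ = X ^ Module.finrank ℚ K := vol_const X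
  have h4 : sz φ x * ∏ ψ ∈ Finset.univ.erase φ, sz ψ x <
      (X ^ Module.finrank ℚ K)⁻¹ * X ^ Module.finrank ℚ K := by
    refine lt_of_le_of_lt (mul_le_mul_of_nonneg_left h3 (sz_nonneg φ x)) ?_
    exact mul_lt_mul_of_pos_right hcon (pow_pos hX0 _)
  rw [inv_mul_cancel₀ (pow_pos hX0 _).ne'] at h4
  linarith

/-- symmetric `2 × 2` matrices `(b₁₁, b₁₂, b₂₂)` -/
abbrev T3 (K : Type) [Field K] [NumberField K] : Type := 𝓞 K × 𝓞 K × 𝓞 K

/-- the determinant -/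
def dt (b : T3 K) : 𝓞 K := b.1 * b.2.2 - b.2.1 ^ 2

/-- the content -/
def cn (b : T3 K) : Ideal (𝓞 K) := Ideal.span {b.1, b.2.1, b.2.2}

/-- the matrix `b` of a block -/
def tb (β : Blk (𝓞 K)) : T3 K := (β.b1, β.b2, β.b3)

/-- the matrix `c` of a block -/
def tc (β : Blk (𝓞 K)) : T3 K := (β.c1, β.c2, β.c3)

theorem dt_tb (β : Blk (𝓞 K)) : dt (tb β) = β.D1 := rfl

theorem dt_tc (β : Blk (𝓞 K)) : dt (tc β) = β.D3 := rfl

theorem tbc_inj {β γ : Blk (𝓞 K)} (h1 : tb β = tb γ) (h2 : tc β = tc γ) : β = γ := by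
  simp only [tb, tc, Prod.mk.injEq] at h1 h2
  ext
  · exact congrArg _ h1.1
  · exact congrArg _ h1.2.1
  · exact congrArg _ h1.2.2
  · exact congrArg _ h2.1
  · exact congrArg _ h2.2.1
  · exact congrArg _ h2.2.2

theorem cn_1 (b : T3 K) : b.1 ∈ cn b := Ideal.subset_span (by simp)

theorem cn_2 (b : T3 K) : b.2.1 ∈ cn b := Ideal.subset_span (by simp)

theorem cn_3 (b : T3 K) : b.2.2 ∈ cn b := Ideal.subset_span (by simp)

theorem cn_le {b : T3 K} {I : Ideal (𝓞 K)} (h1 : b.1 ∈ I) (h2 : b.2.1 ∈ I) (h3 : b.2.2 ∈ I) :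
    cn b ≤ I := by
  unfold cn
  rw [Ideal.span_le]
  intro x hx
  simp only [Set.mem_insert_iff, Set.mem_singleton_iff] at hx
  rcases hx with rfl | rfl | rfl <;> assumption

theorem dt_mem {b : T3 K} {I : Ideal (𝓞 K)} (h1 : b.1 ∈ I) (h2 : b.2.1 ∈ I) (h3 : b.2.2 ∈ I) :
    dt b ∈ I ^ 2 := by
  unfold dt
  refine (I ^ 2).sub_mem ?_ (Ideal.pow_mem_pow h2 2)
  rw [pow_two]
  exact Ideal.mul_mem_mul h1 h3

theorem cn_ne {b : T3 K} (h : dt b ≠ 0) : cn b ≠ ⊥ := by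
  intro hb
  have h1 := dt_mem (cn_1 b) (cn_2 b) (cn_3 b)
  rw [hb] at h1
  apply h
  simpa using h1

theorem ni_cn_sq {b : T3 K} (h : dt b ≠ 0) : ni (cn b) ^ 2 ≤ nz (dt b) := by
  have h1 := dt_mem (cn_1 b) (cn_2 b) (cn_3 b)
  have h2 := ni_le_nz h1 h
  rwa [pow_two (cn b), ni_mul, ← pow_two] at h2

end Pool.Agent.H67.WA
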