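import Pool.Agent.H67.WA.Defs

/-!
# W1 steps 6, 8: ideals

PROOFS. `sq_u`: `𝔲 𝔵 = 𝔷²` (spans). `𝔤 = 𝔲 ⊔ 𝔷 = gcd`, `𝔲 = 𝔤 𝔲'`, `𝔷 = 𝔤 𝔷'`, `𝔲'`, `𝔷'` coprime; cancel `𝔤`: `𝔲' 𝔵 = 𝔤 𝔷'²`, so `𝔲' ∣ 𝔤`,
`𝔤 = 𝔲' 𝔥`, `𝔲 = 𝔲'² 𝔥` and `𝔵 = 𝔥 𝔷'²`. Hypothesis with `I = 𝔲'`: `𝔲' ∣ (M)`. `ni 𝔲 = (ni 𝔲')² ni 𝔥 ≤ (nz M)² nz x`, `nz M = M ^ d`.
(`z ≠ 0` because `u, x ≠ 0`.) `sq_q`: `span {q} ^ 2 ∣ span {v}` gives `span {q} ∣ span {M}`.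
`sq_mul`: `I ^ 2 ∣ (g ^ 2 u)`, `J = I ⊔ (g)`, `I = J I'`, `(g) = J 𝔤'`, `I'`, `𝔤'` coprime, `J² I'² ∣ J² 𝔤'² (u)`, so `I'² ∣ (u)`,
`I' ∣ (M)`, `I = J I' ∣ (g)(M)`. `sqf_split`: `A1 = gc ⊔ span {b}` divides `gc`: `gc = A1 * A2`; `A1`, `A2` coprime (`gc` squarefree); a maximal
ideal which contains `A2` and `b` contains `gc` and `b`, so `A1`, contradiction to coprime: `A2 ⊔ span {b} = ⊤`. The last clause:
`x ^ 2 ∈ A1`, `A1` squarefree (divides `gc`), so `x ∈ A1` (`Squarefree` ideals of a Dedekind domain are radical: `(x)² ∈`, i.e.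
`A1 ∣ (x)²` implies `A1 ∣ (x)`, `Squarefree.dvd_pow_iff_dvd`).
-/

set_option autoImplicit false

namespace Pool.Agent.H67.WA

open NumberField Finset H88.A4

variable {K : Type} [Field K] [NumberField K]

private theorem gcd_split {a b : Ideal (𝓞 K)} (h : a ⊔ b ≠ ⊥) :
    ∃ a' b' : Ideal (𝓞 K), a = (a ⊔ b) * a' ∧ b = (a ⊔ b) * b' ∧ IsCoprime a' b' := by
  obtain ⟨a', ha⟩ : a ⊔ b ∣ a := Ideal.dvd_iff_le.2 le_sup_left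
  obtain ⟨b', hb⟩ : a ⊔ b ∣ b := Ideal.dvd_iff_le.2 le_sup_right
  refine ⟨a', b', ha, hb, ?_⟩
  rw [Ideal.isCoprime_iff_sup_eq]
  have h1 : (a ⊔ b) * (a' ⊔ b') = (a ⊔ b) * ⊤ := by
    rw [Ideal.mul_sup, ← ha, ← hb, Ideal.mul_top]
  exact mul_left_cancel₀ h h1

private theorem nz_nat (M : ℕ) : nz (M : 𝓞 K) = (M : ℝ) ^ Module.finrank ℚ K := by
  unfold nz
  rw [← vol_const (K := K) (M : ℝ)]
  congr 1
  funext φ
  simp [sz]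

private theorem ni_le_M {M : ℕ} (hM : M ≠ 0) {I : Ideal (𝓞 K)}
    (h : I ∣ Ideal.span {(M : 𝓞 K)}) : ni I ≤ (M : ℝ) ^ Module.finrank ℚ K := by
  rw [← nz_nat]
  exact ni_le_nz (Ideal.dvd_span_singleton.1 h) (Nat.cast_ne_zero.2 hM)

theorem sq_u {M : ℕ} (hM : M ≠ 0) {u x z : 𝓞 K} (hu : u ≠ 0) (hx : x ≠ 0)
    (hsq : ∀ I : Ideal (𝓞 K), I ^ 2 ∣ Ideal.span {u} → I ∣ Ideal.span {(M : 𝓞 K)})
    (h : u * x = - z ^ 2) :
    nz u ≤ ((M : ℝ) ^ Module.finrank ℚ K) ^ 2 * nz x := by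
  have hUX : (Ideal.span {u} : Ideal (𝓞 K)) * Ideal.span {x} = Ideal.span {z} ^ 2 := by
    rw [Ideal.span_singleton_mul_span_singleton, h, Ideal.span_singleton_neg,
      Ideal.span_singleton_pow]
  have hg0 : (Ideal.span {u} : Ideal (𝓞 K)) ⊔ Ideal.span {z} ≠ ⊥ := by
    intro h0
    have h1 : (Ideal.span {u} : Ideal (𝓞 K)) ≤ ⊥ := h0 ▸ le_sup_left
    exact span_ne hu (le_bot_iff.1 h1)
  obtain ⟨U', Z', hU, hZ, hcop⟩ := gcd_split hg0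
  set g := (Ideal.span {u} : Ideal (𝓞 K)) ⊔ Ideal.span {z} with hg
  have h1 : U' * Ideal.span {x} = g * Z' ^ 2 := by
    apply mul_left_cancel₀ hg0
    calc g * (U' * Ideal.span {x}) = (g * U') * Ideal.span {x} := by ring
      _ = (g * Z') ^ 2 := by rw [← hU, hUX, ← hZ]
      _ = g * (g * Z' ^ 2) := by ring
  have hcop2 : IsCoprime U' (Z' ^ 2) := hcop.pow_right
  obtain ⟨k, hk⟩ : U' ∣ g := hcop2.dvd_of_dvd_mul_right ⟨_, h1.symm⟩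
  have hU0 : U' ≠ 0 := by
    rintro rfl
    rw [mul_zero] at hU
    exact span_ne hu hU
  have h2 : Ideal.span {u} = U' ^ 2 * k := by
    rw [hU, hk]
    ring
  have h3 : Ideal.span {x} = k * Z' ^ 2 := by
    apply mul_left_cancel₀ hU0
    rw [h1, hk]
    ring
  have h4 : U' ∣ Ideal.span {(M : 𝓞 K)} := hsq U' ⟨k, h2⟩
  have h5 := ni_le_M hM h4
  have hk0 : ni k ≤ nz x := by
    rw [nz_ni]
    refine ni_le_of_le ?_ (span_ne hx)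
    rw [h3]
    exact Ideal.mul_le_left
  rw [nz_ni, h2, ni_mul, pow_two, ni_mul, ← pow_two]
  exact mul_le_mul (pow_le_pow_left₀ (ni_nonneg _) h5 2) hk0 (ni_nonneg _) (by positivity)

theorem sq_q {M : ℕ} (hM : M ≠ 0) {v k q : 𝓞 K} (hv : v ≠ 0)
    (hsq : ∀ I : Ideal (𝓞 K), I ^ 2 ∣ Ideal.span {v} → I ∣ Ideal.span {(M : 𝓞 K)})
    (h : v = - (k * q ^ 2)) :
    nz v ≤ ((M : ℝ) ^ Module.finrank ℚ K) ^ 2 * nz k ∧ nz k ≤ nz v := by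
  have hq0 : q ≠ 0 := by
    rintro rfl
    apply hv
    rw [h]
    simp
  have h1 : (Ideal.span {q} : Ideal (𝓞 K)) ^ 2 ∣ Ideal.span {v} := by
    rw [h, Ideal.span_singleton_neg, ← Ideal.span_singleton_mul_span_singleton,
      Ideal.span_singleton_pow]
    exact Dvd.intro_left _ rfl
  have h2 := ni_le_M hM (hsq _ h1)
  rw [← nz_ni] at h2
  have h3 : nz v = nz k * nz q ^ 2 := by
    rw [h, nz_neg, nz_mul, nz_pow]
  have h4 := one_le_nz hq0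
  have h5 := nz_nonneg k
  constructor
  · rw [h3, mul_comm]
    exact mul_le_mul_of_nonneg_right (pow_le_pow_left₀ (nz_nonneg _) h2 2) h5
  · rw [h3]
    exact le_mul_of_one_le_right h5 (one_le_pow₀ h4)

theorem sq_mul {M : ℕ} {g u : 𝓞 K} (hg : g ≠ 0)
    (hsq : ∀ I : Ideal (𝓞 K), I ^ 2 ∣ Ideal.span {u} → I ∣ Ideal.span {(M : 𝓞 K)})
    {I : Ideal (𝓞 K)} (hI : I ^ 2 ∣ Ideal.span {g ^ 2 * u}) :
    I ∣ Ideal.span {g * (M : 𝓞 K)} := by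
  have hJ0 : I ⊔ Ideal.span {g} ≠ ⊥ := by
    intro h0
    have h1 : (Ideal.span {g} : Ideal (𝓞 K)) ≤ ⊥ := h0 ▸ le_sup_right
    exact span_ne hg (le_bot_iff.1 h1)
  obtain ⟨I', G', hI', hG', hcop⟩ := gcd_split hJ0
  set J := I ⊔ Ideal.span {g} with hJ
  rw [← Ideal.span_singleton_mul_span_singleton, ← Ideal.span_singleton_pow] at hI
  rw [hI', hG', mul_pow, mul_pow, mul_assoc, mul_dvd_mul_iff_left (pow_ne_zero 2 hJ0)] at hI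
  have h1 : IsCoprime (I' ^ 2) (G' ^ 2) := hcop.pow
  have h2 := hsq I' (h1.dvd_of_dvd_mul_left hI)
  rw [← Ideal.span_singleton_mul_span_singleton, hI']
  refine mul_dvd_mul ?_ h2
  rw [Ideal.dvd_iff_le]
  exact le_sup_right

theorem sqf_split {gc : Ideal (𝓞 K)} (h0 : gc ≠ ⊥) (hs : Squarefree gc) (b : 𝓞 K) :
    ∃ A1 A2 : Ideal (𝓞 K), gc = A1 * A2 ∧ A1 = gc ⊔ Ideal.span {b} ∧ A2 ⊔ Ideal.span {b} = ⊤ ∧
      ∀ x : 𝓞 K, x ^ 2 ∈ A1 → x ∈ A1 := by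
  obtain ⟨A2, h1⟩ : gc ⊔ Ideal.span {b} ∣ gc := Ideal.dvd_iff_le.2 le_sup_left
  refine ⟨gc ⊔ Ideal.span {b}, A2, h1, rfl, ?_, ?_⟩
  · by_contra hne
    obtain ⟨P, hP, hle⟩ := Ideal.exists_le_maximal _ hne
    have h2 : A2 ≤ P := le_sup_left.trans hle
    have h3 : Ideal.span {b} ≤ P := le_sup_right.trans hle
    have h4 : gc ≤ P := by
      rw [h1]
      exact Ideal.mul_le_right.trans h2
    have h5 : P * P ∣ gc := by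
      rw [h1]
      exact mul_dvd_mul (Ideal.dvd_iff_le.2 (sup_le h4 h3)) (Ideal.dvd_iff_le.2 h2)
    have h6 := hs P h5
    rw [Ideal.isUnit_iff] at h6
    exact hP.ne_top h6
  · intro x hx
    have h2 : Squarefree (gc ⊔ Ideal.span {b}) := hs.squarefree_of_dvd (Dvd.intro _ h1.symm)
    rw [← Ideal.dvd_span_singleton, ← Ideal.span_singleton_pow,
      h2.dvd_pow_iff_dvd two_ne_zero, Ideal.dvd_span_singleton] at hx
    exact hx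

end Pool.Agent.H67.WA
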