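import Pool.Agent.H67.WA.S8
import Pool.Agent.H67.WA.IdU

/-!
# W1: STEP 8 = `DegStmt` from the completions lemma

PROOF. As in `Main.lean` (`H`, `ε1`, the sum over the blocks, `H^(2 ε1) ≤ const (s t)^ε`, `∏ Dt^(-3/2) = (√(vol Dt))⁻¹ ^ 3`). On `S`:
`c₁ = c₂ = 0`, `D3 = 0`, `D2 = b₁ c₃`, `E = - (b₁ c₃)² ≠ 0`. `e4`: `v = - c₃ q₁²`; `sq_q` and the sizes of `v` (`nz v ≤ C^d t^(3d)`,
`t^(3d) ≤ C^d nz v`) give `k1`, `k2` with `C1 = C^(d+1) M^(2d)`. The three ideals: `gb`, and `gc = A1 * A2` from `sqf_split` with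
`b = b₁` (`gc ≠ ⊥` since squarefree): `A = ![gb, A1, A2]`. `b₁ ∈ gb * A1`: `gb ⊓ A1 = gb * A1` (`gb`, `gc` coprime, `gc ≤ A1`), `b₁ ∈ A1`;
`b₂ ∈ gb`, `b₂² = b₁ b₃ - D1 ∈ A1` (`D1 ∈ gc ≤ A1`), so `b₂ ∈ A1`; `c₃ ∈ gc ≤ A2`, `D1 ∈ gc ≤ A2`.
`ni gb * ni A1 * ni A2 = ni gb * ni gc = Ng`. `Dt ≤ C` (`Deg`, `D3 = 0`). `s8` with `X = H`.
-/

set_option autoImplicit false

namespace Pool.Agent.H67.WA

open NumberField Finset H88.A4

variable (K : Type) [Field K] [NumberField K]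

private theorem dt_pos_g {s t : ℝ} (hs : 0 < s) {β : Blk (𝓞 K)} (hD : β.D1 ≠ 0) (φ : K →+* ℂ) :
    0 < Dt s t β φ := by
  unfold Dt
  refine lt_of_lt_of_le ?_ (le_max_left _ _)
  have h1 := sz_pos φ hD
  unfold sz at h1
  positivity

private theorem prod_dt_g {s t : ℝ} (hs : 0 < s) {β : Blk (𝓞 K)} (hD : β.D1 ≠ 0) :
    ∏ φ : K →+* ℂ, Dt s t β φ ^ (-(3 / 2) : ℝ) = (Real.sqrt (vol (Dt s t β)))⁻¹ ^ 3 := by
  have hp : ∀ φ, 0 < Dt s t β φ := fun φ => dt_pos_g K hs hD φ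
  rw [Real.finsetProd_rpow _ _ (fun φ _ => (hp φ).le)]
  have hv : 0 < vol (Dt s t β) := vol_pos hp
  change vol (Dt s t β) ^ (-(3 / 2) : ℝ) = _
  rw [Real.sqrt_eq_rpow, ← Real.rpow_neg hv.le, ← Real.rpow_natCast, ← Real.rpow_mul hv.le]
  norm_num

private theorem all_mono_g {β : Blk (𝓞 K)} {X Y : ℝ} (hXY : X ≤ Y) (h : β.All (Bd X)) : β.All (Bd Y) := by
  obtain ⟨h1, h2, h3, h4, h5, h6⟩ := h
  exact ⟨fun φ => (h1 φ).trans hXY, fun φ => (h2 φ).trans hXY, fun φ => (h3 φ).trans hXY,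
    fun φ => (h4 φ).trans hXY, fun φ => (h5 φ).trans hXY, fun φ => (h6 φ).trans hXY⟩

private theorem rep_mono_g {β : Blk (𝓞 K)} {u v : 𝓞 K} {X Y : ℝ} (hXY : X ≤ Y) (h : Rep X β u v) :
    Rep Y β u v := by
  obtain ⟨π, r, r', ⟨h1, h2, h3, h4⟩, h5⟩ := h
  exact ⟨π, r, r', ⟨fun φ => (h1 φ).trans hXY, fun φ => (h2 φ).trans hXY,
    fun φ => (h3 φ).trans hXY, fun φ => (h4 φ).trans hXY⟩, h5⟩

/-- the size of `c₃` -/
private theorem k_size {M : ℕ} (hM : M ≠ 0) {C s t : ℝ} (hC : 1 ≤ C) (ht : 0 < t) {u v : 𝓞 K}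
    {H : ℝ} {β : Blk (𝓞 K)} (hA : Adm M C s t u v) (hR : Rep H β u v) (h1 : β.c1 = 0) (h2 : β.c2 = 0) :
    t ^ (3 * Module.finrank ℚ K) ≤ C ^ Module.finrank ℚ K *
      (((M : ℝ) ^ Module.finrank ℚ K) ^ 2 * nz β.c3) ∧
    nz β.c3 ≤ C ^ Module.finrank ℚ K * t ^ (3 * Module.finrank ℚ K) := by
  obtain ⟨π, r, r', -, hsol⟩ := hR
  have e4 : v = -(β.c3 * π.q1 ^ 2) := by
    rw [← hsol.e4]
    unfold Blk.D3 Blk.Ac
    rw [h1, h2]
    ring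
  obtain ⟨q1, q2⟩ := sq_q hM hA.v0 hA.sqv e4
  have hv1 : nz v ≤ C ^ Module.finrank ℚ K * t ^ (3 * Module.finrank ℚ K) := by
    have : nz v ≤ vol (fun _ : K →+* ℂ => C * t ^ 3) := nz_le_vol fun φ => hA.vle φ
    rw [vol_const, mul_pow, ← pow_mul] at this
    exact this
  have hv2 : t ^ (3 * Module.finrank ℚ K) ≤ C ^ Module.finrank ℚ K * nz v := by
    have : vol (fun _ : K →+* ℂ => t ^ 3) ≤ vol (fun φ : K →+* ℂ => C * sz φ v) :=
      vol_mono (fun _ => by positivity) fun φ => hA.vge φ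
    rw [vol_const, vol_smul, ← pow_mul] at this
    exact this
  exact ⟨hv2.trans (mul_le_mul_of_nonneg_left q1 (by positivity)), q2.trans hv1⟩

private theorem dt_le_g {C s t : ℝ} (hs : 0 < s) (ht : 0 < t) (hC : 0 < C) {β : Blk (𝓞 K)}
    (h : Deg C s t β) (φ : K →+* ℂ) : Dt s t β φ ≤ C := by
  obtain ⟨h1, h2, h3, h4, h5, h6, h7, h8⟩ := h
  have hD2 : β.D2 = β.b1 * β.c3 := by
    unfold Blk.D2
    rw [h1, h2]
    ring
  have hD3 : β.D3 = 0 := by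
    unfold Blk.D3
    rw [h1, h2]
    ring
  unfold Dt
  rw [hD2, hD3]
  refine max_le ?_ (max_le ?_ ?_)
  · rw [div_le_iff₀ (by positivity)]
    exact h7 φ
  · rw [div_le_iff₀ (by positivity)]
    exact h8 φ
  · have : φ (((0 : 𝓞 K) : K)) = 0 := by simp
    rw [this, norm_zero, zero_div]
    exact hC.le

theorem deg_of (h : CompletionsStmt K) : DegStmt K := by
  classical
  intro M hM C hC A ε hε
  set ε1 : ℝ := ε / (2 * ((A : ℝ) + 1)) with hε1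
  have hA1 : (0 : ℝ) < (A : ℝ) + 1 := by positivity
  have hε1p : 0 < ε1 := by positivity
  obtain ⟨C', hC', h'⟩ := h M hM C hC ε1 hε1p
  have hC0 : (0 : ℝ) < C := lt_of_lt_of_le one_pos hC
  have hM1 : (1 : ℝ) ≤ M := by exact_mod_cast Nat.one_le_iff_ne_zero.2 hM
  obtain ⟨d, hd⟩ : ∃ d : ℕ, d = Module.finrank ℚ K := ⟨_, rfl⟩
  obtain ⟨C1, hC1⟩ : ∃ C1 : ℝ, C1 = C ^ (d + 1) * ((M : ℝ) ^ d) ^ 2 := ⟨_, rfl⟩
  have hMd : (1 : ℝ) ≤ ((M : ℝ) ^ d) ^ 2 := one_le_pow₀ (one_le_pow₀ hM1)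
  have hCd : (1 : ℝ) ≤ C ^ d := one_le_pow₀ hC
  have hCC1 : C ≤ C1 := by
    rw [hC1, pow_succ']
    calc C = C * 1 * 1 := by ring
      _ ≤ C * C ^ d * ((M : ℝ) ^ d) ^ 2 :=
          mul_le_mul (mul_le_mul_of_nonneg_left hCd hC0.le) hMd zero_le_one (by positivity)
  have hC11 : 1 ≤ C1 := hC.trans hCC1
  have hC1a : C ^ d * ((M : ℝ) ^ d) ^ 2 ≤ C1 := by
    rw [hC1]
    have : C ^ d ≤ C ^ (d + 1) := pow_le_pow_right₀ hC (Nat.le_succ d)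
    exact mul_le_mul_of_nonneg_right this (by positivity)
  have hC1b : C ^ d ≤ C1 := by
    refine le_trans ?_ hC1a
    exact le_mul_of_one_le_right (by positivity) hMd
  obtain ⟨C2, hC2, h8⟩ := s8 K hε1p hC11
  refine ⟨C' * C2 * (C ^ 2 * (1 + C)) ^ ε, by positivity, ?_⟩
  intro s t hRg S hS
  obtain ⟨hCt, hts⟩ := hRg
  have ht : 0 < t := by
    by_contra hcon
    push Not at hcon
    have : C * t ≤ 0 := mul_nonpos_of_nonneg_of_nonpos hC0.le hcon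
    linarith
  have hs : 0 < s := lt_of_lt_of_le ht hts
  have hst : 0 < s * t := mul_pos hs ht
  set B : ℝ := C * (1 + s) with hB
  have hB1 : 1 ≤ B := by
    rw [hB]
    nlinarith
  have hB0 : 0 < B := lt_of_lt_of_le one_pos hB1
  set H : ℝ := Hp C (A + 1) s with hH
  have hHB : H = B ^ (A + 1) := rfl
  have hH1 : 1 ≤ H := by
    rw [hHB]
    exact one_le_pow₀ hB1
  have hBH : B ≤ H := by
    rw [hHB]
    exact le_self_pow₀ hB1 (Nat.succ_ne_zero A)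
  have hsB : s ≤ B := by
    rw [hB]
    nlinarith
  have hsH : s ≤ H := hsB.trans hBH
  have htH : t ≤ H := hts.trans hsH
  have hAH : Hp C A s ≤ H := by
    rw [hHB]
    exact pow_le_pow_right₀ hB1 (Nat.le_succ A)
  have h'' : ∀ β : Blk (𝓞 K), (β.E ≠ 0 ∧ β.D1 ≠ 0 ∧ β.All (Bd H)) →
      ∃ gb gc : Ideal (𝓞 K), Squarefree gb ∧ Squarefree gc ∧ IsCoprime gb gc ∧
        (β.b1 ∈ gb ∧ β.b2 ∈ gb ∧ β.b3 ∈ gb) ∧
        (β.c1 ∈ gc ∧ β.c2 ∈ gc ∧ β.c3 ∈ gc ∧ β.D1 ∈ gc) ∧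
        ∀ S : Finset (𝓞 K × 𝓞 K), (∀ x ∈ S, Adm M C s t x.1 x.2 ∧ Rep H β x.1 x.2) →
          (S.card : ℝ) ≤ C' * H ^ ε1 *
            (1 + Ideal.absNorm gb * Ideal.absNorm gc *
              ∏ φ : K →+* ℂ, Dt s t β φ ^ (-(3 / 2) : ℝ)) :=
    fun β hβ => h' s t H hs ht hsH htH hH1 β hβ.1 hβ.2.1 hβ.2.2
  choose! gb gc hg using h''
  set T : Finset (Blk (𝓞 K)) := S.image fun x => x.2.2 with hT
  have hTP : ∀ β ∈ T, Deg C s t β ∧ β.All (Bd H) ∧ β.E ≠ 0 ∧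
      ∃ u v, Adm M C s t u v ∧ Rep H β u v := by
    intro β hβ
    rw [hT, Finset.mem_image] at hβ
    obtain ⟨x, hx, rfl⟩ := hβ
    obtain ⟨hA, hDg, h6, h7⟩ := hS x hx
    refine ⟨hDg, all_mono_g K hAH h6, ?_, x.1, x.2.1, hA, rep_mono_g K hAH h7⟩
    obtain ⟨h1, h2, h3, h4, h5, -⟩ := hDg
    have hE : x.2.2.E = -(x.2.2.b1 * x.2.2.c3) ^ 2 := by
      unfold Blk.E Blk.D2 Blk.D3
      rw [h1, h2]
      ring
    rw [hE, neg_ne_zero]
    exact pow_ne_zero 2 (mul_ne_zero h4 h3)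
  set Ng : Blk (𝓞 K) → ℝ := fun β => (Ideal.absNorm (gb β) : ℝ) * (Ideal.absNorm (gc β) : ℝ)
    with hNg
  have hAA : ∀ β ∈ T, ∃ AA : Fin 3 → Ideal (𝓞 K), Dg C1 H s t β AA ∧
      Ng β ≤ ni (AA 0) * ni (AA 1) * ni (AA 2) := by
    intro β hβ
    obtain ⟨hDg, hall, hE, u, v, hAd, hRep⟩ := hTP β hβ
    have hDg' := hDg
    obtain ⟨h1, h2, h3, h4, h5, h6, h7, h9⟩ := hDg
    obtain ⟨-, hsq, hcop, ⟨hb1, hb2, hb3⟩, ⟨hc1, hc2, hc3, hcD⟩, -⟩ := hg β ⟨hE, h5, hall⟩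
    have hgc0 : gc β ≠ ⊥ := hsq.ne_zero
    obtain ⟨A1, A2, e1, e2, e3, e5⟩ := sqf_split hgc0 hsq β.b1
    have hgA1 : gc β ≤ A1 := by
      rw [e2]
      exact le_sup_left
    have hgA2 : gc β ≤ A2 := by
      rw [e1]
      exact Ideal.mul_le_right
    have hbA1 : β.b1 ∈ A1 := by
      rw [e2]
      exact (le_sup_right : Ideal.span {β.b1} ≤ _) (Ideal.mem_span_singleton_self _)
    have hco : IsCoprime (gb β) A1 := by
      rw [e1] at hcop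
      exact IsCoprime.of_mul_right_left hcop
    have hinf : gb β ⊓ A1 = gb β * A1 := (Ideal.mul_eq_inf_of_isCoprime hco).symm
    have hb2A : β.b2 ∈ A1 := by
      apply e5
      have : β.b2 ^ 2 = β.b1 * β.b3 - β.D1 := by
        unfold Blk.D1
        ring
      rw [this]
      exact A1.sub_mem (A1.mul_mem_right _ hbA1) (hgA1 hcD)
    obtain ⟨k1, k2⟩ := k_size K hM hC ht hAd hRep h1 h2
    rw [← hd] at k1 k2
    refine ⟨![gb β, A1, A2], ⟨h1, h2, h3, h4, h5, ?_, ?_, ?_, hall, ?_, ?_, hb3, hgA2 hc3,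
      hgA2 hcD, e3⟩, ?_⟩
    · rw [← hd]
      refine k1.trans ?_
      rw [← mul_assoc]
      exact mul_le_mul_of_nonneg_right hC1a (nz_nonneg _)
    · rw [← hd]
      exact k2.trans (mul_le_mul_of_nonneg_right hC1b (by positivity))
    · intro φ
      exact (h6 φ).trans (mul_le_mul_of_nonneg_right hCC1 (norm_nonneg _))
    · show β.b1 ∈ gb β * A1
      rw [← hinf]
      exact ⟨hb1, hbA1⟩
    · show β.b2 ∈ gb β * A1
      rw [← hinf]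
      exact ⟨hb2, hb2A⟩
    · show (Ideal.absNorm (gb β) : ℝ) * (Ideal.absNorm (gc β) : ℝ) ≤ ni (gb β) * ni A1 * ni A2
      have : (Ideal.absNorm (gc β) : ℝ) = ni A1 * ni A2 := by
        rw [← ni_mul, ← e1]
        rfl
      rw [this, mul_assoc]
      exact le_rfl
  choose! AA hAA1 hAA2 using hAA
  have hsum := h8 H s t hH1 hsH ⟨hCt.trans (mul_le_mul_of_nonneg_right hCC1 ht.le), hts⟩ T Ng AA (by
    intro β hβ
    obtain ⟨hDg, -⟩ := hTP β hβ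
    exact ⟨hAA1 β hβ, by positivity, hAA2 β hβ, fun φ => (dt_le_g K hs ht hC0 hDg φ).trans hCC1⟩)
  have hfib : ∀ β ∈ T, ((S.filter fun x => x.2.2 = β).card : ℝ) ≤
      C' * H ^ ε1 * (1 + Ng β * (Real.sqrt (vol (Dt s t β)))⁻¹ ^ 3) := by
    intro β hβ
    obtain ⟨hDg, hall, hE, -⟩ := hTP β hβ
    have h3 : β.D1 ≠ 0 := hDg.2.2.2.2.1
    obtain ⟨-, -, -, -, -, hcount⟩ := hg β ⟨hE, h3, hall⟩
    have hc := hcount ((S.filter fun x => x.2.2 = β).image fun x => (x.1, x.2.1)) (by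
      intro y hy
      rw [Finset.mem_image] at hy
      obtain ⟨x, hx, rfl⟩ := hy
      rw [Finset.mem_filter] at hx
      obtain ⟨hx1, hx2⟩ := hx
      obtain ⟨h7', -, -, h8⟩ := hS x hx1
      rw [← hx2]
      exact ⟨h7', rep_mono_g K hAH h8⟩)
    rw [Finset.card_image_of_injOn, prod_dt_g K hs h3] at hc
    · exact hc
    · intro x hx y hy hxy
      simp only [Finset.coe_filter, Set.mem_ofPred_eq] at hx hy
      simp only [Prod.mk.injEq] at hxy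
      exact Prod.ext hxy.1 (Prod.ext hxy.2 (hx.2.trans hy.2.symm))
  have hcard : (S.card : ℝ) = ∑ β ∈ T, ((S.filter fun x => x.2.2 = β).card : ℝ) := by
    rw [Finset.card_eq_sum_card_image (fun x => x.2.2) S, Nat.cast_sum]
  have hHe : (H ^ ε1) * (H ^ ε1) ≤ (C ^ 2 * (1 + C)) ^ ε * (s * t) ^ ε := by
    have hH0 : 0 < H := lt_of_lt_of_le one_pos hH1
    rw [← Real.rpow_add hH0, hHB, ← Real.rpow_natCast, ← Real.rpow_mul hB0.le,
      ← Real.mul_rpow (by positivity) hst.le]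
    have he : ((A + 1 : ℕ) : ℝ) * (ε1 + ε1) = ε := by
      rw [hε1]
      push_cast
      field_simp
      ring
    rw [he]
    refine Real.rpow_le_rpow hB0.le ?_ hε.le
    have hCs : 1 ≤ C * s := hCt.trans (mul_le_mul_of_nonneg_left hts hC0.le)
    have h1 : 1 + s ≤ (1 + C) * s := by nlinarith
    have h2 : (1 + C) * s ≤ (1 + C) * s * (C * t) :=
      le_mul_of_one_le_right (by positivity) hCt
    calc B = C * (1 + s) := hB
      _ ≤ C * ((1 + C) * s * (C * t)) := mul_le_mul_of_nonneg_left (h1.trans h2) hC0.le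
      _ = C ^ 2 * (1 + C) * (s * t) := by ring
  have hrp : (s * t) ^ (3 * (Module.finrank ℚ K : ℝ) + ε) =
      (s * t) ^ (3 * Module.finrank ℚ K) * (s * t) ^ ε := by
    rw [Real.rpow_add hst, ← Real.rpow_natCast]
    push_cast
    rfl
  have hH0 : 0 < H := lt_of_lt_of_le one_pos hH1
  have hHp : 0 < H ^ ε1 := Real.rpow_pos_of_pos hH0 _
  calc (S.card : ℝ) = ∑ β ∈ T, ((S.filter fun x => x.2.2 = β).card : ℝ) := hcard
    _ ≤ ∑ β ∈ T, C' * H ^ ε1 * (1 + Ng β * (Real.sqrt (vol (Dt s t β)))⁻¹ ^ 3) :=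
        Finset.sum_le_sum hfib
    _ = C' * H ^ ε1 * ∑ β ∈ T, (1 + Ng β * (Real.sqrt (vol (Dt s t β)))⁻¹ ^ 3) := by
        rw [Finset.mul_sum]
    _ ≤ C' * H ^ ε1 * (C2 * H ^ ε1 * (s * t) ^ (3 * Module.finrank ℚ K)) :=
        mul_le_mul_of_nonneg_left hsum (by positivity)
    _ = C' * C2 * (H ^ ε1 * H ^ ε1) * (s * t) ^ (3 * Module.finrank ℚ K) := by ring
    _ ≤ C' * C2 * ((C ^ 2 * (1 + C)) ^ ε * (s * t) ^ ε) *
          (s * t) ^ (3 * Module.finrank ℚ K) := by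
        refine mul_le_mul_of_nonneg_right ?_ (by positivity)
        exact mul_le_mul_of_nonneg_left hHe (by positivity)
    _ = C' * C2 * (C ^ 2 * (1 + C)) ^ ε * (s * t) ^ (3 * (Module.finrank ℚ K : ℝ) + ε) := by
        rw [hrp]
        ring

end Pool.Agent.H67.WA
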