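import Pool.Agent.H67.WA.S7

/-!
# W1: STEP 7 = `MainStmt` from the completions lemma

PROOF. Given `M, C, A, ε`: `ε1 = ε / (2 (A + 1))`, `C'` from the hypothesis (`M, C, ε1`), `H = Hp C (A + 1) s = (C (1 + s))^(A+1)`:
`1 ≤ H`, `s ≤ H`, `t ≤ H`, `Hp C A s ≤ H` (`C (1 + s) ≥ 1`), `Bd`, `Rep` are monotone. For every `β` in the image `T` of `S`: `E, D1 ≠ 0`, so
`gb β`, `gc β` and `#{(u,v) : (u,v,β) ∈ S} ≤ C' H^ε1 (1 + N gb N gc ∏ Dt^(-3/2))`. `Ng β = absNorm (gb β) * absNorm (gc β)`: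
`cn (tb β) ≤ gb β` (`cn_le`), so `N gb ≤ ni (cn (tb β))` (`ni_le_of_le`, `cn_ne`), the same for `c` (`D3 ≠ 0`).
`∏ φ, Dt ^ (-(3/2)) = (√(vol Dt))⁻¹ ^ 3` (`Dt > 0` because `D1 ≠ 0`; `Real.finsetProd_rpow`). `s7` with `X = H`, `ε1`:
`#S ≤ C' C'' H^(2 ε1) (s t)^(3d)`, and `C (1 + s) ≤ C² (1 + C) (s t)` (`1 ≤ C t`, `1 ≤ C s`), so
`H^(2 ε1) = (C (1+s))^ε ≤ const (s t)^ε`; `(s t)^(3 d) (s t)^ε = (s t)^(3 d + ε)` (`Real.rpow_add`, `Real.rpow_natCast`, `s t > 0`).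
-/

set_option autoImplicit false

namespace Pool.Agent.H67.WA

open NumberField Finset H88.A4

variable (K : Type) [Field K] [NumberField K]

private theorem dt_pos_m {s t : ℝ} (hs : 0 < s) {β : Blk (𝓞 K)} (hD : β.D1 ≠ 0) (φ : K →+* ℂ) :
    0 < Dt s t β φ := by
  unfold Dt
  refine lt_of_lt_of_le ?_ (le_max_left _ _)
  have h1 := sz_pos φ hD
  unfold sz at h1
  positivity

private theorem prod_dt_m {s t : ℝ} (hs : 0 < s) {β : Blk (𝓞 K)} (hD : β.D1 ≠ 0) :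
    ∏ φ : K →+* ℂ, Dt s t β φ ^ (-(3 / 2) : ℝ) = (Real.sqrt (vol (Dt s t β)))⁻¹ ^ 3 := by
  have hp : ∀ φ, 0 < Dt s t β φ := fun φ => dt_pos_m K hs hD φ
  rw [Real.finsetProd_rpow _ _ (fun φ _ => (hp φ).le)]
  have hv : 0 < vol (Dt s t β) := vol_pos hp
  change vol (Dt s t β) ^ (-(3 / 2) : ℝ) = _
  rw [Real.sqrt_eq_rpow, ← Real.rpow_neg hv.le, ← Real.rpow_natCast, ← Real.rpow_mul hv.le]
  norm_num

private theorem all_mono_m {β : Blk (𝓞 K)} {X Y : ℝ} (hXY : X ≤ Y) (h : β.All (Bd X)) : β.All (Bd Y) := by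
  obtain ⟨h1, h2, h3, h4, h5, h6⟩ := h
  exact ⟨fun φ => (h1 φ).trans hXY, fun φ => (h2 φ).trans hXY, fun φ => (h3 φ).trans hXY,
    fun φ => (h4 φ).trans hXY, fun φ => (h5 φ).trans hXY, fun φ => (h6 φ).trans hXY⟩

private theorem rep_mono_m {β : Blk (𝓞 K)} {u v : 𝓞 K} {X Y : ℝ} (hXY : X ≤ Y) (h : Rep X β u v) :
    Rep Y β u v := by
  obtain ⟨π, r, r', ⟨h1, h2, h3, h4⟩, h5⟩ := h
  exact ⟨π, r, r', ⟨fun φ => (h1 φ).trans hXY, fun φ => (h2 φ).trans hXY,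
    fun φ => (h3 φ).trans hXY, fun φ => (h4 φ).trans hXY⟩, h5⟩

theorem main_of (h : CompletionsStmt K) : MainStmt K := by
  classical
  intro M hM C hC A ε hε
  set ε1 : ℝ := ε / (2 * ((A : ℝ) + 1)) with hε1
  have hA1 : (0 : ℝ) < (A : ℝ) + 1 := by positivity
  have hε1p : 0 < ε1 := by positivity
  obtain ⟨C', hC', h'⟩ := h M hM C hC ε1 hε1p
  obtain ⟨C2, hC2, h7⟩ := s7 K hε1p hC
  have hC0 : (0 : ℝ) < C := lt_of_lt_of_le one_pos hC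
  refine ⟨C' * C2 * (C ^ 2 * (1 + C)) ^ ε, by positivity, ?_⟩
  intro s t ρ1 ρ2 hRg hRho S hS
  obtain ⟨hCt, hts⟩ := hRg
  have ht : 0 < t := by
    by_contra hcon
    push Not at hcon
    have : C * t ≤ 0 := mul_nonpos_of_nonneg_of_nonpos hC0.le hcon
    linarith
  have hs : 0 < s := lt_of_lt_of_le ht hts
  have hst : 0 < s * t := mul_pos hs ht
  set B : ℝ := C * (1 + s) with hB
  have hB1 : 1 ≤ B := by
    rw [hB]
    nlinarith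
  have hB0 : 0 < B := lt_of_lt_of_le one_pos hB1
  set H : ℝ := Hp C (A + 1) s with hH
  have hHB : H = B ^ (A + 1) := rfl
  have hH1 : 1 ≤ H := by
    rw [hHB]
    exact one_le_pow₀ hB1
  have hBH : B ≤ H := by
    rw [hHB]
    exact le_self_pow₀ hB1 (Nat.succ_ne_zero A)
  have hsB : s ≤ B := by
    rw [hB]
    nlinarith
  have hsH : s ≤ H := hsB.trans hBH
  have htH : t ≤ H := hts.trans hsH
  have hAH : Hp C A s ≤ H := by
    rw [hHB]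
    exact pow_le_pow_right₀ hB1 (Nat.le_succ A)
  have h'' : ∀ β : Blk (𝓞 K), (β.E ≠ 0 ∧ β.D1 ≠ 0 ∧ β.All (Bd H)) →
      ∃ gb gc : Ideal (𝓞 K), Squarefree gb ∧ Squarefree gc ∧ IsCoprime gb gc ∧
        (β.b1 ∈ gb ∧ β.b2 ∈ gb ∧ β.b3 ∈ gb) ∧
        (β.c1 ∈ gc ∧ β.c2 ∈ gc ∧ β.c3 ∈ gc ∧ β.D1 ∈ gc) ∧
        ∀ S : Finset (𝓞 K × 𝓞 K), (∀ x ∈ S, Adm M C s t x.1 x.2 ∧ Rep H β x.1 x.2) →
          (S.card : ℝ) ≤ C' * H ^ ε1 *
            (1 + Ideal.absNorm gb * Ideal.absNorm gc *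
              ∏ φ : K →+* ℂ, Dt s t β φ ^ (-(3 / 2) : ℝ)) :=
    fun β hβ => h' s t H hs ht hsH htH hH1 β hβ.1 hβ.2.1 hβ.2.2
  choose! gb gc hg using h''
  set T : Finset (Blk (𝓞 K)) := S.image fun x => x.2.2 with hT
  have hTP : ∀ β ∈ T, Sz C s t ρ1 ρ2 β ∧ β.All (Bd H) ∧ β.D1 ≠ 0 ∧ β.D3 ≠ 0 ∧
      ¬ (β.b1 = 0 ∧ β.c1 = 0) ∧ β.E ≠ 0 := by
    intro β hβ
    rw [hT, Finset.mem_image] at hβ
    obtain ⟨x, hx, rfl⟩ := hβ
    obtain ⟨-, ⟨h1, h2, h3, h4, h5⟩, h6, -⟩ := hS x hx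
    exact ⟨h1, all_mono_m K hAH h6, h3, h4, h2, h5⟩
  set Ng : Blk (𝓞 K) → ℝ := fun β => (Ideal.absNorm (gb β) : ℝ) * (Ideal.absNorm (gc β) : ℝ)
    with hNg
  have hsum := h7 H s t ρ1 ρ2 hH1 hsH ⟨hCt, hts⟩ hRho T Ng (by
    intro β hβ
    obtain ⟨h1, h2, h3, h4, h5, h6⟩ := hTP β hβ
    obtain ⟨-, -, -, ⟨hb1, hb2, hb3⟩, ⟨hc1, hc2, hc3, -⟩, -⟩ := hg β ⟨h6, h3, h2⟩
    refine ⟨h1, h2, h3, h4, h5, by positivity, ?_⟩
    have hbn : ni (gb β) ≤ ni (cn (tb β)) :=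
      ni_le_of_le (cn_le hb1 hb2 hb3) (cn_ne (by rw [dt_tb]; exact h3))
    have hcn : ni (gc β) ≤ ni (cn (tc β)) :=
      ni_le_of_le (cn_le hc1 hc2 hc3) (cn_ne (by rw [dt_tc]; exact h4))
    exact mul_le_mul hbn hcn (ni_nonneg _) (ni_nonneg _))
  have hfib : ∀ β ∈ T, ((S.filter fun x => x.2.2 = β).card : ℝ) ≤
      C' * H ^ ε1 * (1 + Ng β * (Real.sqrt (vol (Dt s t β)))⁻¹ ^ 3) := by
    intro β hβ
    obtain ⟨h1, h2, h3, h4, h5, h6⟩ := hTP β hβ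
    obtain ⟨-, -, -, -, -, hcount⟩ := hg β ⟨h6, h3, h2⟩
    have hc := hcount ((S.filter fun x => x.2.2 = β).image fun x => (x.1, x.2.1)) (by
      intro y hy
      rw [Finset.mem_image] at hy
      obtain ⟨x, hx, rfl⟩ := hy
      rw [Finset.mem_filter] at hx
      obtain ⟨hx1, hx2⟩ := hx
      obtain ⟨h7', -, -, h8⟩ := hS x hx1
      rw [← hx2]
      exact ⟨h7', rep_mono_m K hAH h8⟩)
    rw [Finset.card_image_of_injOn, prod_dt_m K hs h3] at hc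
    · exact hc
    · intro x hx y hy hxy
      simp only [Finset.coe_filter, Set.mem_ofPred_eq] at hx hy
      simp only [Prod.mk.injEq] at hxy
      exact Prod.ext hxy.1 (Prod.ext hxy.2 (hx.2.trans hy.2.symm))
  have hcard : (S.card : ℝ) = ∑ β ∈ T, ((S.filter fun x => x.2.2 = β).card : ℝ) := by
    rw [Finset.card_eq_sum_card_image (fun x => x.2.2) S, Nat.cast_sum]
  have hHe : (H ^ ε1) * (H ^ ε1) ≤ (C ^ 2 * (1 + C)) ^ ε * (s * t) ^ ε := by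
    have hH0 : 0 < H := lt_of_lt_of_le one_pos hH1
    rw [← Real.rpow_add hH0, hHB, ← Real.rpow_natCast, ← Real.rpow_mul hB0.le,
      ← Real.mul_rpow (by positivity) hst.le]
    have he : ((A + 1 : ℕ) : ℝ) * (ε1 + ε1) = ε := by
      rw [hε1]
      push_cast
      field_simp
      ring
    rw [he]
    refine Real.rpow_le_rpow hB0.le ?_ hε.le
    have hCs : 1 ≤ C * s := hCt.trans (mul_le_mul_of_nonneg_left hts hC0.le)
    have h1 : 1 + s ≤ (1 + C) * s := by nlinarith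
    have h2 : (1 + C) * s ≤ (1 + C) * s * (C * t) :=
      le_mul_of_one_le_right (by positivity) hCt
    calc B = C * (1 + s) := hB
      _ ≤ C * ((1 + C) * s * (C * t)) := mul_le_mul_of_nonneg_left (h1.trans h2) hC0.le
      _ = C ^ 2 * (1 + C) * (s * t) := by ring
  have hrp : (s * t) ^ (3 * (Module.finrank ℚ K : ℝ) + ε) =
      (s * t) ^ (3 * Module.finrank ℚ K) * (s * t) ^ ε := by
    rw [Real.rpow_add hst, ← Real.rpow_natCast]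
    push_cast
    rfl
  have hH0 : 0 < H := lt_of_lt_of_le one_pos hH1
  have hHp : 0 < H ^ ε1 := Real.rpow_pos_of_pos hH0 _
  calc (S.card : ℝ) = ∑ β ∈ T, ((S.filter fun x => x.2.2 = β).card : ℝ) := hcard
    _ ≤ ∑ β ∈ T, C' * H ^ ε1 * (1 + Ng β * (Real.sqrt (vol (Dt s t β)))⁻¹ ^ 3) :=
        Finset.sum_le_sum hfib
    _ = C' * H ^ ε1 * ∑ β ∈ T, (1 + Ng β * (Real.sqrt (vol (Dt s t β)))⁻¹ ^ 3) := by
        rw [Finset.mul_sum]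
    _ ≤ C' * H ^ ε1 * (C2 * H ^ ε1 * (s * t) ^ (3 * Module.finrank ℚ K)) :=
        mul_le_mul_of_nonneg_left hsum (by positivity)
    _ = C' * C2 * (H ^ ε1 * H ^ ε1) * (s * t) ^ (3 * Module.finrank ℚ K) := by ring
    _ ≤ C' * C2 * ((C ^ 2 * (1 + C)) ^ ε * (s * t) ^ ε) *
          (s * t) ^ (3 * Module.finrank ℚ K) := by
        refine mul_le_mul_of_nonneg_right ?_ (by positivity)
        exact mul_le_mul_of_nonneg_left hHe (by positivity)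
    _ = C' * C2 * (C ^ 2 * (1 + C)) ^ ε * (s * t) ^ (3 * (Module.finrank ℚ K : ℝ) + ε) := by
        rw [hrp]
        ring

end Pool.Agent.H67.WA
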