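import Pool.Agent.H63.W1.GeoA

/-!
# W1 step 2: Minkowski's first theorem for subgroups of finite index of a fractional ideal

PROOF. Box `convexBodyLT F f`, `f v = R / w φ_v` at the infinite place `v`, volume
`2^{r1} π^{r2} ∏ f_v ^ mult v ≥ R ^ n / ∏ w`. The lattice `Λ = mixedEmbedding F (L)` has covolume
`absNorm L * 2^{-r2} √|disc F|`. `Λ' = mixedEmbedding F (L')` is a sublattice of index `relIndex` (`m Λ ≤ Λ'` with
`m` = the index, so it spans), a fundamental domain of `Λ'` has volume `relIndex * covol Λ`.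
`MeasureTheory.exists_ne_zero_mem_lattice_of_measure_mul_two_pow_lt_measure`.
-/

open scoped NumberField nonZeroDivisors

set_option autoImplicit false

namespace Pool.Agent.H67.WA

open NumberField

open MeasureTheory Module Submodule ZSpan in
private theorem cov_idx {E : Type} [NormedAddCommGroup E] [NormedSpace ℝ E] [FiniteDimensional ℝ E]
    [MeasurableSpace E] [BorelSpace E] (μ : Measure E) [Measure.IsAddHaarMeasure μ]
    (L₁ L₂ : Submodule ℤ E) [DiscreteTopology L₁] [IsZLattice ℝ L₁] [DiscreteTopology L₂]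
    [IsZLattice ℝ L₂] (h : L₁ ≤ L₂) :
    ZLattice.covolume L₁ μ =
      (L₁.toAddSubgroup.relIndex L₂.toAddSubgroup : ℕ) * ZLattice.covolume L₂ μ := by
  classical
  haveI : Module.Free ℤ L₁ := ZLattice.module_free ℝ L₁
  haveI : Module.Free ℤ L₂ := ZLattice.module_free ℝ L₂
  haveI : Module.Finite ℤ L₁ := ZLattice.module_finite ℝ L₁
  haveI : Module.Finite ℤ L₂ := ZLattice.module_finite ℝ L₂
  let b₁ : Basis (Fin (finrank ℝ E)) ℤ L₁ := finBasisOfFinrankEq ℤ L₁ (ZLattice.rank ℝ L₁)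
  let b₂ : Basis (Fin (finrank ℝ E)) ℤ L₂ := finBasisOfFinrankEq ℤ L₂ (ZLattice.rank ℝ L₂)
  rw [ZLattice.covolume_eq_det_mul_measureReal L₁ μ b₁ (b₂.ofZLatticeBasis ℝ),
    ← ZLattice.covolume_eq_measure_fundamentalDomain L₂ μ (ZLattice.isAddFundamentalDomain b₂ μ),
    AddSubgroup.relIndex_eq_natAbs_det L₁.toAddSubgroup L₂.toAddSubgroup h b₁ b₂,
    Nat.cast_natAbs, Int.cast_abs]
  congr 2
  rw [Basis.det_apply, Basis.det_apply, Int.cast_det]
  congr 1
  ext i j
  rw [Matrix.map_apply, Basis.toMatrix_apply, Basis.toMatrix_apply]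
  exact (b₂.ofZLatticeBasis_repr_apply ℝ L₂ ⟨b₁ j, h (coe_mem _)⟩ i)

open scoped Classical in
open MeasureTheory Module Submodule ZSpan mixedEmbedding in
private theorem mk_lat (F : Type) [Field F] [NumberField F] (I : (FractionalIdeal (𝓞 F)⁰ F)ˣ)
    (L' : AddSubgroup F) (hL' : ∀ x ∈ L', x ∈ (I : FractionalIdeal (𝓞 F)⁰ F))
    (hi : L'.relIndex ((I : FractionalIdeal (𝓞 F)⁰ F) : Submodule (𝓞 F) F).toAddSubgroup ≠ 0)
    (f : InfinitePlace F → NNReal)
    (h : (2 : ℝ) ^ finrank ℚ F *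
      ((L'.relIndex ((I : FractionalIdeal (𝓞 F)⁰ F) : Submodule (𝓞 F) F).toAddSubgroup : ℕ) : ℝ) *
      (Real.sqrt |(discr F : ℝ)| * (FractionalIdeal.absNorm (I : FractionalIdeal (𝓞 F)⁰ F) : ℝ)) <
      ∏ w, (f w : ℝ) ^ w.mult) :
    ∃ z ∈ L', z ≠ 0 ∧ ∀ w : InfinitePlace F, w z < f w := by
  set L₂ : Submodule ℤ (mixedSpace F) := idealLattice F I with hL₂
  set A : AddSubgroup (mixedSpace F) := L'.map (mixedEmbedding F).toAddMonoidHom with hA
  set L₁ : Submodule ℤ (mixedSpace F) := AddSubgroup.toIntSubmodule A with hL₁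
  have hinj : Function.Injective (mixedEmbedding F) := (mixedEmbedding F).injective
  have hmem1 : ∀ x, x ∈ L₁ ↔ ∃ y ∈ L', mixedEmbedding F y = x := fun x => Iff.rfl
  have hmem2 : ∀ x, x ∈ L₂ ↔ ∃ y, y ∈ ((I : FractionalIdeal (𝓞 F)⁰ F) : Set F) ∧
      mixedEmbedding F y = x := fun x => mem_idealLattice F I
  have hle : L₁ ≤ L₂ := by
    intro x hx
    obtain ⟨y, hy, rfl⟩ := (hmem1 x).1 hx
    exact (hmem2 _).2 ⟨y, hL' y hy, rfl⟩
  have hB : L₂.toAddSubgroup = (((I : FractionalIdeal (𝓞 F)⁰ F) : Submodule (𝓞 F) F).toAddSubgroup).map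
      (mixedEmbedding F).toAddMonoidHom := by
    ext x
    exact (hmem2 x).trans Iff.rfl
  have hidx : L₁.toAddSubgroup.relIndex L₂.toAddSubgroup =
      L'.relIndex ((I : FractionalIdeal (𝓞 F)⁰ F) : Submodule (𝓞 F) F).toAddSubgroup := by
    rw [hB]
    exact AddSubgroup.relIndex_map_map_of_injective L' _ hinj
  haveI d1 : DiscreteTopology L₁ :=
    DiscreteTopology.of_subset (inferInstance : DiscreteTopology L₂) hle
  haveI z1 : IsZLattice ℝ L₁ := by
    refine ⟨?_⟩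
    rw [eq_top_iff, ← IsZLattice.span_top (K := ℝ) (L := L₂), span_le]
    intro x hx
    have hn := AddSubgroup.exists_nsmul_mem_of_relIndex_ne_zero (H := L₁.toAddSubgroup)
      (K := L₂.toAddSubgroup) (by rw [hidx]; exact hi) (a := x) hx
    obtain ⟨n, hn0, -, hnx⟩ := hn
    have h1 : (n : ℝ) • x ∈ span ℝ (L₁ : Set (mixedSpace F)) := by
      apply subset_span
      rw [Nat.cast_smul_eq_nsmul]
      exact (AddSubgroup.mem_inf.1 hnx).1
    have h2 := (span ℝ (L₁ : Set (mixedSpace F))).smul_mem ((n : ℝ)⁻¹) h1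
    rwa [smul_smul, inv_mul_cancel₀ (by exact_mod_cast hn0.ne'), one_smul] at h2
  haveI : Module.Free ℤ L₁ := ZLattice.module_free ℝ L₁
  haveI : Module.Finite ℤ L₁ := ZLattice.module_finite ℝ L₁
  have hcov := cov_idx (volume : Measure (mixedSpace F)) L₁ L₂ hle
  let b := Module.Free.chooseBasis ℤ L₁
  have hfund := ZLattice.isAddFundamentalDomain b (volume : Measure (mixedSpace F))
  have hreal := ZLattice.covolume_eq_measure_fundamentalDomain L₁ volume hfund
  have hfin : volume (fundamentalDomain (b.ofZLatticeBasis ℝ)) ≠ ⊤ :=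
    (fundamentalDomain_isBounded _).measure_lt_top.ne
  have hlt : volume (fundamentalDomain (b.ofZLatticeBasis ℝ)) * 2 ^ finrank ℝ (mixedSpace F) <
      volume (convexBodyLT F f) := by
    rw [convexBodyLT_volume]
    have e1 : volume (fundamentalDomain (b.ofZLatticeBasis ℝ)) =
        ENNReal.ofReal (ZLattice.covolume L₁ volume) := by
      rw [hreal, Measure.real, ENNReal.ofReal_toReal hfin]
    have e2 : (convexBodyLTFactor F : ENNReal) * ((∏ w, (f w) ^ (w.mult) : NNReal) : ENNReal) =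
        ENNReal.ofReal ((convexBodyLTFactor F : ℝ) * ∏ w, (f w : ℝ) ^ w.mult) := by
      rw [ENNReal.ofReal_mul NNReal.zero_le_coe, ENNReal.ofReal_coe_nnreal]
      congr 1
      rw [← ENNReal.ofReal_coe_nnreal]
      congr 1
      push_cast
      rfl
    have e3 : (2 : ENNReal) ^ finrank ℝ (mixedSpace F) = ENNReal.ofReal (2 ^ finrank ℚ F) := by
      rw [mixedEmbedding.finrank, ENNReal.ofReal_pow zero_le_two]
      simp
    have hcp : 0 ≤ ZLattice.covolume L₁ (volume : Measure (mixedSpace F)) := by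
      rw [hreal]
      exact measureReal_nonneg
    rw [e1, e2, e3, ← ENNReal.ofReal_mul hcp]
    apply (ENNReal.ofReal_lt_ofReal_iff_of_nonneg (mul_nonneg hcp (by positivity))).2
    rw [hcov, hidx, hL₂, covolume_idealLattice]
    have hn0 : (0 : ℝ) ≤ FractionalIdeal.absNorm (I : FractionalIdeal (𝓞 F)⁰ F) := by
      exact_mod_cast FractionalIdeal.absNorm_nonneg _
    have hc2 : ((2 : ℝ)⁻¹) ^ InfinitePlace.nrComplexPlaces F ≤ 1 :=
      pow_le_one₀ (by norm_num) (by norm_num)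
    have hc3 : (1 : ℝ) ≤ (convexBodyLTFactor F : ℝ) := by
      exact_mod_cast one_le_convexBodyLTFactor F
    set n : ℝ := ((L'.relIndex ((I : FractionalIdeal (𝓞 F)⁰ F) : Submodule (𝓞 F) F).toAddSubgroup :
      ℕ) : ℝ) with hn
    have hnn : 0 ≤ n := Nat.cast_nonneg _
    set N : ℝ := (FractionalIdeal.absNorm (I : FractionalIdeal (𝓞 F)⁰ F) : ℝ) with hN
    calc n * (N * 2⁻¹ ^ InfinitePlace.nrComplexPlaces F * √|(discr F : ℝ)|) * 2 ^ finrank ℚ F
        ≤ n * (N * 1 * √|(discr F : ℝ)|) * 2 ^ finrank ℚ F := by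
          gcongr
      _ = 2 ^ finrank ℚ F * n * (√|(discr F : ℝ)| * N) := by ring
      _ < ∏ w, (f w : ℝ) ^ w.mult := h
      _ ≤ (convexBodyLTFactor F : ℝ) * ∏ w, (f w : ℝ) ^ w.mult :=
          le_mul_of_one_le_left (Finset.prod_nonneg fun w _ => by positivity) hc3
  haveI : Countable L₁.toAddSubgroup := by
    change Countable L₁
    infer_instance
  have hfund' : IsAddFundamentalDomain L₁.toAddSubgroup (fundamentalDomain (b.ofZLatticeBasis ℝ))
      (volume : Measure (mixedSpace F)) := hfund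
  obtain ⟨⟨x, hx⟩, hnz, hmem⟩ := exists_ne_zero_mem_lattice_of_measure_mul_two_pow_lt_measure
    hfund' (convexBodyLT_neg_mem F f) (convexBodyLT_convex F f) hlt
  obtain ⟨a, ha, rfl⟩ := (hmem1 x).1 hx
  exact ⟨a, ha, by simpa using hnz, (convexBodyLT_mem F f).mp hmem⟩

theorem mk_box (F : Type) [Field F] [NumberField F] (w : (F →+* ℂ) → ℝ) (hw : ∀ φ, 0 < w φ)
    (hc : ∀ φ, w (ComplexEmbedding.conjugate φ) = w φ) (L : FractionalIdeal (𝓞 F)⁰ F)
    (hL : L ≠ 0) (L' : AddSubgroup F) (hL' : ∀ x ∈ L', x ∈ L)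
    (hi : L'.relIndex (L : Submodule (𝓞 F) F).toAddSubgroup ≠ 0) (R : ℝ) (hR : 0 < R)
    (h : (2 : ℝ) ^ Module.finrank ℚ F *
      ((L'.relIndex (L : Submodule (𝓞 F) F).toAddSubgroup : ℕ) : ℝ) *
      (Real.sqrt |(discr F : ℝ)| * (FractionalIdeal.absNorm L : ℝ) * ∏ φ, w φ) <
      R ^ Module.finrank ℚ F) :
    ∃ z ∈ L', z ≠ 0 ∧ ∀ φ, w φ * ‖φ z‖ ≤ R := by
  have hww : ∀ φ : F →+* ℂ, w (InfinitePlace.mk φ).embedding = w φ := by
    intro φ
    rcases InfinitePlace.embedding_mk_eq φ with h1 | h1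
    · rw [h1]
    · rw [h1, hc]
  have hP : 0 < ∏ φ, w φ := Finset.prod_pos fun φ _ => hw φ
  let f : InfinitePlace F → NNReal := fun v => ⟨R / w v.embedding, (div_pos hR (hw _)).le⟩
  have hf : ∏ v : InfinitePlace F, (f v : ℝ) ^ v.mult = R ^ Module.finrank ℚ F / ∏ φ, w φ := by
    rw [← Pool.H63.W1.prod_emb (fun v => (f v : ℝ))]
    have : ∀ φ : F →+* ℂ, ((f (InfinitePlace.mk φ)) : ℝ) = R / w φ := by
      intro φ
      change R / w (InfinitePlace.mk φ).embedding = R / w φ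
      rw [hww]
    rw [Finset.prod_congr rfl fun φ _ => this φ, Finset.prod_div_distrib, Finset.prod_const,
      Finset.card_univ, Embeddings.card]
  obtain ⟨z, hz, hz0, hlt⟩ := mk_lat F (Units.mk0 L hL) L' hL' hi f (by
    rw [hf, lt_div_iff₀ hP]
    calc _ = (2 : ℝ) ^ Module.finrank ℚ F *
          ((L'.relIndex (L : Submodule (𝓞 F) F).toAddSubgroup : ℕ) : ℝ) *
          (Real.sqrt |(discr F : ℝ)| * (FractionalIdeal.absNorm L : ℝ) * ∏ φ, w φ) := by
            rw [Units.val_mk0]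
            ring
      _ < _ := h)
  refine ⟨z, hz, hz0, fun φ => ?_⟩
  have h1 := hlt (InfinitePlace.mk φ)
  rw [InfinitePlace.apply] at h1
  have h2 : ‖φ z‖ < R / w φ := by
    rw [← hww φ]
    exact h1
  rw [lt_div_iff₀ (hw φ)] at h2
  linarith

end Pool.Agent.H67.WA
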