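import Mathlib

/-!
# W1 step 2: successive minima over `K` (Mathlib only)

PROOF. Gauge `G z = sup_φ w φ ‖φ z‖` (`Finset.univ.sup'`, or work with bounds). (1) `{z ∈ L | G z ≤ B}` is finite: `w φ ≥ w0 > 0`, a nonzero
integer `m` with `m L ⊆ 𝓞 F` (`FractionalIdeal` denominators), `NumberField.Embeddings.finite_of_norm_le`. (2) for a proper
`K`-subspace `W` of `F` there is `z ∈ L`, `z ∉ W`: `L ≠ 0` contains `c 𝓞 F`, `c ≠ 0`; if `c 𝓞 F ⊆ W` then `F = c · K-span (𝓞 F) ⊆ W`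
(every element of `F` is `a / n` with `a ∈ 𝓞 F`, `n ∈ ℕ` nonzero). (3) so `G` has a minimum on `L \ W` for every proper subspace `W`:
`x 0` for `W = ⊥`, `x 1` for `W = span {x 0}`, `x 2` for `W = span {x 0, x 1}` (proper because `finrank K F = 3`), `l i = G (x i)`.
`l 0 ≤ l 1 ≤ l 2` by minimality; linear independence: `linearIndependent_fin_succ` or `linearIndependent_fin3`-like statements
(`x 0 ≠ 0`, `x 1 ∉ span {x 0}`, `x 2 ∉ span {x 0, x 1}`); `0 < l 0` because `x 0 ≠ 0`.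
-/

open scoped NumberField nonZeroDivisors

set_option autoImplicit false

namespace Pool.Agent.H67.WA

open NumberField

private noncomputable def gau {F : Type} [Field F] [NumberField F] (w : (F →+* ℂ) → ℝ) (z : F) : ℝ :=
  Finset.univ.sup' Finset.univ_nonempty fun φ : F →+* ℂ => w φ * ‖φ z‖

private theorem gau_le {F : Type} [Field F] [NumberField F] (w : (F →+* ℂ) → ℝ) (z : F) (B : ℝ) :
    gau w z ≤ B ↔ ∀ φ, w φ * ‖φ z‖ ≤ B := by
  unfold gau
  rw [Finset.sup'_le_iff]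
  exact ⟨fun h φ => h φ (Finset.mem_univ φ), fun h φ _ => h φ⟩

private theorem gau_fin {F : Type} [Field F] [NumberField F] (w : (F →+* ℂ) → ℝ)
    (hw : ∀ φ, 0 < w φ) (L : FractionalIdeal (𝓞 F)⁰ F) (B : ℝ) :
    {z : F | z ∈ L ∧ gau w z ≤ B}.Finite := by
  obtain ⟨a, ha, hL⟩ := L.isFractional
  have ha0 : (a : F) ≠ 0 := by
    intro h
    exact nonZeroDivisors.ne_zero ha (by exact_mod_cast h)
  have hfin := Embeddings.finite_of_norm_le F ℂ (∑ φ : F →+* ℂ, ‖φ (a : F)‖ * (|B| / w φ))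
  have hpre : ((fun z : F => (a : F) * z) ⁻¹' {x : F | IsIntegral ℤ x ∧
      ∀ φ : F →+* ℂ, ‖φ x‖ ≤ ∑ φ : F →+* ℂ, ‖φ (a : F)‖ * (|B| / w φ)}).Finite :=
    hfin.preimage ((mul_right_injective₀ ha0).injOn)
  refine hpre.subset ?_
  rintro z ⟨hz, hG⟩
  rw [gau_le] at hG
  rw [Set.mem_preimage, Set.mem_setOf_eq]
  constructor
  · obtain ⟨u, hu⟩ := hL z hz
    have h1 : (a : F) * z = (u : F) := by
      rw [Algebra.smul_def] at hu
      exact hu.symm
    rw [h1]
    exact u.isIntegral_coe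
  · intro φ
    have h1 : ‖φ z‖ ≤ |B| / w φ := by
      rw [le_div_iff₀ (hw φ), mul_comm]
      exact (hG φ).trans (le_abs_self B)
    rw [map_mul, norm_mul]
    refine (mul_le_mul_of_nonneg_left h1 (norm_nonneg _)).trans ?_
    exact Finset.single_le_sum (f := fun φ : F →+* ℂ => ‖φ (a : F)‖ * (|B| / w φ))
      (fun ψ _ => mul_nonneg (norm_nonneg _) (div_nonneg (abs_nonneg _) (hw ψ).le))
      (Finset.mem_univ φ)

private theorem exists_out (K F : Type) [Field K] [NumberField K] [Field F] [NumberField F]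
    [Algebra K F] (L : FractionalIdeal (𝓞 F)⁰ F) (hL : L ≠ 0) (W : Submodule K F) (hW : W ≠ ⊤) :
    ∃ z ∈ L, z ∉ W := by
  by_contra hcon
  push Not at hcon
  apply hW
  rw [eq_top_iff]
  rintro y -
  obtain ⟨c, hc, hc0⟩ : ∃ c ∈ L, c ≠ 0 := by
    by_contra h
    push Not at h
    exact hL (FractionalIdeal.eq_zero_iff.mpr h)
  have halg : IsAlgebraic ℤ (y / c) :=
    (IsFractionRing.isAlgebraic_iff ℤ ℚ F).mpr (Algebra.IsAlgebraic.isAlgebraic _)
  obtain ⟨n, hn, hint⟩ := halg.exists_integral_multiple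
  have hu : ∃ u : 𝓞 F, (u : F) = n • (y / c) := ⟨⟨_, hint⟩, rfl⟩
  obtain ⟨u, hu⟩ := hu
  have h1 : u • c ∈ L := Submodule.smul_mem (L : Submodule (𝓞 F) F) u hc
  have h2 := hcon _ h1
  have h3 : u • c = (n : K) • y := by
    rw [Algebra.smul_def]
    change (u : F) * c = _
    rw [hu, Algebra.smul_def, Algebra.smul_def, map_intCast, eq_intCast]
    field_simp
  rw [h3] at h2
  have hn' : (n : K) ≠ 0 := by exact_mod_cast hn
  have h4 := W.smul_mem (n : K)⁻¹ h2
  rwa [smul_smul, inv_mul_cancel₀ hn', one_smul] at h4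

private theorem min_out (K F : Type) [Field K] [NumberField K] [Field F] [NumberField F]
    [Algebra K F] (w : (F →+* ℂ) → ℝ) (hw : ∀ φ, 0 < w φ)
    (L : FractionalIdeal (𝓞 F)⁰ F) (hL : L ≠ 0) (W : Submodule K F) (hW : W ≠ ⊤) :
    ∃ x ∈ L, x ∉ W ∧ ∀ z ∈ L, z ∉ W → gau w x ≤ gau w z := by
  obtain ⟨z0, hz0, hz0W⟩ := exists_out K F L hL W hW
  have hfin : {z : F | (z ∈ L ∧ gau w z ≤ gau w z0) ∧ z ∉ W}.Finite :=
    (gau_fin w hw L (gau w z0)).subset fun z hz => hz.1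
  obtain ⟨x, hx, hmin⟩ := Set.exists_min_image _ (gau w) hfin ⟨z0, ⟨hz0, le_rfl⟩, hz0W⟩
  refine ⟨x, hx.1.1, hx.2, fun z hz hzW => ?_⟩
  rcases le_total (gau w z) (gau w z0) with h | h
  · exact hmin z ⟨⟨hz, h⟩, hzW⟩
  · exact hx.1.2.trans h

private theorem ne_top_of_card (K F : Type) [Field K] [Field F] [Algebra K F]
    (hF : Module.finrank K F = 3) (s : Finset F) (hs : s.card < 3) :
    Submodule.span K (s : Set F) ≠ ⊤ := by
  intro h
  have h1 := finrank_span_finset_le_card (R := K) s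
  rw [Set.finrank, h, finrank_top, hF] at h1
  omega

theorem mk_min (K F : Type) [Field K] [NumberField K] [Field F] [NumberField F] [Algebra K F]
    (hF : Module.finrank K F = 3) (w : (F →+* ℂ) → ℝ) (hw : ∀ φ, 0 < w φ)
    (L : FractionalIdeal (𝓞 F)⁰ F) (hL : L ≠ 0) :
    ∃ (x : Fin 3 → F) (l : Fin 3 → ℝ), LinearIndependent K x ∧ (∀ i, x i ∈ L) ∧ 0 < l 0 ∧
      l 0 ≤ l 1 ∧ l 1 ≤ l 2 ∧ (∀ i φ, w φ * ‖φ (x i)‖ ≤ l i) ∧
      ∀ z ∈ L, ∀ B : ℝ, (∀ φ, w φ * ‖φ z‖ ≤ B) → (z ≠ 0 → l 0 ≤ B) ∧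
        (z ∉ Submodule.span K {x 0} → l 1 ≤ B) ∧ (z ∉ Submodule.span K {x 0, x 1} → l 2 ≤ B) := by
  classical
  have t0 : (⊥ : Submodule K F) ≠ ⊤ := by
    have := ne_top_of_card K F hF ∅ (by simp)
    rwa [Finset.coe_empty, Submodule.span_empty] at this
  obtain ⟨x0, hx0, hx0W, hm0⟩ := min_out K F w hw L hL ⊥ t0
  have t1 : Submodule.span K {x0} ≠ ⊤ := by
    have := ne_top_of_card K F hF {x0} (by simp)
    rwa [Finset.coe_singleton] at this
  obtain ⟨x1, hx1, hx1W, hm1⟩ := min_out K F w hw L hL _ t1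
  have t2 : Submodule.span K {x0, x1} ≠ ⊤ := by
    have := ne_top_of_card K F hF {x0, x1} (Finset.card_le_two.trans_lt (by norm_num))
    rwa [Finset.coe_insert, Finset.coe_singleton] at this
  obtain ⟨x2, hx2, hx2W, hm2⟩ := min_out K F w hw L hL _ t2
  have e0 : x0 ≠ 0 := fun h => hx0W (by rw [h]; exact Submodule.zero_mem _)
  have e1 : x1 ≠ 0 := fun h => hx1W (by rw [h]; exact Submodule.zero_mem _)
  have hsub : Submodule.span K {x0} ≤ Submodule.span K {x0, x1} :=
    Submodule.span_mono (by intro y hy; left; exact hy)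
  refine ⟨![x0, x1, x2], ![gau w x0, gau w x1, gau w x2], ?_, ?_, ?_, ?_, ?_, ?_, ?_⟩
  · rw [Fintype.linearIndependent_iff]
    intro g hg
    rw [Fin.sum_univ_three] at hg
    have hg' : g 0 • x0 + g 1 • x1 + g 2 • x2 = 0 := hg
    have g2 : g 2 = 0 := by
      by_contra h
      apply hx2W
      have h1 : x2 = (-(g 2)⁻¹ * g 0) • x0 + (-(g 2)⁻¹ * g 1) • x1 := by
        have h2 : g 2 • x2 = -(g 0 • x0 + g 1 • x1) := by
          rw [eq_neg_iff_add_eq_zero, ← hg']
          abel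
        calc x2 = (g 2)⁻¹ • (g 2 • x2) := by rw [smul_smul, inv_mul_cancel₀ h, one_smul]
          _ = _ := by
            rw [h2, smul_neg, smul_add, smul_smul, smul_smul, neg_add, neg_mul, neg_mul, neg_smul,
              neg_smul]
      rw [h1]
      exact Submodule.add_mem _
        (Submodule.smul_mem _ _ (Submodule.subset_span (Set.mem_insert _ _)))
        (Submodule.smul_mem _ _ (Submodule.subset_span (Set.mem_insert_of_mem _ rfl)))
    rw [g2, zero_smul, add_zero] at hg'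
    have g1 : g 1 = 0 := by
      by_contra h
      apply hx1W
      have h1 : x1 = (-(g 1)⁻¹ * g 0) • x0 := by
        have h2 : g 1 • x1 = -(g 0 • x0) := by
          rw [eq_neg_iff_add_eq_zero, ← hg']
          abel
        calc x1 = (g 1)⁻¹ • (g 1 • x1) := by rw [smul_smul, inv_mul_cancel₀ h, one_smul]
          _ = _ := by rw [h2, smul_neg, smul_smul, neg_mul, neg_smul]
      rw [h1]
      exact Submodule.smul_mem _ _ (Submodule.mem_span_singleton_self x0)
    rw [g1, zero_smul, add_zero] at hg'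
    have g0 : g 0 = 0 := (smul_eq_zero.mp hg').resolve_right e0
    intro i
    fin_cases i
    · exact g0
    · exact g1
    · exact g2
  · intro i
    fin_cases i
    · exact hx0
    · exact hx1
    · exact hx2
  · change 0 < gau w x0
    obtain ⟨φ⟩ : Nonempty (F →+* ℂ) := inferInstance
    have h1 : w φ * ‖φ x0‖ ≤ gau w x0 := (gau_le w x0 _).mp le_rfl φ
    refine lt_of_lt_of_le ?_ h1
    exact mul_pos (hw φ) (norm_pos_iff.mpr ((map_ne_zero φ).mpr e0))
  · exact hm0 x1 hx1 (fun h => e1 ((Submodule.mem_bot K).mp h))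
  · exact hm1 x2 hx2 (fun h => hx2W (hsub h))
  · intro i φ
    fin_cases i
    · exact (gau_le w x0 _).mp le_rfl φ
    · exact (gau_le w x1 _).mp le_rfl φ
    · exact (gau_le w x2 _).mp le_rfl φ
  · intro z hz B hB
    have hG : gau w z ≤ B := (gau_le w z B).mpr hB
    refine ⟨fun h => ?_, fun h => ?_, fun h => ?_⟩
    · exact (hm0 z hz (fun h' => h ((Submodule.mem_bot K).mp h'))).trans hG
    · exact (hm1 z hz h).trans hG
    · exact (hm2 z hz h).trans hG

end Pool.Agent.H67.WA
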