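import Mathlib

/-!
# W1 step 2: a sublattice which stretches a flag (Mathlib only)

PROOF. `M ⧸ N2` is finitely generated and torsion free (`h2`), so free (`Module.free_of_finite_type_torsion_free'` or the current name),
so projective, so `N2` has a retraction `g2 : M →ₗ[ℤ] N2`, `g2 x = x` for `x ∈ N2`. The same for `N1` inside `N2`: `g1 : N2 →ₗ[ℤ] N1`
(`N1.comap N2.subtype`). `W = {y' ∈ N2 | ∃ y ∈ N2, y' = a • y, g1 y ∈ b • N1}`. Index of `W` in `N2`: `[N2 : a N2] = a ^ (2 d)` and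
`[a N2 : W] = [N2 : {y | g1 y ∈ b N1}] ≤ [N1 : b N1] = b ^ d` (for a free `ℤ`-module `N` of rank `r` the index of `a N` is `a ^ r`; multiplication
by `a` is injective). `M' = g2⁻¹ W`: index `≤` index of `W`. If `x ∈ M' ∩ N2` then `x = g2 x = a • y`; if moreover `x ∈ N1` then
`y ∈ N1` (`h1`: `a • y ∈ N1`), so `y = g1 y = b • y''`.
-/

set_option autoImplicit false

namespace Pool.Agent.H67.WA

private theorem retract {M : Type} [AddCommGroup M] [Module.Finite ℤ M] (N : Submodule ℤ M)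
    (h : ∀ (n : ℤ) (x : M), n ≠ 0 → n • x ∈ N → x ∈ N) :
    ∃ g : M →ₗ[ℤ] N, ∀ x : N, g x = x := by
  haveI : Module.IsTorsionFree ℤ (M ⧸ N) := by
    refine Module.IsTorsionFree.of_smul_eq_zero fun r m hrm => ?_
    obtain ⟨x, rfl⟩ := Submodule.Quotient.mk_surjective N m
    by_cases hr : r = 0
    · left; exact hr
    right
    rw [← Submodule.Quotient.mk_smul, Submodule.Quotient.mk_eq_zero] at hrm
    rw [Submodule.Quotient.mk_eq_zero]
    exact h r x hr hrm
  haveI : Module.Free ℤ (M ⧸ N) := Module.free_of_finite_type_torsion_free'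
  obtain ⟨s, hs⟩ := Module.projective_lifting_property N.mkQ LinearMap.id N.mkQ_surjective
  have hs' : ∀ q, N.mkQ (s q) = q := fun q => by
    have := LinearMap.congr_fun hs q
    simpa using this
  refine ⟨LinearMap.codRestrict N (LinearMap.id - s.comp N.mkQ) (fun x => ?_), fun x => ?_⟩
  · have h3 : ((LinearMap.id : M →ₗ[ℤ] M) - s.comp N.mkQ) x ∈ LinearMap.ker N.mkQ := by
      rw [LinearMap.mem_ker, LinearMap.sub_apply, map_sub, LinearMap.comp_apply, hs',
        LinearMap.id_apply, sub_self]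
    rwa [Submodule.ker_mkQ] at h3
  · apply Subtype.ext
    have hx : N.mkQ (x : M) = 0 := by
      rw [← LinearMap.mem_ker, Submodule.ker_mkQ]
      exact x.2
    rw [LinearMap.codRestrict_apply, LinearMap.sub_apply, LinearMap.comp_apply, hx, map_zero,
      sub_zero, LinearMap.id_apply]

theorem mk_sub {M : Type} [AddCommGroup M] [Module.Finite ℤ M] [Module.IsTorsionFree ℤ M]
    (N1 N2 : Submodule ℤ M) (h12 : N1 ≤ N2)
    (h1 : ∀ (n : ℤ) (x : M), n ≠ 0 → n • x ∈ N1 → x ∈ N1)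
    (h2 : ∀ (n : ℤ) (x : M), n ≠ 0 → n • x ∈ N2 → x ∈ N2) (d : ℕ)
    (hd1 : Module.finrank ℤ N1 = d) (hd2 : Module.finrank ℤ N2 = 2 * d) (a b : ℕ) (ha : a ≠ 0)
    (hb : b ≠ 0) :
    ∃ M' : AddSubgroup M, M'.index ≠ 0 ∧ M'.index ≤ a ^ (2 * d) * b ^ d ∧
      (∀ x ∈ M', x ∈ N2 → ∃ y : M, x = (a : ℤ) • y) ∧
      (∀ x ∈ M', x ∈ N1 → ∃ y : M, x = ((a * b : ℕ) : ℤ) • y) := by
  obtain ⟨g2, hg2⟩ := retract N2 h2
  set N1' : Submodule ℤ N2 := N1.comap N2.subtype with hN1'
  obtain ⟨g1, hg1⟩ := retract N1' (fun n x hn hx => by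
    rw [hN1', Submodule.mem_comap] at hx ⊢
    rw [map_smul] at hx
    exact h1 n _ hn hx)
  haveI : Module.Free ℤ N2 := Module.free_of_finite_type_torsion_free'
  haveI : Module.Free ℤ N1' := Module.free_of_finite_type_torsion_free'
  have hd1' : Module.finrank ℤ N1' = d := by
    rw [← hd1]
    exact (Submodule.comapSubtypeEquivOfLe h12).finrank_eq
  set ma : N2 →+ N2 := nsmulAddMonoidHom (α := N2) a with hma
  set mb : N1' →+ N1' := nsmulAddMonoidHom (α := N1') b with hmb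
  have hmainj : Function.Injective ma := by
    intro x y hxy
    rw [hma, nsmulAddMonoidHom_apply, nsmulAddMonoidHom_apply] at hxy
    have h3 : (a : ℤ) • (x - y) = 0 := by
      rw [smul_sub, natCast_zsmul, natCast_zsmul, hxy, sub_self]
    have h4 := (smul_eq_zero.mp h3).resolve_left (by exact_mod_cast ha)
    exact sub_eq_zero.mp h4
  have hg1s : Function.Surjective g1.toAddMonoidHom := fun y => ⟨y, hg1 y⟩
  have hg2s : Function.Surjective g2.toAddMonoidHom := fun y => ⟨y, hg2 y⟩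
  set W : AddSubgroup N2 := (mb.range.comap g1.toAddMonoidHom).map ma with hW
  have hWi : W.index = b ^ d * a ^ (2 * d) := by
    rw [hW, AddSubgroup.index_map_of_injective _ hmainj,
      AddSubgroup.index_comap_of_surjective _ hg1s, hma, hmb, AddSubgroup.index_range_nsmul,
      AddSubgroup.index_range_nsmul, hd1', hd2]
  refine ⟨W.comap g2.toAddMonoidHom, ?_, ?_, ?_, ?_⟩
  · rw [AddSubgroup.index_comap_of_surjective _ hg2s, hWi]
    positivity
  · rw [AddSubgroup.index_comap_of_surjective _ hg2s, hWi, mul_comm]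
  · intro x hx hxN
    rw [AddSubgroup.mem_comap] at hx
    have h3 : g2.toAddMonoidHom x = ⟨x, hxN⟩ := hg2 ⟨x, hxN⟩
    rw [h3, hW, AddSubgroup.mem_map] at hx
    obtain ⟨y, _, hy⟩ := hx
    refine ⟨y, ?_⟩
    have h4 := congrArg Subtype.val hy
    rw [hma, nsmulAddMonoidHom_apply] at h4
    rw [natCast_zsmul]
    exact h4.symm
  · intro x hx hxN
    rw [AddSubgroup.mem_comap] at hx
    have h3 : g2.toAddMonoidHom x = ⟨x, h12 hxN⟩ := hg2 ⟨x, h12 hxN⟩
    rw [h3, hW, AddSubgroup.mem_map] at hx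
    obtain ⟨y, hyb, hy⟩ := hx
    have h4 := congrArg Subtype.val hy
    rw [hma, nsmulAddMonoidHom_apply] at h4
    have h5 : (y : M) ∈ N1 := by
      apply h1 (a : ℤ) _ (by exact_mod_cast ha)
      rw [natCast_zsmul]
      have h6 : (a • (y : N2) : N2).1 = a • (y : M) := rfl
      rw [← h6, h4]
      exact hxN
    rw [AddSubgroup.mem_comap] at hyb
    obtain ⟨z, hz⟩ := hyb
    have h7 : g1.toAddMonoidHom y = ⟨y, h5⟩ := hg1 ⟨y, h5⟩
    rw [h7, hmb, nsmulAddMonoidHom_apply] at hz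
    refine ⟨((z : N2) : M), ?_⟩
    have h8 := congrArg (fun t : N1' => ((t : N2) : M)) hz
    have h9 : (b • ((z : N2) : M)) = (y : M) := h8
    rw [natCast_zsmul, mul_smul, h9]
    exact h4.symm

end Pool.Agent.H67.WA
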