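import Pool.Agent.H88.A4.IfRed
import Pool.Agent.H67.WA.MkA
import Pool.Agent.H67.WA.MkB
import Pool.Agent.H67.WA.MkC

/-!
# W1 step 2: `H88.A4.MinkStmt`

PROOF. `x`, `l` from `mk_min`. `M = L` as a `ℤ`-module (`((L : Submodule (𝓞 F) F).restrictScalars ℤ)`), finitely generated (`𝓞 F` is
noetherian and finite over `ℤ`) and torsion free; `N1 = L ∩ span K {x 0}`, `N2 = L ∩ span K {x 0, x 1}`: saturated (`K`-subspaces),
`finrank ℤ N1 = d`, `finrank ℤ N2 = 2 d`, `d = [K : ℚ]`: `finrank ℤ (L ∩ W) = dim_ℚ W` for a `ℚ`-subspace `W` (every element of `W` has a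
nonzero integer multiple in `L ∩ W`, `L ∩ W` is a `ℤ`-lattice in `W`; module `Mkr`). `a = ⌊l 2 / l 1⌋`, `b = ⌊l 2 / (a l 0)⌋`, both `≥ 1`:
`a l1 ≤ l2 < 2 a l1`, `a b l0 ≤ l2 < 2 a b l0` (`l 2 / (a l 0) ≥ l 1 / l 0 ≥ 1`). `M'` from `mk_sub`. Every `z ∈ M'`, `z ≠ 0`, has gauge
`≥ l 2 / 2`: `z ∉ N2`: `≥ l 2`; `z ∈ N2 \ N1`: `z = a y`, `y ∈ L \ N1` (`y ∉ span {x 0}`), gauge `≥ a l 1`; `z ∈ N1`: `z = a b y`, `y ≠ 0`,
gauge `≥ a b l 0`. So `mk_box` with `R = l 2 / 4` must fail: `(l2 / 4)^(3d) ≤ 2^(3d) a^(2d) b^d D`, `D = √|disc| N(L) ∏ w`; and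
`a^(2d) b^d = a^d (a b)^d ≤ (l2/l1)^d (l2/l0)^d`: `(l0 l1 l2)^d ≤ 8^(3d) D`. `C = 8 ^ (3 d)` (`finrank ℚ F = 3 d`). `ν`: `φ (a y)` is `a φ y`.
-/

open scoped NumberField nonZeroDivisors

set_option autoImplicit false

namespace Pool.Agent.H67.WA

open NumberField H88.A4

private theorem exists_mul_mem {F : Type} [Field F] [NumberField F]
    (L : FractionalIdeal (𝓞 F)⁰ F) (hL : L ≠ 0) (y : F) : ∃ n : ℤ, n ≠ 0 ∧ n • y ∈ L := by
  obtain ⟨c, hc, hc0⟩ : ∃ c ∈ L, c ≠ 0 := by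
    by_contra h
    push Not at h
    exact hL (FractionalIdeal.eq_zero_iff.mpr h)
  have halg : IsAlgebraic ℤ (y / c) :=
    (IsFractionRing.isAlgebraic_iff ℤ ℚ F).mpr (Algebra.IsAlgebraic.isAlgebraic _)
  obtain ⟨n, hn, hint⟩ := halg.exists_integral_multiple
  have hu : ∃ u : 𝓞 F, (u : F) = n • (y / c) := ⟨⟨_, hint⟩, rfl⟩
  obtain ⟨u, hu⟩ := hu
  have h1 : u • c ∈ L := Submodule.smul_mem (L : Submodule (𝓞 F) F) u hc
  have h3 : u • c = n • y := by
    rw [Algebra.smul_def]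
    change (u : F) * c = _
    rw [hu, Algebra.smul_def, Algebra.smul_def, eq_intCast]
    field_simp
  exact ⟨n, hn, h3 ▸ h1⟩

/-- the rank of the lattice of the points of `L` in a `K`-subspace -/
theorem mk_rank (K F : Type) [Field K] [NumberField K] [Field F] [NumberField F] [Algebra K F]
    (L : FractionalIdeal (𝓞 F)⁰ F) (hL : L ≠ 0) (W : Submodule K F) :
    Module.finrank ℤ (((L : Submodule (𝓞 F) F).restrictScalars ℤ) ⊓ (W.restrictScalars ℤ) :
      Submodule ℤ F) = Module.finrank ℚ K * Module.finrank K W := by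
  set Lam : Submodule ℤ F := ((L : Submodule (𝓞 F) F).restrictScalars ℤ) ⊓ (W.restrictScalars ℤ)
    with hLam
  let f : Lam →ₗ[ℤ] W :=
    { toFun := fun x => ⟨x.1, x.2.2⟩
      map_add' := fun x y => rfl
      map_smul' := fun n x => rfl }
  have hf : IsLocalizedModule (nonZeroDivisors ℤ) f := by
    refine ⟨fun s => ?_, fun y => ?_, fun {x₁ x₂} h => ?_⟩
    · rw [Module.End.isUnit_iff]
      have hs : ((s : ℤ) : K) ≠ 0 := by
        exact_mod_cast nonZeroDivisors.ne_zero s.2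
      constructor
      · intro x y hxy
        have h1 : (s : ℤ) • x = (s : ℤ) • y := hxy
        rw [← Int.cast_smul_eq_zsmul K, ← Int.cast_smul_eq_zsmul K] at h1
        exact smul_right_injective _ hs h1
      · intro y
        refine ⟨((s : ℤ) : K)⁻¹ • y, ?_⟩
        change (s : ℤ) • (((s : ℤ) : K)⁻¹ • y) = y
        rw [← Int.cast_smul_eq_zsmul K, smul_smul, mul_inv_cancel₀ hs, one_smul]
    · obtain ⟨n, hn, hny⟩ := exists_mul_mem L hL (y : F)
      refine ⟨(⟨n • (y : F), hny, ?_⟩, ⟨n, mem_nonZeroDivisors_of_ne_zero hn⟩), ?_⟩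
      · exact (W.restrictScalars ℤ).smul_mem n y.2
      · rfl
    · refine ⟨1, ?_⟩
      have h1 : (x₁ : F) = x₂ := congrArg (fun t : W => (t : F)) h
      rw [Subtype.ext h1]
  have h1 : Module.finrank ℤ W = Module.finrank ℤ Lam :=
    IsLocalizedModule.finrank_eq (nonZeroDivisors ℤ) f le_rfl
  have h2 : Module.finrank ℚ W = Module.finrank ℤ W := IsFractionRing.finrank_right_eq ℤ ℚ W
  rw [← h1, ← h2, Module.finrank_mul_finrank]

/-- the stretched sublattice in the field -/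
private theorem mk_lat (K F : Type) [Field K] [NumberField K] [Field F] [NumberField F]
    [Algebra K F] (L : FractionalIdeal (𝓞 F)⁰ F) (hL : L ≠ 0) (W1 W2 : Submodule K F)
    (h12 : W1 ≤ W2) (h1 : Module.finrank K W1 = 1) (h2 : Module.finrank K W2 = 2) (a b : ℕ)
    (ha : a ≠ 0) (hb : b ≠ 0) :
    ∃ L' : AddSubgroup F, (∀ z ∈ L', z ∈ L) ∧
      L'.relIndex (L : Submodule (𝓞 F) F).toAddSubgroup ≠ 0 ∧
      L'.relIndex (L : Submodule (𝓞 F) F).toAddSubgroup ≤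
        a ^ (2 * Module.finrank ℚ K) * b ^ Module.finrank ℚ K ∧
      (∀ z ∈ L', z ∈ W2 → ∃ y ∈ L, z = (a : ℤ) • y) ∧
      (∀ z ∈ L', z ∈ W1 → ∃ y ∈ L, z = ((a * b : ℕ) : ℤ) • y) := by
  set Lz : Submodule ℤ F := (L : Submodule (𝓞 F) F).restrictScalars ℤ with hLz
  have : Module.Finite ℤ Lz := inferInstanceAs (Module.Finite ℤ L)
  have : Module.IsTorsionFree ℤ Lz := inferInstance
  have key : ∀ W : Submodule K F, Module.finrank ℤ ((W.restrictScalars ℤ).comap Lz.subtype) =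
      Module.finrank ℚ K * Module.finrank K W := by
    intro W
    rw [← mk_rank K F L hL W, ← Submodule.finrank_map_subtype_eq Lz,
      Submodule.map_comap_subtype]
  have sat : ∀ W : Submodule K F, ∀ (n : ℤ) (x : Lz), n ≠ 0 →
      n • x ∈ (W.restrictScalars ℤ).comap Lz.subtype →
      x ∈ (W.restrictScalars ℤ).comap Lz.subtype := by
    intro W n x hn hx
    rw [Submodule.mem_comap] at hx ⊢
    have hn' : (n : K) ≠ 0 := by exact_mod_cast hn
    have h3 : (n : K) • (x : F) ∈ W := by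
      rw [Int.cast_smul_eq_zsmul]
      exact hx
    have h4 := W.smul_mem (n : K)⁻¹ h3
    rw [smul_smul, inv_mul_cancel₀ hn', one_smul] at h4
    exact h4
  obtain ⟨M', hi, hi', hM2, hM1⟩ := mk_sub ((W1.restrictScalars ℤ).comap Lz.subtype)
    ((W2.restrictScalars ℤ).comap Lz.subtype) (Submodule.comap_mono fun z hz => h12 hz)
    (sat W1) (sat W2) (Module.finrank ℚ K) (by rw [key, h1, mul_one])
    (by rw [key, h2, mul_comm]) a b ha hb
  have hrel : (M'.map Lz.subtype.toAddMonoidHom).relIndex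
      (L : Submodule (𝓞 F) F).toAddSubgroup = M'.index := by
    have e1 : (L : Submodule (𝓞 F) F).toAddSubgroup =
        (⊤ : AddSubgroup Lz).map Lz.subtype.toAddMonoidHom := by
      ext z
      rw [AddSubgroup.mem_map]
      constructor
      · intro hz
        exact ⟨⟨z, hz⟩, AddSubgroup.mem_top _, rfl⟩
      · rintro ⟨y, -, rfl⟩
        exact y.2
    rw [e1, AddSubgroup.relIndex_map_map_of_injective _ _ Subtype.val_injective,
      AddSubgroup.relIndex_top_right]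
  refine ⟨M'.map Lz.subtype.toAddMonoidHom, ?_, ?_, ?_, ?_, ?_⟩
  · intro z hz
    obtain ⟨y, -, rfl⟩ := AddSubgroup.mem_map.mp hz
    exact y.2
  · rw [hrel]; exact hi
  · rw [hrel]; exact hi'
  · intro z hz hW
    obtain ⟨y, hy, rfl⟩ := AddSubgroup.mem_map.mp hz
    obtain ⟨t, ht⟩ := hM2 y hy hW
    exact ⟨t, t.2, by rw [ht]; rfl⟩
  · intro z hz hW
    obtain ⟨y, hy, rfl⟩ := AddSubgroup.mem_map.mp hz
    obtain ⟨t, ht⟩ := hM1 y hy hW
    exact ⟨t, t.2, by rw [ht]; rfl⟩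

private theorem floor_pair {m l : ℝ} (hm : 0 < m) (hml : m ≤ l) :
    ∃ a : ℕ, a ≠ 0 ∧ (a : ℝ) * m ≤ l ∧ l < 2 * (a * m) := by
  have h1 : 1 ≤ l / m := by
    rw [le_div_iff₀ hm]
    linarith
  have h2 : 1 ≤ ⌊l / m⌋₊ := Nat.le_floor (by simpa using h1)
  have h3 : ((⌊l / m⌋₊ : ℕ) : ℝ) ≤ l / m := Nat.floor_le (by positivity)
  have h4 : l / m < (⌊l / m⌋₊ : ℕ) + 1 := Nat.lt_floor_add_one _
  have h5 : (1 : ℝ) ≤ (⌊l / m⌋₊ : ℕ) := by exact_mod_cast h2
  refine ⟨⌊l / m⌋₊, by omega, ?_, ?_⟩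
  · rwa [le_div_iff₀ hm] at h3
  · rw [div_lt_iff₀ hm] at h4
    nlinarith

theorem mink (K : Type) [Field K] [NumberField K] : MinkStmt K := by
  classical
  have hd0 : 0 < Module.finrank ℚ K := Module.finrank_pos
  set d := Module.finrank ℚ K with hd
  refine ⟨(8 : ℝ) ^ (3 * d), by positivity, ?_⟩
  intro F _ _ _ hF w hw hc L hL
  obtain ⟨x, l, hind, hxL, hl0, hl01, hl12, hx, hmin⟩ := mk_min K F hF w hw L hL
  refine ⟨x, l, hind, hxL, hl0, hl01, hl12, hx, ?_⟩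
  rw [← hd]
  have hl1 : 0 < l 1 := lt_of_lt_of_le hl0 hl01
  have hl2 : 0 < l 2 := lt_of_lt_of_le hl1 hl12
  have hdF : Module.finrank ℚ F = 3 * d := by
    rw [← Module.finrank_mul_finrank ℚ K F, hF, mul_comm]
  have hx0 : x 0 ≠ 0 := hind.ne_zero 0
  have hx01 : LinearIndependent K ![x 0, x 1] := by
    have := hind.comp (Fin.castSucc : Fin 2 → Fin 3) (Fin.castSucc_injective 2)
    have e : x ∘ (Fin.castSucc : Fin 2 → Fin 3) = ![x 0, x 1] := by
      funext i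
      fin_cases i <;> rfl
    rwa [e] at this
  have hW1 : Module.finrank K (Submodule.span K ({x 0} : Set F)) = 1 := finrank_span_singleton hx0
  have hW2 : Module.finrank K (Submodule.span K ({x 0, x 1} : Set F)) = 2 := by
    have h := finrank_span_eq_card hx01
    have e : Set.range ![x 0, x 1] = {x 0, x 1} := by
      ext t
      simp [or_comm]
    rw [e, Fintype.card_fin] at h
    exact h
  obtain ⟨a, ha1, haU, haL⟩ : ∃ a : ℕ, a ≠ 0 ∧ (a : ℝ) * l 1 ≤ l 2 ∧ l 2 < 2 * (a * l 1) :=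
    floor_pair hl1 hl12
  obtain ⟨b, hb1, hbU, hbL⟩ : ∃ b : ℕ, b ≠ 0 ∧ (b : ℝ) * (a * l 0) ≤ l 2 ∧
      l 2 < 2 * (b * (a * l 0)) := by
    refine floor_pair ?_ ?_
    · have : (0 : ℝ) < a := by exact_mod_cast Nat.pos_of_ne_zero ha1
      positivity
    · exact (mul_le_mul_of_nonneg_left hl01 (Nat.cast_nonneg a)).trans haU
  have ha0 : (0 : ℝ) < a := by exact_mod_cast Nat.pos_of_ne_zero ha1
  have hb0 : (0 : ℝ) < b := by exact_mod_cast Nat.pos_of_ne_zero hb1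
  obtain ⟨L', hLL, hi, hi', hM2, hM1⟩ := mk_lat K F L hL _ _
    (Submodule.span_mono (by simp : ({x 0} : Set F) ⊆ {x 0, x 1})) hW1 hW2 a b ha1 hb1
  by_contra hcon
  push Not at hcon
  have hsz : ∀ (y : F) (n : ℕ) (φ : F →+* ℂ), ‖φ ((n : ℤ) • y)‖ = n * ‖φ y‖ := by
    intro y n φ
    rw [map_zsmul, zsmul_eq_mul, norm_mul]
    simp
  obtain ⟨z, hz, hz0, hzs⟩ := mk_box F w hw hc L hL L' hLL hi (l 2 / 4) (by positivity) (by
    set D : ℝ := Real.sqrt |(discr F : ℝ)| * (FractionalIdeal.absNorm L : ℝ) * ∏ φ, w φ with hD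
    have hD0 : 0 ≤ D := by
      have h7 : (0 : ℝ) ≤ ∏ φ, w φ := Finset.prod_nonneg fun φ _ => (hw φ).le
      have h8 : (0 : ℝ) ≤ (FractionalIdeal.absNorm L : ℝ) := by
        exact_mod_cast FractionalIdeal.absNorm_nonneg L
      positivity
    have s1 : ((L'.relIndex (L : Submodule (𝓞 F) F).toAddSubgroup : ℕ) : ℝ) ≤
        (a : ℝ) ^ (2 * d) * (b : ℝ) ^ d := by exact_mod_cast hi'
    have s2 : (a : ℝ) ^ (2 * d) * (b : ℝ) ^ d * (l 0 * l 1 * l 2) ^ d ≤ l 2 ^ (3 * d) := by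
      calc (a : ℝ) ^ (2 * d) * (b : ℝ) ^ d * (l 0 * l 1 * l 2) ^ d
          = ((a * l 1) * (b * (a * l 0)) * l 2) ^ d := by
            rw [pow_mul, ← mul_pow, ← mul_pow]
            congr 1
            ring
        _ ≤ (l 2 * l 2 * l 2) ^ d := by gcongr
        _ = l 2 ^ (3 * d) := by
            rw [pow_mul]
            congr 1
            ring
    have s3 : (8 : ℝ) ^ (3 * d) * D < (l 0 * l 1 * l 2) ^ d := by
      refine lt_of_eq_of_lt ?_ hcon
      rw [hD]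
      ring
    have s4 : (2 : ℝ) ^ (3 * d) * 4 ^ (3 * d) = 8 ^ (3 * d) := by
      rw [← mul_pow]
      norm_num
    rw [hdF, div_pow, lt_div_iff₀ (by positivity)]
    have s5 : (0 : ℝ) < (a : ℝ) ^ (2 * d) * (b : ℝ) ^ d := by positivity
    calc _ = ((L'.relIndex (L : Submodule (𝓞 F) F).toAddSubgroup : ℕ) : ℝ) *
          (8 ^ (3 * d) * D) := by
          rw [← s4]
          ring
      _ ≤ ((a : ℝ) ^ (2 * d) * (b : ℝ) ^ d) * (8 ^ (3 * d) * D) := by gcongr
      _ < ((a : ℝ) ^ (2 * d) * (b : ℝ) ^ d) * (l 0 * l 1 * l 2) ^ d := by gcongr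
      _ ≤ _ := s2)
  by_cases hz2 : z ∈ Submodule.span K ({x 0, x 1} : Set F)
  · by_cases hz1 : z ∈ Submodule.span K ({x 0} : Set F)
    · obtain ⟨y, hy, rfl⟩ := hM1 z hz hz1
      have hy0 : y ≠ 0 := by
        rintro rfl
        exact hz0 (smul_zero _)
      have h5 := (hmin y hy (l 2 / 4 / ((a * b : ℕ) : ℝ)) (fun φ => by
        have h6 := hzs φ
        rw [hsz] at h6
        rw [le_div_iff₀ (by positivity)]
        linarith)).1 hy0
      rw [le_div_iff₀ (by positivity)] at h5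
      push_cast at h5
      nlinarith
    · obtain ⟨y, hy, rfl⟩ := hM2 z hz hz2
      have hy1 : y ∉ Submodule.span K ({x 0} : Set F) := fun h => hz1 (by
        rw [← Int.cast_smul_eq_zsmul K]
        exact Submodule.smul_mem _ _ h)
      have h5 := (hmin y hy (l 2 / 4 / (a : ℝ)) (fun φ => by
        have h6 := hzs φ
        rw [hsz] at h6
        rw [le_div_iff₀ (by positivity)]
        linarith)).2.1 hy1
      rw [le_div_iff₀ (by positivity)] at h5
      nlinarith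
  · have h5 := (hmin z (hLL z hz) (l 2 / 4) hzs).2.2 hz2
    linarith

end Pool.Agent.H67.WA
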