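import Pool.Agent.H67.WA.Defs

/-!
# W1 step 6: rounding

PROOF. `round_int`: an integral basis `ω` (`NumberField.integralBasis`, or any `ℤ`-basis of `𝓞 K`), `y = ∑ y_i ω_i`, `y_i ∈ ℚ`,
`τ = ∑ round (y_i) ω_i`, `‖φ (y - τ)‖ ≤ ∑ |y_i - round y_i| ‖φ ω_i‖ ≤ ∑ ‖φ ω_i‖ / 2 ≤ C` (maximum over the finitely many `φ`).
`round_b`: `round_int` for `y = - b₂ / b₁`: `‖φ (τ + b₂/b₁)‖ ≤ C`, so `‖φ (b₂ + τ b₁)‖ ≤ C ‖φ b₁‖`; `sz φ τ ≤ C + sz φ b₂ / sz φ b₁ ≤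
C + X * X ^ d` (`sz_low`).
`nat_mul`: `g ∣ N` for the natural number `N = |Norm g| = nz g ≤ C ^ d`, and `N ∣ ⌊C^d⌋!` (`M = (⌊C^d⌋₊)!`): `Ideal.absNorm_mem`
for `span {g}`.
-/

set_option autoImplicit false

namespace Pool.Agent.H67.WA

open NumberField Finset H88.A4

variable (K : Type) [Field K] [NumberField K]

theorem round_int : ∃ C : ℝ, 1 ≤ C ∧ ∀ y : K, ∃ τ : 𝓞 K, ∀ φ : K →+* ℂ,
    ‖φ (y - (τ : K))‖ ≤ C := by
  classical
  let ω := NumberField.integralBasis K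
  refine ⟨1 + ∑ φ : K →+* ℂ, ∑ i, ‖φ (ω i)‖, ?_, ?_⟩
  · have h : 0 ≤ ∑ φ : K →+* ℂ, ∑ i, ‖φ (ω i)‖ :=
      Finset.sum_nonneg fun φ _ => Finset.sum_nonneg fun i _ => norm_nonneg _
    linarith
  · intro y
    refine ⟨∑ i, (round (ω.repr y i) : ℤ) • RingOfIntegers.basis K i, fun φ => ?_⟩
    have h1 : y - ((∑ i, (round (ω.repr y i) : ℤ) • RingOfIntegers.basis K i : 𝓞 K) : K)
        = ∑ i, ((ω.repr y i - round (ω.repr y i) : ℚ) : K) * ω i := by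
      have h2 : ((∑ i, (round (ω.repr y i) : ℤ) • RingOfIntegers.basis K i : 𝓞 K) : K)
          = ∑ i, ((round (ω.repr y i) : ℤ) : K) * ω i := by
        rw [RingOfIntegers.coe_eq_algebraMap, map_sum]
        refine Finset.sum_congr rfl fun i _ => ?_
        rw [NumberField.integralBasis_apply, zsmul_eq_mul, map_mul, map_intCast]
      rw [h2]
      nth_rewrite 1 [← ω.sum_repr y]
      rw [← Finset.sum_sub_distrib]
      refine Finset.sum_congr rfl fun i _ => ?_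
      rw [Algebra.smul_def]
      push_cast
      rw [sub_mul]
      rfl
    rw [h1, map_sum]
    calc ‖∑ i, φ (((ω.repr y i - round (ω.repr y i) : ℚ) : K) * ω i)‖
        ≤ ∑ i, ‖φ (((ω.repr y i - round (ω.repr y i) : ℚ) : K) * ω i)‖ := norm_sum_le _ _
      _ ≤ ∑ i, ‖φ (ω i)‖ := by
          refine Finset.sum_le_sum fun i _ => ?_
          rw [map_mul, norm_mul]
          refine mul_le_of_le_one_left (norm_nonneg _) ?_
          rw [map_ratCast, Complex.norm_ratCast]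
          have h3 : |ω.repr y i - round (ω.repr y i)| ≤ 1 / 2 := abs_sub_round _
          have h4 : |ω.repr y i - round (ω.repr y i)| ≤ 1 := h3.trans (by norm_num)
          exact_mod_cast h4
      _ ≤ ∑ φ : K →+* ℂ, ∑ i, ‖φ (ω i)‖ :=
          Finset.single_le_sum (f := fun φ : K →+* ℂ => ∑ i, ‖φ (ω i)‖)
            (fun φ _ => Finset.sum_nonneg fun i _ => norm_nonneg _) (Finset.mem_univ φ)
      _ ≤ 1 + ∑ φ : K →+* ℂ, ∑ i, ‖φ (ω i)‖ := by linarith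

theorem round_b : ∃ C : ℝ, 1 ≤ C ∧ ∀ X : ℝ, 1 ≤ X → ∀ b1 b2 : 𝓞 K, b1 ≠ 0 → Bd X b1 → Bd X b2 →
    ∃ τ : 𝓞 K, (∀ φ, sz φ (b2 + τ * b1) ≤ C * sz φ b1) ∧
      Bd (C + X * X ^ Module.finrank ℚ K) τ := by
  obtain ⟨C, hC, h⟩ := round_int K
  refine ⟨C, hC, fun X hX b1 b2 hb1 hB1 hB2 => ?_⟩
  obtain ⟨τ, hτ⟩ := h (-((b2 : K) / (b1 : K)))
  have hb1' : (b1 : K) ≠ 0 := by
    exact_mod_cast hb1
  refine ⟨τ, fun φ => ?_, fun φ => ?_⟩
  · have h1 : ((b2 + τ * b1 : 𝓞 K) : K) = -((-((b2 : K) / (b1 : K)) - (τ : K)) * (b1 : K)) := by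
      simp only [RingOfIntegers.coe_eq_algebraMap, map_add, map_mul] at hb1' ⊢
      field_simp
      ring
    unfold sz
    rw [h1, map_neg, norm_neg, map_mul, norm_mul]
    exact mul_le_mul_of_nonneg_right (hτ φ) (norm_nonneg _)
  · have h1 : (τ : K) = -(-((b2 : K) / (b1 : K)) - (τ : K)) - (b2 : K) / (b1 : K) := by ring
    rw [h1, map_sub, map_neg]
    refine (norm_sub_le _ _).trans ?_
    rw [norm_neg]
    refine add_le_add (hτ φ) ?_
    rw [map_div₀, norm_div, div_eq_mul_inv]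
    have h2 : (X ^ Module.finrank ℚ K)⁻¹ ≤ sz φ b1 := sz_low hb1 hX hB1 φ
    have hX0 : 0 < X ^ Module.finrank ℚ K := pow_pos (lt_of_lt_of_le one_pos hX) _
    have h3 : (sz φ b1)⁻¹ ≤ X ^ Module.finrank ℚ K := by
      rw [inv_le_comm₀ (sz_pos φ hb1) hX0]
      exact h2
    exact mul_le_mul (hB2 φ) h3 (inv_nonneg.2 (sz_nonneg _ _)) (by linarith)

/-- all nonzero integers of bounded size divide one natural number -/
theorem nat_mul (C : ℝ) : ∃ M : ℕ, M ≠ 0 ∧ ∀ g : 𝓞 K, g ≠ 0 → Bd C g → g ∣ (M : 𝓞 K) := by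
  refine ⟨(⌊C ^ Module.finrank ℚ K⌋₊).factorial, Nat.factorial_ne_zero _, fun g hg hb => ?_⟩
  have h1 : g ∣ ((Ideal.absNorm (Ideal.span {g}) : ℕ) : 𝓞 K) :=
    Ideal.mem_span_singleton.1 (Ideal.absNorm_mem _)
  refine h1.trans (Nat.cast_dvd_cast (Nat.dvd_factorial ?_ ?_))
  · have h2 : Ideal.absNorm (Ideal.span {g}) ≠ 0 := by
      rw [Ne, Ideal.absNorm_eq_zero_iff]
      exact span_ne hg
    exact Nat.pos_of_ne_zero h2
  · apply Nat.le_floor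
    have h3 : nz g ≤ vol fun _ : K →+* ℂ => C := nz_le_vol hb
    rw [vol_const, nz_ni] at h3
    exact h3

end Pool.Agent.H67.WA
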