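import Pool.Agent.H67.WA.IdU
import Pool.Agent.H67.WA.Rnd

/-!
# W1 step 6: admissible pairs times a bounded square

PROOF. `N` from `nat_mul C1` (`g ∣ N`). `M' = N ^ 2 * M`. Sizes: `1 ≤ nz g`, `sz φ g ≤ C1` gives `sz φ g ≥ C1^(-d)` (`sz_low`), so with
`C' = C C1^(2 d + 2)` the four inequalities hold. `squ`: `sq_mul`: `I ∣ (g M) ∣ (N² M)`. `cop`: `M = x u + y v`, `N² = g² w`:
`N² M = w x (g² u) + w y (g² v)`.
-/

set_option autoImplicit false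

namespace Pool.Agent.H67.WA

open NumberField Finset H88.A4

variable (K : Type) [Field K] [NumberField K]

private theorem span_dvd {a b : 𝓞 K} (h : a ∣ b) :
    (Ideal.span {a} : Ideal (𝓞 K)) ∣ Ideal.span {b} := by
  rw [Ideal.dvd_iff_le, Ideal.span_singleton_le_span_singleton]
  exact h

theorem adm_sq {M : ℕ} (hM : M ≠ 0) {C C1 : ℝ} (hC : 1 ≤ C) (hC1 : 1 ≤ C1) :
    ∃ (M' : ℕ) (C' : ℝ), M' ≠ 0 ∧ 1 ≤ C' ∧ ∀ (s t : ℝ) (u v g : 𝓞 K), 0 < s → 0 < t → g ≠ 0 →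
      Bd C1 g → Adm M C s t u v → Adm M' C' s t (g ^ 2 * u) (g ^ 2 * v) := by
  obtain ⟨N, hN, hdiv⟩ := nat_mul K C1
  set L : ℝ := C1 ^ Module.finrank ℚ K with hL
  have hL1 : 1 ≤ L := one_le_pow₀ hC1
  have hL0 : 0 < L := lt_of_lt_of_le one_pos hL1
  have hC0 : 0 < C := lt_of_lt_of_le one_pos hC
  have hC10 : 0 < C1 := lt_of_lt_of_le one_pos hC1
  have hCa : C1 ^ 2 * C ≤ C * (L * C1) ^ 2 := by
    have h1 : 1 ≤ L ^ 2 := one_le_pow₀ hL1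
    calc C1 ^ 2 * C = (C * C1 ^ 2) * 1 := by ring
      _ ≤ (C * C1 ^ 2) * L ^ 2 := mul_le_mul_of_nonneg_left h1 (by positivity)
      _ = C * (L * C1) ^ 2 := by ring
  have hCb : C * L ^ 2 ≤ C * (L * C1) ^ 2 := by
    have h1 : 1 ≤ C1 ^ 2 := one_le_pow₀ hC1
    calc C * L ^ 2 = (C * L ^ 2) * 1 := by ring
      _ ≤ (C * L ^ 2) * C1 ^ 2 := mul_le_mul_of_nonneg_left h1 (by positivity)
      _ = C * (L * C1) ^ 2 := by ring
  refine ⟨N ^ 2 * M, C * (L * C1) ^ 2, mul_ne_zero (pow_ne_zero 2 hN) hM, ?_, ?_⟩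
  · have h1 : 1 ≤ L * C1 := one_le_mul_of_one_le_of_one_le hL1 hC1
    exact one_le_mul_of_one_le_of_one_le hC (one_le_pow₀ h1)
  · intro s t u v g hs ht hg hb h
    have hlow : ∀ φ : K →+* ℂ, L⁻¹ ≤ sz φ g := fun φ => sz_low hg hC1 hb φ
    have hup : ∀ φ : K →+* ℂ, sz φ g ≤ C1 := hb
    have hg1 : ∀ φ : K →+* ℂ, 1 ≤ L ^ 2 * sz φ g ^ 2 := by
      intro φ
      have h1 : 1 ≤ L * sz φ g := by
        have h2 := mul_le_mul_of_nonneg_left (hlow φ) hL0.le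
        rwa [mul_inv_cancel₀ hL0.ne'] at h2
      calc (1 : ℝ) ≤ (L * sz φ g) ^ 2 := one_le_pow₀ h1
        _ = L ^ 2 * sz φ g ^ 2 := by ring
    have hle : ∀ (w : 𝓞 K) (r : ℝ), 0 < r → (∀ φ : K →+* ℂ, ‖φ (w : K)‖ ≤ C * r ^ 3) →
        ∀ φ : K →+* ℂ, ‖φ ((g ^ 2 * w : 𝓞 K) : K)‖ ≤ C * (L * C1) ^ 2 * r ^ 3 := by
      intro w r hr hw φ
      have h1 : ‖φ ((g ^ 2 * w : 𝓞 K) : K)‖ = sz φ g ^ 2 * sz φ w := by
        rw [← sz_pow, ← sz_mul]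
        rfl
      rw [h1]
      calc sz φ g ^ 2 * sz φ w ≤ C1 ^ 2 * (C * r ^ 3) :=
            mul_le_mul (pow_le_pow_left₀ (sz_nonneg _ _) (hup φ) 2) (hw φ) (sz_nonneg _ _)
              (by positivity)
        _ = (C1 ^ 2 * C) * r ^ 3 := by ring
        _ ≤ C * (L * C1) ^ 2 * r ^ 3 := mul_le_mul_of_nonneg_right hCa (by positivity)
    have hge : ∀ (w : 𝓞 K) (r : ℝ), (∀ φ : K →+* ℂ, r ^ 3 ≤ C * ‖φ (w : K)‖) →
        ∀ φ : K →+* ℂ, r ^ 3 ≤ C * (L * C1) ^ 2 * ‖φ ((g ^ 2 * w : 𝓞 K) : K)‖ := by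
      intro w r hw φ
      have h1 : ‖φ ((g ^ 2 * w : 𝓞 K) : K)‖ = sz φ g ^ 2 * sz φ w := by
        rw [← sz_pow, ← sz_mul]
        rfl
      have hw0 := sz_nonneg φ w
      rw [h1]
      calc r ^ 3 ≤ C * sz φ w := hw φ
        _ = (C * sz φ w) * 1 := (mul_one _).symm
        _ ≤ (C * sz φ w) * (L ^ 2 * sz φ g ^ 2) :=
            mul_le_mul_of_nonneg_left (hg1 φ) (by positivity)
        _ = (C * L ^ 2) * (sz φ g ^ 2 * sz φ w) := by ring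
        _ ≤ C * (L * C1) ^ 2 * (sz φ g ^ 2 * sz φ w) :=
            mul_le_mul_of_nonneg_right hCb (by positivity)
    have hNg : ∀ x : 𝓞 K, g * (M : 𝓞 K) ∣ ((N ^ 2 * M : ℕ) : 𝓞 K) := by
      intro _
      obtain ⟨w, hw⟩ := hdiv g hg hb
      refine ⟨w * (N : 𝓞 K), ?_⟩
      push_cast
      rw [pow_two]
      nth_rewrite 1 [hw]
      ring
    have hdv : ∀ w : 𝓞 K, (∀ I : Ideal (𝓞 K), I ^ 2 ∣ Ideal.span {w} →
        I ∣ Ideal.span {(M : 𝓞 K)}) → ∀ I : Ideal (𝓞 K), I ^ 2 ∣ Ideal.span {g ^ 2 * w} →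
        I ∣ Ideal.span {((N ^ 2 * M : ℕ) : 𝓞 K)} := by
      intro w hw I hI
      exact (sq_mul hg hw hI).trans (span_dvd K (hNg 0))
    refine ⟨mul_ne_zero (pow_ne_zero 2 hg) h.u0, mul_ne_zero (pow_ne_zero 2 hg) h.v0,
      hle u s hs h.ule, hge u s h.uge, hle v t ht h.vle, hge v t h.vge, hdv u h.squ, hdv v h.sqv, ?_⟩
    obtain ⟨x, y, hxy⟩ := Ideal.mem_span_pair.1 h.cop
    obtain ⟨w, hw⟩ := hdiv g hg hb
    refine Ideal.mem_span_pair.2 ⟨w ^ 2 * x, w ^ 2 * y, ?_⟩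
    push_cast
    rw [hw, ← hxy]
    ring

/-- monotonicity in the constants -/
theorem adm_mono {M M' : ℕ} {C C' s t : ℝ} (hs : 0 < s) (ht : 0 < t) (hM : M ∣ M') (hC : C ≤ C')
    {u v : 𝓞 K} (h : Adm M C s t u v) : Adm M' C' s t u v := by
  have hd : (Ideal.span {(M : 𝓞 K)} : Ideal (𝓞 K)) ∣ Ideal.span {(M' : 𝓞 K)} :=
    span_dvd K (Nat.cast_dvd_cast hM)
  refine ⟨h.u0, h.v0, fun φ => (h.ule φ).trans ?_, fun φ => (h.uge φ).trans ?_,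
    fun φ => (h.vle φ).trans ?_, fun φ => (h.vge φ).trans ?_,
    fun I hI => (h.squ I hI).trans hd, fun I hI => (h.sqv I hI).trans hd, ?_⟩
  · exact mul_le_mul_of_nonneg_right hC (by positivity)
  · exact mul_le_mul_of_nonneg_right hC (norm_nonneg _)
  · exact mul_le_mul_of_nonneg_right hC (by positivity)
  · exact mul_le_mul_of_nonneg_right hC (norm_nonneg _)
  · obtain ⟨k, rfl⟩ := hM
    rw [Nat.cast_mul]
    exact Ideal.mul_mem_right _ _ h.cop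

end Pool.Agent.H67.WA
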