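import Pool.Agent.H67.WA.D1
import Pool.Agent.H67.WA.AdmG
import Pool.Agent.H88.A4.IfRed

/-!
# W1 step 6: `H88.A4.BlockRedStmt`

PROOF. `D1 ≠ 0` by `d1_ne` (`s ≥ s0`). Always `sz φ D1 ≤ 2 C² s² (ρ₁ρ₂)² ≤ 2 C⁴ s²`, `sz φ D2 ≤ 4 C⁴ s t`, `sz φ D3 ≤ 2 C⁴ t²`
(`(ρ₁ρ₂)² = ρ₁ (ρ₁ ρ₂²) ≤ C²`).
(1) `D3 ≠ 0`, `E ≠ 0`: `g = 1`, `β' = β`, `Main` (monotone in `C`). (2) `D3 ≠ 0`, `E = 0`: `g = 1`, `EZ`.
(3) `D3 = 0`, `c₁ = 0`: `c₂² = - D3 = 0`; `c₃ ≠ 0` (otherwise `e4` gives `v = 0`); `b₁ ≠ 0` (`Aniso` at `(1,0)`). `τ` from `round_b` with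
`X = Hp C A s`; `β' = chg 1 τ 0 1 β` (determinant `1`): `b₁' = b₁`, `b₂' = b₂ + τ b₁`, `b₃' = b₃ + 2 τ b₂ + τ² b₁`, `c₁' = 0`,
`c₂' = 0`, `c₃' = c₃`, rows `chr 1 τ 0 1 π`; `Deg`: `b₁ c₃ = D2`.
(4) `D3 = 0`, `c₁ ≠ 0`: `t ≤ M C²` (`d3_c1`), `g = c₁`, `sz φ c₁ ≤ C t ρ₁² ≤ M C⁵`. `β₁ = chg c₂ 1 (-c₁) 0 β`, determinant
`c₂ * 0 - 1 * (-c₁) = c₁`: `c₁' = c₁ D3 = 0`, `c₂' = c₁ c₂ - c₂ c₁ = 0`, `c₃' = c₁`, `b₁' = b(c₂, -c₁) ≠ 0` by `Aniso` at `(c₂, -c₁) ≠ 0`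
(`c(c₂, -c₁) = c₁ D3 = 0`). Then `τ` from `round_b` for `β₁` and `β' = chg 1 τ 0 1 β₁`. `D_i' = c₁² D_i`. Sizes of the `D_i'`: at most
`(M C⁵)²` times those of `D_i`. `Adm` by `adm_sq`, `Rep` by `chg_sol` twice. All entries are polynomially bounded:
`(Hp C A s)^(const)`, `Hp C A s = (C (1 + s))^A`; entries of `β₁`, `chr ..` are `≤ 4 X³`, `τ ≤ C + X' X'^d`, entries of `β'` `≤ 4 X'' ^ 3`:
choose `C'`, `A'` large (`C + x ≤ 2 C x` for `x ≥ 1`).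
-/

set_option autoImplicit false

namespace Pool.Agent.H67.WA

open NumberField Finset H88.A4

variable (K : Type) [Field K] [NumberField K]

section aux

variable {K}

private theorem bd_mono {X Y : ℝ} {x : 𝓞 K} (h : X ≤ Y) (hx : Bd X x) : Bd Y x :=
  fun φ => (hx φ).trans h

private theorem bd_mul {X Y : ℝ} {x y : 𝓞 K} (hx : Bd X x) (hy : Bd Y y) : Bd (X * Y) (x * y) := by
  intro φ
  change sz φ (x * y) ≤ X * Y
  rw [sz_mul]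
  exact mul_le_mul (hx φ) (hy φ) (sz_nonneg φ y) ((sz_nonneg φ x).trans (hx φ))

private theorem bd_add {X Y : ℝ} {x y : 𝓞 K} (hx : Bd X x) (hy : Bd Y y) : Bd (X + Y) (x + y) :=
  fun φ => (sz_add φ x y).trans (add_le_add (hx φ) (hy φ))

private theorem bd_sub {X Y : ℝ} {x y : 𝓞 K} (hx : Bd X x) (hy : Bd Y y) : Bd (X + Y) (x - y) :=
  fun φ => (sz_sub φ x y).trans (add_le_add (hx φ) (hy φ))

private theorem bd_neg {X : ℝ} {x : 𝓞 K} (hx : Bd X x) : Bd X (-x) := by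
  intro φ
  change sz φ (-x) ≤ X
  rw [sz_neg]
  exact hx φ

private theorem bd_two : Bd 2 (2 : 𝓞 K) := fun φ => (sz_two φ).le

private theorem bd_one {X : ℝ} (hX : 1 ≤ X) : Bd X (1 : 𝓞 K) := fun φ => (sz_one φ).le.trans hX

private theorem bd_zero {X : ℝ} (hX : 0 ≤ X) : Bd X (0 : 𝓞 K) := fun φ => (sz_zero φ).le.trans hX

private theorem bd_sq {X : ℝ} {x : 𝓞 K} (hx : Bd X x) : Bd (X * X) (x ^ 2) := by
  rw [pow_two]
  exact bd_mul hx hx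

private theorem q1_bd {X Z : ℝ} {x y z g k : 𝓞 K} (hx : Bd X x) (hy : Bd X y) (hz : Bd X z)
    (hg : Bd Z g) (hk : Bd Z k) :
    Bd (4 * X * Z ^ 2) (x * g ^ 2 + 2 * y * (g * k) + z * k ^ 2) := by
  refine bd_mono (le_of_eq ?_) (bd_add (bd_add (bd_mul hx (bd_sq hg))
    (bd_mul (bd_mul bd_two hy) (bd_mul hg hk))) (bd_mul hz (bd_sq hk)))
  ring

private theorem q2_bd {X Z : ℝ} {x y z g h k l : 𝓞 K} (hx : Bd X x) (hy : Bd X y) (hz : Bd X z)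
    (hg : Bd Z g) (hh : Bd Z h) (hk : Bd Z k) (hl : Bd Z l) :
    Bd (4 * X * Z ^ 2) (x * (g * h) + y * (g * l + h * k) + z * (k * l)) := by
  refine bd_mono (le_of_eq ?_) (bd_add (bd_add (bd_mul hx (bd_mul hg hh))
    (bd_mul hy (bd_add (bd_mul hg hl) (bd_mul hh hk)))) (bd_mul hz (bd_mul hk hl)))
  ring

private theorem chg_bd {X Z : ℝ} {g h k l : 𝓞 K} {β : Blk (𝓞 K)} (hβ : β.All (Bd X))
    (hg : Bd Z g) (hh : Bd Z h) (hk : Bd Z k) (hl : Bd Z l) :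
    (chg g h k l β).All (Bd (4 * X * Z ^ 2)) := by
  obtain ⟨h1, h2, h3, h4, h5, h6⟩ := hβ
  exact ⟨q1_bd h1 h2 h3 hg hk, q2_bd h1 h2 h3 hg hh hk hl, q1_bd h1 h2 h3 hh hl,
    q1_bd h4 h5 h6 hg hk, q2_bd h4 h5 h6 hg hh hk hl, q1_bd h4 h5 h6 hh hl⟩

private theorem r_bd {X Z : ℝ} (hX : 0 ≤ X) (hZ : 1 ≤ Z) {x y g k : 𝓞 K} (hx : Bd X x)
    (hy : Bd X y) (hg : Bd Z g) (hk : Bd Z k) : Bd (4 * X * Z ^ 2) (g * x + k * y) := by
  refine bd_mono ?_ (bd_add (bd_mul hg hx) (bd_mul hk hy))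
  have h1 : Z * X ≤ Z * (Z * X) := le_mul_of_one_le_left (mul_nonneg (by linarith) hX) hZ
  have h2 : 0 ≤ Z * (Z * X) := by positivity
  calc Z * X + Z * X ≤ Z * (Z * X) + Z * (Z * X) := add_le_add h1 h1
    _ ≤ 4 * X * Z ^ 2 := by nlinarith

private theorem chr_bd {X Z : ℝ} (hX : 0 ≤ X) (hZ : 1 ≤ Z) {g h k l : 𝓞 K} {π : Row (𝓞 K)}
    (hπ : π.All (Bd X)) (hg : Bd Z g) (hh : Bd Z h) (hk : Bd Z k) (hl : Bd Z l) :
    (chr g h k l π).All (Bd (4 * X * Z ^ 2)) := by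
  obtain ⟨h1, h2, h3, h4⟩ := hπ
  exact ⟨r_bd hX hZ h1 h2 hg hk, r_bd hX hZ h1 h2 hh hl, r_bd hX hZ h3 h4 hg hk,
    r_bd hX hZ h3 h4 hh hl⟩

private theorem all_mono {X Y : ℝ} (h : X ≤ Y) {β : Blk (𝓞 K)} (hβ : β.All (Bd X)) :
    β.All (Bd Y) := by
  obtain ⟨h1, h2, h3, h4, h5, h6⟩ := hβ
  exact ⟨bd_mono h h1, bd_mono h h2, bd_mono h h3, bd_mono h h4, bd_mono h h5, bd_mono h h6⟩

private theorem row_mono {X Y : ℝ} (h : X ≤ Y) {π : Row (𝓞 K)} (hπ : π.All (Bd X)) :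
    π.All (Bd Y) := by
  obtain ⟨h1, h2, h3, h4⟩ := hπ
  exact ⟨bd_mono h h1, bd_mono h h2, bd_mono h h3, bd_mono h h4⟩

private theorem rep_mono {X Y : ℝ} (h : X ≤ Y) {β : Blk (𝓞 K)} {u v : 𝓞 K} (hr : Rep X β u v) :
    Rep Y β u v := by
  obtain ⟨π, r, r', h1, h2⟩ := hr
  exact ⟨π, r, r', row_mono h h1, h2⟩

private theorem rep_chg {X Z : ℝ} (hX : 0 ≤ X) (hZ : 1 ≤ Z) {g h k l e : 𝓞 K} {β : Blk (𝓞 K)}
    {u v : 𝓞 K} (hr : Rep X β u v) (hg : Bd Z g) (hh : Bd Z h) (hk : Bd Z k) (hl : Bd Z l)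
    (he : g * l - h * k = e) :
    Rep (4 * X * Z ^ 2) (chg g h k l β) (e ^ 2 * u) (e ^ 2 * v) := by
  obtain ⟨π, r, r', h1, h2⟩ := hr
  refine ⟨chr g h k l π, r, r', chr_bd hX hZ h1 hg hh hk hl, ?_⟩
  have h3 := chg_sol g h k l h2
  rwa [he] at h3

end aux

/-- reduction of `b₂` modulo `b₁` -/
private theorem deg_step : ∃ Cr : ℝ, 1 ≤ Cr ∧ ∀ X : ℝ, 1 ≤ X → ∀ (β : Blk (𝓞 K)) (u v : 𝓞 K),
    β.c1 = 0 → β.c2 = 0 → β.b1 ≠ 0 → β.All (Bd X) → Rep X β u v →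
    ∃ β' : Blk (𝓞 K), β'.D1 = β.D1 ∧ β'.D2 = β.D2 ∧ β'.D3 = β.D3 ∧ β'.c1 = 0 ∧ β'.c2 = 0 ∧
      β'.c3 = β.c3 ∧ β'.b1 = β.b1 ∧ (∀ φ : K →+* ℂ, ‖φ (β'.b2 : K)‖ ≤ Cr * ‖φ (β'.b1 : K)‖) ∧
      β'.All (Bd (16 * Cr ^ 2 * X ^ (2 * Module.finrank ℚ K + 3))) ∧
      Rep (16 * Cr ^ 2 * X ^ (2 * Module.finrank ℚ K + 3)) β' u v := by
  obtain ⟨Cr, hCr, h⟩ := round_b K
  refine ⟨Cr, hCr, fun X hX β u v hc1 hc2 hb1 hall hrep => ?_⟩
  obtain ⟨d, hd⟩ : ∃ d, d = Module.finrank ℚ K := ⟨_, rfl⟩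
  obtain ⟨τ, h1, h2⟩ := h X hX β.b1 β.b2 hb1 hall.1 hall.2.1
  rw [← hd] at h2 ⊢
  have hX0 : 0 ≤ X := by linarith
  have hXd : 1 ≤ X ^ (d + 1) := one_le_pow₀ hX
  have hY : Cr + X * X ^ d ≤ 2 * Cr * X ^ (d + 1) := by
    have h3 : X * X ^ d = X ^ (d + 1) := by rw [pow_succ, mul_comm]
    rw [h3]
    nlinarith
  have hY1 : 1 ≤ 2 * Cr * X ^ (d + 1) := by nlinarith
  have hτ : Bd (2 * Cr * X ^ (d + 1)) τ := bd_mono hY h2
  have hone : Bd (2 * Cr * X ^ (d + 1)) (1 : 𝓞 K) := bd_one hY1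
  have hzero : Bd (2 * Cr * X ^ (d + 1)) (0 : 𝓞 K) := bd_zero (by linarith)
  have hbound : 4 * X * (2 * Cr * X ^ (d + 1)) ^ 2 = 16 * Cr ^ 2 * X ^ (2 * d + 3) := by
    have h3 : X ^ (2 * d + 3) = X * (X ^ (d + 1)) ^ 2 := by
      rw [← pow_mul, ← pow_succ']
      congr 1
      ring
    rw [h3]
    ring
  have hdet : (1 : 𝓞 K) * 1 - τ * 0 = 1 := by ring
  refine ⟨chg 1 τ 0 1 β, ?_, ?_, ?_, ?_, ?_, ?_, ?_, ?_, ?_, ?_⟩
  · rw [chg_D1, hdet]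
    ring
  · rw [chg_D2, hdet]
    ring
  · rw [chg_D3, hdet]
    ring
  · simp only [chg, hc1, hc2]
    ring
  · simp only [chg, hc1, hc2]
    ring
  · simp only [chg, hc1, hc2]
    ring
  · simp only [chg]
    ring
  · intro φ
    have h3 : (chg 1 τ 0 1 β).b2 = β.b2 + τ * β.b1 := by
      simp only [chg]
      ring
    have h4 : (chg 1 τ 0 1 β).b1 = β.b1 := by
      simp only [chg]
      ring
    rw [h3, h4]
    exact h1 φ
  · rw [← hbound]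
    exact chg_bd hall hone hτ hzero hone
  · rw [← hbound]
    have h3 := rep_chg hX0 hY1 hrep hone hτ hzero hone hdet
    simpa using h3

/-- the sizes of the discriminants -/
private theorem disc_bd {C s t ρ1 ρ2 : ℝ} (hC : 1 ≤ C) (hs : 0 < s) (ht : 0 < t)
    (hρ : Rho C ρ1 ρ2) {β : Blk (𝓞 K)} (hsz : Sz C s t ρ1 ρ2 β) :
    Bd (4 * C ^ 4 * s ^ 2) β.D1 ∧ Bd (4 * C ^ 4 * (s * t)) β.D2 ∧ Bd (4 * C ^ 4 * t ^ 2) β.D3 := by
  obtain ⟨hρ0, hρ12, hρ1, hρ2⟩ := hρ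
  have hρ20 : 0 < ρ2 := lt_of_lt_of_le hρ0 hρ12
  have hC0 : 0 < C := by linarith
  have hP : ρ1 * (ρ1 * ρ2 ^ 2) ≤ C * C :=
    mul_le_mul hρ1 hρ2 (by positivity) hC0.le
  have hC4 : C ^ 2 * (ρ1 * (ρ1 * ρ2 ^ 2)) ≤ C ^ 4 := by
    calc C ^ 2 * (ρ1 * (ρ1 * ρ2 ^ 2)) ≤ C ^ 2 * (C * C) :=
          mul_le_mul_of_nonneg_left hP (by positivity)
      _ = C ^ 4 := by ring
  refine ⟨?_, ?_, ?_⟩
  · have h1 : Bd _ (β.b1 * β.b3 - β.b2 ^ 2) :=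
      bd_sub (bd_mul hsz.sb1 hsz.sb3) (bd_sq hsz.sb2)
    refine bd_mono ?_ h1
    calc C * s * ρ1 ^ 2 * (C * s * ρ2 ^ 2) + C * s * (ρ1 * ρ2) * (C * s * (ρ1 * ρ2))
        = 2 * s ^ 2 * (C ^ 2 * (ρ1 * (ρ1 * ρ2 ^ 2))) := by ring
      _ ≤ 2 * s ^ 2 * C ^ 4 := mul_le_mul_of_nonneg_left hC4 (by positivity)
      _ ≤ 4 * C ^ 4 * s ^ 2 := by nlinarith [show 0 < s ^ 2 * C ^ 4 by positivity]
  · have h1 : Bd _ (β.b1 * β.c3 + β.b3 * β.c1 - 2 * β.b2 * β.c2) :=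
      bd_sub (bd_add (bd_mul hsz.sb1 hsz.sc3) (bd_mul hsz.sb3 hsz.sc1))
        (bd_mul (bd_mul bd_two hsz.sb2) hsz.sc2)
    refine bd_mono ?_ h1
    calc C * s * ρ1 ^ 2 * (C * t * ρ2 ^ 2) + C * s * ρ2 ^ 2 * (C * t * ρ1 ^ 2) +
          2 * (C * s * (ρ1 * ρ2)) * (C * t * (ρ1 * ρ2))
        = 4 * (s * t) * (C ^ 2 * (ρ1 * (ρ1 * ρ2 ^ 2))) := by ring
      _ ≤ 4 * (s * t) * C ^ 4 := mul_le_mul_of_nonneg_left hC4 (by positivity)
      _ = 4 * C ^ 4 * (s * t) := by ring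
  · have h1 : Bd _ (β.c1 * β.c3 - β.c2 ^ 2) :=
      bd_sub (bd_mul hsz.sc1 hsz.sc3) (bd_sq hsz.sc2)
    refine bd_mono ?_ h1
    calc C * t * ρ1 ^ 2 * (C * t * ρ2 ^ 2) + C * t * (ρ1 * ρ2) * (C * t * (ρ1 * ρ2))
        = 2 * t ^ 2 * (C ^ 2 * (ρ1 * (ρ1 * ρ2 ^ 2))) := by ring
      _ ≤ 2 * t ^ 2 * C ^ 4 := mul_le_mul_of_nonneg_left hC4 (by positivity)
      _ ≤ 4 * C ^ 4 * t ^ 2 := by nlinarith [show 0 < t ^ 2 * C ^ 4 by positivity]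

private theorem sz_mono {C C' s t ρ1 ρ2 : ℝ} (hCC : C ≤ C') (hs : 0 < s) (ht : 0 < t)
    (hρ1 : 0 < ρ1) (hρ2 : 0 < ρ2) {β : Blk (𝓞 K)} (h : Sz C s t ρ1 ρ2 β) :
    Sz C' s t ρ1 ρ2 β where
  sb1 := bd_mono (by gcongr) h.sb1
  sb2 := bd_mono (by gcongr) h.sb2
  sb3 := bd_mono (by gcongr) h.sb3
  sc1 := bd_mono (by gcongr) h.sc1
  sc2 := bd_mono (by gcongr) h.sc2
  sc3 := bd_mono (by gcongr) h.sc3

theorem block_red : BlockRedStmt K := by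
  intro M hM C hC A
  obtain ⟨s0, hs0⟩ := d1_ne K hM hC
  obtain ⟨Cr, hCr, hdeg⟩ := deg_step K
  have hM1 : (1 : ℝ) ≤ M := by exact_mod_cast Nat.one_le_iff_ne_zero.2 hM
  obtain ⟨C1, hC1d⟩ : ∃ C1 : ℝ, C1 = M * C ^ 5 := ⟨_, rfl⟩
  have hC1 : 1 ≤ C1 := by
    rw [hC1d]
    exact one_le_mul_of_one_le_of_one_le hM1 (one_le_pow₀ hC)
  obtain ⟨M', Ca, hM', hCa, hadm⟩ := adm_sq K hM hC hC1
  obtain ⟨d, hd⟩ : ∃ d, d = Module.finrank ℚ K := ⟨_, rfl⟩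
  rw [← hd] at hdeg
  obtain ⟨K0, hK0⟩ : ∃ K0 : ℝ, K0 = 16 * Cr ^ 2 * 4 ^ (2 * d + 3) := ⟨_, rfl⟩
  have hC0 : 0 < C := by linarith
  have hCr2 : 1 ≤ Cr ^ 2 := one_le_pow₀ hCr
  have h4d : (1 : ℝ) ≤ 4 ^ (2 * d + 3) := one_le_pow₀ (by norm_num)
  have hK1 : 1 ≤ K0 := by
    rw [hK0]
    nlinarith
  have hC4 : 1 ≤ C ^ 4 := one_le_pow₀ hC
  have hC12 : 1 ≤ C1 ^ 2 := one_le_pow₀ hC1
  obtain ⟨C', hC'⟩ : ∃ C' : ℝ, C' = Ca + Cr + K0 * C + 4 * C ^ 4 * C1 ^ 2 + C1 := ⟨_, rfl⟩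
  have hpos1 : 0 ≤ K0 * C := by positivity
  have hpos2 : 0 ≤ 4 * C ^ 4 * C1 ^ 2 := by positivity
  have hle_a : Ca ≤ C' := by linarith
  have hle_r : Cr ≤ C' := by linarith
  have hle_k : K0 * C ≤ C' := by linarith
  have hle_1 : C1 ≤ C' := by linarith
  have hle_c : C ≤ C' := le_trans (le_mul_of_one_le_left hC0.le hK1) hle_k
  have hle_4 : 4 * C ^ 4 * C1 ^ 2 ≤ C' := by linarith
  have hle_4' : 4 * C ^ 4 ≤ C' := le_trans (le_mul_of_one_le_right (by positivity) hC12) hle_4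
  have hC'1 : 1 ≤ C' := hC.trans hle_c
  refine ⟨M', A * (6 * d + 9) + 1, C', s0, hM', hC'1, ?_⟩
  intro s t hR hss u v hAdm ρ1 ρ2 hρ β hSz hAll hRep hAni
  have ht : 0 < t := by
    by_contra hc
    push Not at hc
    have := hR.1
    nlinarith
  have hs : 0 < s := lt_of_lt_of_le ht hR.2
  obtain ⟨X, hXd⟩ : ∃ X, X = Hp C A s := ⟨_, rfl⟩
  rw [← hXd] at hAll hRep
  have hCs : 1 ≤ C * (1 + s) := by nlinarith
  have hX1 : 1 ≤ X := by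
    rw [hXd]
    exact one_le_pow₀ hCs
  have hX0 : 0 ≤ X := by linarith
  -- the final polynomial bound
  have hfin : K0 * X ^ (6 * d + 9) ≤ Hp C' (A * (6 * d + 9) + 1) s := by
    rw [hXd]
    unfold Hp
    rw [← pow_mul, pow_succ', mul_comm K0, mul_comm (C' * (1 + s))]
    have h1 : K0 ≤ C' * (1 + s) := by
      have h2 : K0 ≤ K0 * C := le_mul_of_one_le_right (by linarith) hC
      nlinarith
    refine mul_le_mul ?_ h1 (by linarith) (by positivity)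
    exact pow_le_pow_left₀ (by linarith) (by gcongr) _
  have hXfin : X ≤ Hp C' (A * (6 * d + 9) + 1) s := by
    refine le_trans ?_ hfin
    calc X = 1 * X ^ 1 := by ring
      _ ≤ K0 * X ^ (6 * d + 9) := mul_le_mul hK1 (pow_le_pow_right₀ hX1 (by omega))
          (by positivity) (by linarith)
  have hD1 : β.D1 ≠ 0 := by
    refine hs0 s t ρ1 ρ2 hR hss hρ u v β X hAdm hSz hRep ?_
    rintro ⟨h1, h2⟩
    refine hAni 1 0 (by simp) ⟨?_, ?_⟩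
    · rw [h1]
      ring
    · rw [h2]
      ring
  obtain ⟨hb1, hb2, hb3⟩ := disc_bd K hC hs ht hρ hSz
  have hρ20 : 0 < ρ2 := lt_of_lt_of_le hρ.1 hρ.2.1
  by_cases hD3 : β.D3 = 0
  · -- degenerate cases
    have hfin3 : 16 * Cr ^ 2 * X ^ (2 * d + 3) ≤ Hp C' (A * (6 * d + 9) + 1) s := by
      refine le_trans ?_ hfin
      refine mul_le_mul ?_ (pow_le_pow_right₀ hX1 (by omega)) (by positivity) (by linarith)
      rw [hK0]
      exact le_mul_of_one_le_right (by positivity) h4d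
    by_cases hc1 : β.c1 = 0
    · have hc2 : β.c2 = 0 := by
        have h1 : β.c2 ^ 2 = 0 := by
          have h2 : β.c1 * β.c3 - β.c2 ^ 2 = 0 := hD3
          rw [hc1] at h2
          linear_combination -h2
        exact pow_eq_zero_iff (two_ne_zero) |>.1 h1
      have hc3 : β.c3 ≠ 0 := by
        intro h0
        obtain ⟨π, r, r', h1, h2⟩ := hRep
        apply hAdm.v0
        rw [← h2.e4, hD3]
        unfold Blk.Ac
        rw [hc1, hc2, h0]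
        ring
      have hbne : β.b1 ≠ 0 := by
        intro h0
        refine hAni 1 0 (by simp) ⟨?_, ?_⟩
        · rw [h0]
          ring
        · rw [hc1]
          ring
      obtain ⟨β', g1, g2, g3, g4, g5, g6, g7, g8, g9, g10⟩ := hdeg X hX1 β u v hc1 hc2 hbne hAll hRep
      refine ⟨1, β', one_ne_zero, bd_one hC'1, ?_, ?_, ?_, ?_, all_mono hfin3 g9, ?_,
        Or.inr (Or.inl ?_)⟩
      · rw [g1]
        ring
      · rw [g2]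
        ring
      · rw [g3]
        ring
      · exact adm_mono K hs ht dvd_rfl hle_a (hadm s t u v 1 hs ht one_ne_zero (bd_one hC1) hAdm)
      · have h1 := rep_mono hfin3 g10
        simpa using h1
      · refine ⟨g4, g5, by rw [g6]; exact hc3, by rw [g7]; exact hbne, by rw [g1]; exact hD1, ?_,
          ?_, ?_⟩
        · intro φ
          exact (g8 φ).trans (mul_le_mul_of_nonneg_right hle_r (norm_nonneg _))
        · rw [g1]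
          exact bd_mono (mul_le_mul_of_nonneg_right hle_4' (by positivity)) hb1
        · have h1 : β'.b1 * β'.c3 = β.D2 := by
            rw [g6, g7]
            unfold Blk.D2
            rw [hc1, hc2]
            ring
          rw [h1]
          exact bd_mono (mul_le_mul_of_nonneg_right hle_4' (by positivity)) hb2
    · -- `c₁ ≠ 0`
      have htM : t ≤ M * C ^ 2 := d3_c1 K hM hC hR hρ hAdm hSz hRep hD3 hc1
      have hg : Bd C1 β.c1 := by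
        refine bd_mono ?_ hSz.sc1
        rw [hC1d]
        have h1 : ρ1 ^ 2 ≤ C ^ 2 := pow_le_pow_left₀ hρ.1.le hρ.2.2.1 2
        calc C * t * ρ1 ^ 2 ≤ C * (M * C ^ 2) * C ^ 2 := by
              refine mul_le_mul (mul_le_mul_of_nonneg_left htM hC0.le) h1 (by positivity)
                (by positivity)
          _ = M * C ^ 5 := by ring
      have hcc1 := hAll.2.2.2.1
      have hcc2 := hAll.2.2.2.2.1
      have hdet : β.c2 * 0 - 1 * (-β.c1) = β.c1 := by ring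
      have hD3' : β.c1 * β.c3 - β.c2 ^ 2 = 0 := hD3
      obtain ⟨β1, hβ1⟩ : ∃ β1, β1 = chg β.c2 1 (-β.c1) 0 β := ⟨_, rfl⟩
      have hall1 : β1.All (Bd (4 * X * X ^ 2)) := by
        rw [hβ1]
        exact chg_bd hAll hcc2 (bd_one hX1) (bd_neg hcc1) (bd_zero hX0)
      have hrep1 : Rep (4 * X * X ^ 2) β1 (β.c1 ^ 2 * u) (β.c1 ^ 2 * v) := by
        rw [hβ1]
        exact rep_chg hX0 hX1 hRep hcc2 (bd_one hX1) (bd_neg hcc1) (bd_zero hX0) hdet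
      have e1 : β1.D1 = β.c1 ^ 2 * β.D1 := by rw [hβ1, chg_D1, hdet]
      have e2 : β1.D2 = β.c1 ^ 2 * β.D2 := by rw [hβ1, chg_D2, hdet]
      have e3 : β1.D3 = β.c1 ^ 2 * β.D3 := by rw [hβ1, chg_D3, hdet]
      have hcz1 : β1.c1 = 0 := by
        rw [hβ1]
        simp only [chg]
        linear_combination β.c1 * hD3'
      have hcz2 : β1.c2 = 0 := by
        rw [hβ1]
        simp only [chg]
        ring
      have hcz3 : β1.c3 = β.c1 := by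
        rw [hβ1]
        simp only [chg]
        ring
      have hbz : β1.b1 ≠ 0 := by
        intro h0
        rw [hβ1] at h0
        simp only [chg] at h0
        refine hAni β.c2 (-β.c1) (fun h => hc1 (neg_eq_zero.1 h.2)) ⟨?_, ?_⟩
        · linear_combination h0
        · linear_combination β.c1 * hD3'
      have hXX : 1 ≤ 4 * X * X ^ 2 := by
        have : 1 ≤ X ^ 2 := one_le_pow₀ hX1
        nlinarith
      obtain ⟨β', g1, g2, g3, g4, g5, g6, g7, g8, g9, g10⟩ :=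
        hdeg (4 * X * X ^ 2) hXX β1 _ _ hcz1 hcz2 hbz hall1 hrep1
      have hfin4 : 16 * Cr ^ 2 * (4 * X * X ^ 2) ^ (2 * d + 3) ≤
          Hp C' (A * (6 * d + 9) + 1) s := by
        refine le_trans (le_of_eq ?_) hfin
        rw [hK0]
        have h1 : 4 * X * X ^ 2 = 4 * X ^ 3 := by ring
        have h2 : X ^ (6 * d + 9) = (X ^ 3) ^ (2 * d + 3) := by
          rw [← pow_mul]
          congr 1
          ring
        rw [h1, h2, mul_pow]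
        ring
      have hgsq : Bd (C1 ^ 2) (β.c1 ^ 2) := by
        have := bd_sq hg
        rwa [← pow_two] at this
      refine ⟨β.c1, β', hc1, bd_mono hle_1 hg, ?_, ?_, ?_, ?_, all_mono hfin4 g9,
        rep_mono hfin4 g10, Or.inr (Or.inl ?_)⟩
      · rw [g1, e1]
      · rw [g2, e2]
      · rw [g3, e3]
      · exact adm_mono K hs ht dvd_rfl hle_a (hadm s t u v β.c1 hs ht hc1 hg hAdm)
      · refine ⟨g4, g5, by rw [g6, hcz3]; exact hc1, by rw [g7]; exact hbz, ?_, ?_, ?_, ?_⟩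
        · rw [g1, e1]
          exact mul_ne_zero (pow_ne_zero 2 hc1) hD1
        · intro φ
          exact (g8 φ).trans (mul_le_mul_of_nonneg_right hle_r (norm_nonneg _))
        · rw [g1, e1]
          refine bd_mono ?_ (bd_mul hgsq hb1)
          calc C1 ^ 2 * (4 * C ^ 4 * s ^ 2) = 4 * C ^ 4 * C1 ^ 2 * s ^ 2 := by ring
            _ ≤ C' * s ^ 2 := mul_le_mul_of_nonneg_right hle_4 (by positivity)
        · have h1 : β'.b1 * β'.c3 = β.c1 ^ 2 * β.D2 := by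
            rw [g6, g7, ← e2]
            unfold Blk.D2
            rw [hcz1, hcz2]
            ring
          rw [h1]
          refine bd_mono ?_ (bd_mul hgsq hb2)
          calc C1 ^ 2 * (4 * C ^ 4 * (s * t)) = 4 * C ^ 4 * C1 ^ 2 * (s * t) := by ring
            _ ≤ C' * (s * t) := mul_le_mul_of_nonneg_right hle_4 (by positivity)
  · -- `D3 ≠ 0`
    have hA1 : Adm M' C' s t (1 ^ 2 * u) (1 ^ 2 * v) :=
      adm_mono K hs ht dvd_rfl hle_a (hadm s t u v 1 hs ht one_ne_zero (bd_one hC1) hAdm)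
    have hR1 : Rep (Hp C' (A * (6 * d + 9) + 1) s) β (1 ^ 2 * u) (1 ^ 2 * v) := by
      have h1 := rep_mono hXfin hRep
      simpa using h1
    refine ⟨1, β, one_ne_zero, bd_one hC'1, by ring, by ring, by ring, hA1, all_mono hXfin hAll,
      hR1, ?_⟩
    by_cases hE : β.E = 0
    · refine Or.inr (Or.inr ⟨hE, hD1, hD3, ?_, ?_⟩)
      · exact bd_mono (mul_le_mul_of_nonneg_right hle_4' (by positivity)) hb1
      · exact bd_mono (mul_le_mul_of_nonneg_right hle_4' (by positivity)) hb3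
    · refine Or.inl ⟨ρ1, ρ2, ⟨hρ.1, hρ.2.1, hρ.2.2.1.trans hle_c, hρ.2.2.2.trans hle_c⟩,
        sz_mono K hle_c hs ht hρ.1 hρ20 hSz, ?_, hD1, hD3, hE⟩
      rintro ⟨h1, h2⟩
      refine hAni 1 0 (by simp) ⟨?_, ?_⟩
      · rw [h1]
        ring
      · rw [h2]
        ring

end Pool.Agent.H67.WA
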