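import Mathlib

/-!
# W1: dyadic classes of vectors of sizes (Mathlib only)

PROOF. For `t ∈ S`, `v` let `j t v = ⌈Real.logb 2 (D t v)⌉ : ℤ`, so `D t v ≤ 2 ^ (j t v)` and `2 ^ (j t v) ≤ 2 * D t v` (`j < logb 2 D + 1`;
`D t v > 0`). `|logb 2 (D t v)| ≤ A logb 2 X`, so all `j t v` lie in `Icc (-m) (m + 1)`, `m = ⌈A logb 2 X⌉`; the number of the
functions `κ → Icc (-m) (m+1)` is `(2 m + 2) ^ n`, `n = card κ`, and `2 m + 2 ≤ 2 A logb 2 X + 4`, which is `≤ C' X ^ (ε / (n + 1))`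
(`Real.log_le_rpow_div`), so the number is `≤ C X ^ ε`. `∑_{t ∈ S} w t = ∑_j ∑_{t ∈ S, j t = j} w t` (`Finset.sum_fiberwise_of_maps_to`
into `Fintype.piFinset fun _ => Icc (-m) (m+1)`), every inner sum is `≤ M` (hypothesis with `η v = 2 ^ (j v)`).
-/

set_option autoImplicit false

namespace Pool.Agent.H67.WA

open Finset

theorem dy {κ : Type} [Fintype κ] {ε : ℝ} (hε : 0 < ε) (A : ℕ) : ∃ C : ℝ, 1 ≤ C ∧ ∀ X : ℝ, 1 ≤ X →
    ∀ (ι : Type) (S : Finset ι) (D : ι → κ → ℝ) (w : ι → ℝ) (M : ℝ), 0 ≤ M →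
    (∀ t ∈ S, ∀ v, (X ^ A)⁻¹ ≤ D t v ∧ D t v ≤ X ^ A) →
    (∀ η : κ → ℝ, (∀ v, 0 < η v) → ∀ S' ⊆ S,
      (∀ t ∈ S', ∀ v, D t v ≤ η v ∧ η v ≤ 2 * D t v) → ∑ t ∈ S', w t ≤ M) →
    ∑ t ∈ S, w t ≤ C * X ^ ε * M := by
  classical
  obtain ⟨n, hn⟩ : ∃ n, n = Fintype.card κ := ⟨_, rfl⟩
  obtain ⟨δ, hδ⟩ : ∃ δ : ℝ, δ = ε / (n + 1) := ⟨_, rfl⟩
  have hn1 : (0 : ℝ) < n + 1 := by positivity
  have hδ0 : 0 < δ := by rw [hδ]; exact div_pos hε hn1
  have hlog2 : 0 < Real.log 2 := Real.log_pos (by norm_num)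
  obtain ⟨C', hC'⟩ : ∃ C' : ℝ, C' = 2 * A / (δ * Real.log 2) + 3 := ⟨_, rfl⟩
  have hC'1 : 1 ≤ C' := by
    rw [hC']
    have h1 : 0 ≤ 2 * (A : ℝ) / (δ * Real.log 2) := by positivity
    linarith
  refine ⟨C' ^ n, one_le_pow₀ hC'1, fun X hX ι S D w M hM hD hcl => ?_⟩
  have hX0 : 0 < X := by linarith
  have hXA : 0 < X ^ A := pow_pos hX0 A
  have hlb : 0 ≤ Real.logb 2 X := Real.logb_nonneg (by norm_num) hX
  obtain ⟨a, ha⟩ : ∃ a : ℝ, a = A * Real.logb 2 X := ⟨_, rfl⟩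
  have ha0 : 0 ≤ a := by rw [ha]; positivity
  obtain ⟨m, hm⟩ : ∃ m : ℤ, m = ⌈a⌉ := ⟨_, rfl⟩
  have hm0 : 0 ≤ m := by rw [hm]; exact Int.ceil_nonneg ha0
  have hma : (m : ℝ) < a + 1 := by rw [hm]; exact Int.ceil_lt_add_one a
  have ham : a ≤ m := by rw [hm]; exact Int.le_ceil a
  let g : ι → κ → ℤ := fun t v => ⌈Real.logb 2 (D t v)⌉
  let T : Finset (κ → ℤ) := Fintype.piFinset fun _ => Icc (-m) m
  have hDpos : ∀ t ∈ S, ∀ v, 0 < D t v := fun t ht v => lt_of_lt_of_le (inv_pos.2 hXA) (hD t ht v).1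
  have hmap : ∀ t ∈ S, g t ∈ T := by
    intro t ht
    refine Fintype.mem_piFinset.2 fun v => mem_Icc.2 ?_
    have h1 : Real.logb 2 (D t v) ≤ a := by
      have h2 : Real.logb 2 (D t v) ≤ Real.logb 2 (X ^ A) :=
        Real.logb_le_logb_of_le (by norm_num) (hDpos t ht v) (hD t ht v).2
      rwa [Real.logb_pow, ← ha] at h2
    have h3 : -a ≤ Real.logb 2 (D t v) := by
      have h2 : Real.logb 2 ((X ^ A)⁻¹) ≤ Real.logb 2 (D t v) :=
        Real.logb_le_logb_of_le (by norm_num) (inv_pos.2 hXA) (hD t ht v).1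
      rwa [Real.logb_inv, Real.logb_pow, ← ha] at h2
    constructor
    · have h4 : -(m : ℝ) ≤ (g t v : ℝ) := by
        have h5 : Real.logb 2 (D t v) ≤ (g t v : ℝ) := Int.le_ceil _
        linarith
      exact_mod_cast h4
    · show ⌈Real.logb 2 (D t v)⌉ ≤ m
      rw [Int.ceil_le]
      linarith
  rw [← Finset.sum_fiberwise_of_maps_to hmap]
  have hfib : ∀ y ∈ T, ∑ t ∈ S.filter (fun t => g t = y), w t ≤ M := by
    intro y _
    refine hcl (fun v => (2 : ℝ) ^ (y v)) (fun v => by positivity) _ (filter_subset _ _) ?_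
    intro t ht v
    obtain ⟨htS, hty⟩ := mem_filter.1 ht
    have hDp := hDpos t htS v
    have hy : y v = ⌈Real.logb 2 (D t v)⌉ := by rw [← hty]
    have hD2 : (2 : ℝ) ^ (Real.logb 2 (D t v)) = D t v :=
      Real.rpow_logb (by norm_num) (by norm_num) hDp
    have hz : (2 : ℝ) ^ (y v) = (2 : ℝ) ^ ((y v : ℤ) : ℝ) := (Real.rpow_intCast 2 (y v)).symm
    constructor
    · show D t v ≤ (2 : ℝ) ^ (y v)
      rw [hz]
      conv_lhs => rw [← hD2]
      refine Real.rpow_le_rpow_of_exponent_le (by norm_num) ?_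
      rw [hy]
      exact Int.le_ceil _
    · show (2 : ℝ) ^ (y v) ≤ 2 * D t v
      rw [hz]
      have h5 : (2 : ℝ) ^ ((y v : ℤ) : ℝ) ≤ (2 : ℝ) ^ (Real.logb 2 (D t v) + 1) := by
        refine Real.rpow_le_rpow_of_exponent_le (by norm_num) ?_
        rw [hy]
        exact (Int.ceil_lt_add_one _).le
      rw [Real.rpow_add (by norm_num), hD2, Real.rpow_one, mul_comm] at h5
      exact h5
  refine (sum_le_sum hfib).trans ?_
  rw [sum_const, nsmul_eq_mul]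
  refine mul_le_mul_of_nonneg_right ?_ hM
  have hcard : (T.card : ℝ) = ((2 * m + 1 : ℤ) : ℝ) ^ n := by
    have h1 : T.card = ((2 * m + 1).toNat) ^ n := by
      show (Fintype.piFinset fun _ : κ => Icc (-m) m).card = _
      rw [Fintype.card_piFinset, prod_const, Int.card_Icc, card_univ, ← hn]
      congr 2
      ring
    rw [h1]
    push_cast
    congr 1
    have h2 : ((2 * m + 1).toNat : ℤ) = 2 * m + 1 := Int.toNat_of_nonneg (by omega)
    have h3 : (((2 * m + 1).toNat : ℤ) : ℝ) = ((2 * m + 1 : ℤ) : ℝ) := by rw [h2]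
    rw [Int.cast_natCast] at h3
    rw [h3]
    push_cast
    ring
  rw [hcard]
  have hlogX : Real.logb 2 X ≤ X ^ δ / (δ * Real.log 2) := by
    rw [Real.logb, div_le_iff₀ hlog2]
    have h1 := Real.log_le_rpow_div hX0.le hδ0
    refine h1.trans (le_of_eq ?_)
    field_simp
  have hXδ : 1 ≤ X ^ δ := Real.one_le_rpow hX hδ0.le
  have hb : ((2 * m + 1 : ℤ) : ℝ) ≤ C' * X ^ δ := by
    push_cast
    have h1 : a ≤ A * (X ^ δ / (δ * Real.log 2)) := by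
      rw [ha]
      exact mul_le_mul_of_nonneg_left hlogX (Nat.cast_nonneg A)
    rw [hC', add_mul]
    have h2 : 2 * (A : ℝ) / (δ * Real.log 2) * X ^ δ = 2 * (A * (X ^ δ / (δ * Real.log 2))) := by
      field_simp
    rw [h2]
    nlinarith
  have hb0 : (0 : ℝ) ≤ ((2 * m + 1 : ℤ) : ℝ) := by
    have : (0 : ℤ) ≤ 2 * m + 1 := by omega
    exact_mod_cast this
  calc ((2 * m + 1 : ℤ) : ℝ) ^ n ≤ (C' * X ^ δ) ^ n := pow_le_pow_left₀ hb0 hb n
    _ = C' ^ n * X ^ (δ * n) := by rw [mul_pow, Real.rpow_mul hX0.le, Real.rpow_natCast]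
    _ ≤ C' ^ n * X ^ ε := by
        refine mul_le_mul_of_nonneg_left (Real.rpow_le_rpow_of_exponent_le hX ?_) (by positivity)
        rw [hδ, div_mul_eq_mul_div, div_le_iff₀ hn1]
        nlinarith

end Pool.Agent.H67.WA
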