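import Pool.Agent.H67.WA.Defs
import Pool.Agent.H67.WA.Dy

/-!
# W1: the counting facts in the form used in steps 7, 8

`X` is one bound for all entries, `X ^ ε` absorbs powers of the logarithm and divisor functions.
PROOFS. `f1d`: `H88.A4.box_card` for `S.image (algebraMap (𝓞 K) K)` (injective), `ν = ni I`: `x ≠ y` implies
`ni I ≤ nz (x - y) = nm (x - y)`. If some `R φ = 0` then all elements of `S` are equal, `S.card ≤ 1`. `f1`: `f1d` with `2 R φ`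
(`vol (2 R) = 2 ^ d vol R`). `f1p`: `H88.A4.norm_card` (`S` nonempty: `N ≥ 1`), `(1 + log X) ^ k ≤ C X ^ ε`.
`idc`: `H88.A4.ideal_div d (ε / d)` for `I = span {x}`, `absNorm = nz x ≤ X ^ d` (`Ideal.dvd_iff_le`). `f3`: `H88.A4.div_pairs`.
`ids`: `dy` with `κ = Unit`, `D I = ni I`, `A = 1`, `w = (ni I)⁻¹`: in a class `η / 2 ≤ ni I ≤ η`: at most `C η` ideals
(`H88.A4.ideal_card`, `η ≥ 1`), each `w ≤ 2 / η`: `M = 2 C`.
-/

set_option autoImplicit false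

namespace Pool.Agent.H67.WA

open NumberField Finset H88.A4

variable (K : Type) [Field K] [NumberField K]

private theorem coe_inj' : Function.Injective (fun x : 𝓞 K => (x : K)) :=
  RingOfIntegers.coe_injective

theorem f1d : ∃ C : ℝ, 1 ≤ C ∧ ∀ (I : Ideal (𝓞 K)), I ≠ ⊥ → ∀ R : (K →+* ℂ) → ℝ,
    (∀ φ, 0 ≤ R φ) → ∀ S : Finset (𝓞 K), (∀ x ∈ S, ∀ y ∈ S, x - y ∈ I ∧ ∀ φ, sz φ (x - y) ≤ R φ) →
    (S.card : ℝ) ≤ C * (1 + vol R / ni I) := by
  classical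
  obtain ⟨C, hC, h⟩ := box_card K
  refine ⟨max C 1, le_max_right _ _, fun I hI R hR S hS => ?_⟩
  have hv : 0 ≤ vol R / ni I := div_nonneg (vol_nonneg hR) (ni_nonneg I)
  by_cases h0 : ∀ φ, 0 < R φ
  · have hi : 0 < ni I := lt_of_lt_of_le one_pos (one_le_ni hI)
    have h1 := h (ni I) hi R h0 (S.image fun x : 𝓞 K => (x : K)) ?_ ?_
    · rw [Finset.card_image_of_injective _ (coe_inj' K)] at h1
      exact h1.trans (mul_le_mul_of_nonneg_right (le_max_left _ _) (add_nonneg zero_le_one hv))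
    · intro x hx y hy hxy
      obtain ⟨a, ha, rfl⟩ := Finset.mem_image.1 hx
      obtain ⟨b, hb, rfl⟩ := Finset.mem_image.1 hy
      have hab : a - b ≠ 0 := by
        intro h2
        exact hxy (by rw [sub_eq_zero.1 h2])
      have := ni_le_nz (hS a ha b hb).1 hab
      rw [nz_def] at this
      simpa using this
    · intro x hx y hy φ
      obtain ⟨a, ha, rfl⟩ := Finset.mem_image.1 hx
      obtain ⟨b, hb, rfl⟩ := Finset.mem_image.1 hy
      have := (hS a ha b hb).2 φ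
      unfold sz at this
      simpa using this
  · push Not at h0
    obtain ⟨φ, hφ⟩ := h0
    have h1 : S.card ≤ 1 := by
      rw [Finset.card_le_one]
      intro a ha b hb
      by_contra hab
      have h2 := (hS a ha b hb).2 φ
      have h3 := sz_pos φ (sub_ne_zero.2 hab)
      linarith
    have h2 : (S.card : ℝ) ≤ 1 := by exact_mod_cast h1
    have h3 : (1 : ℝ) * 1 ≤ max C 1 * (1 + vol R / ni I) :=
      mul_le_mul (le_max_right _ _) (by linarith) zero_le_one (by positivity)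
    linarith

theorem f1 : ∃ C : ℝ, 1 ≤ C ∧ ∀ (I : Ideal (𝓞 K)), I ≠ ⊥ → ∀ R : (K →+* ℂ) → ℝ,
    (∀ φ, 0 ≤ R φ) → ∀ S : Finset (𝓞 K), (∀ x ∈ S, x ∈ I ∧ ∀ φ, sz φ x ≤ R φ) →
    (S.card : ℝ) ≤ C * (1 + vol R / ni I) := by
  obtain ⟨C, hC, h⟩ := f1d K
  have h2d : (1 : ℝ) ≤ 2 ^ Module.finrank ℚ K := one_le_pow₀ (by norm_num)
  refine ⟨C * 2 ^ Module.finrank ℚ K, by nlinarith, fun I hI R hR S hS => ?_⟩
  have hv : 0 ≤ vol R / ni I := div_nonneg (vol_nonneg hR) (ni_nonneg I)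
  have h1 := h I hI (fun φ => 2 * R φ) (fun φ => mul_nonneg zero_le_two (hR φ)) S
    fun x hx y hy => ⟨I.sub_mem (hS x hx).1 (hS y hy).1, fun φ => ?_⟩
  · rw [vol_smul] at h1
    refine h1.trans ?_
    rw [mul_assoc]
    apply mul_le_mul_of_nonneg_left _ (by linarith)
    rw [mul_add, mul_one, mul_div_assoc]
    linarith
  · have h3 := sz_sub φ x y
    have h4 := (hS x hx).2 φ
    have h5 := (hS y hy).2 φ
    linarith

theorem f1n : ∃ C : ℝ, 1 ≤ C ∧ ∀ (I : Ideal (𝓞 K)), I ≠ ⊥ → ∀ R : (K →+* ℂ) → ℝ,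
    (∀ φ, 0 ≤ R φ) → ∀ S : Finset (𝓞 K), (∀ x ∈ S, x ≠ 0 ∧ x ∈ I ∧ ∀ φ, sz φ x ≤ R φ) →
    (S.card : ℝ) ≤ C * (vol R / ni I) := by
  obtain ⟨C, hC, h⟩ := f1 K
  refine ⟨2 * C, by linarith, fun I hI R hR S hS => ?_⟩
  rcases S.eq_empty_or_nonempty with rfl | ⟨x, hx⟩
  · have : 0 ≤ vol R / ni I := div_nonneg (vol_nonneg hR) (ni_nonneg I)
    simp only [card_empty, Nat.cast_zero]
    positivity
  · obtain ⟨h0, hxI, hxR⟩ := hS x hx
    have h1 : ni I ≤ vol R := (ni_le_nz hxI h0).trans (nz_le_vol hxR)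
    have h2 : 0 < ni I := lt_of_lt_of_le one_pos (one_le_ni hI)
    have h3 : 1 ≤ vol R / ni I := (one_le_div h2).2 h1
    refine (h I hI R hR S fun x hx => ⟨(hS x hx).2.1, (hS x hx).2.2⟩).trans ?_
    nlinarith

theorem f1p {ε : ℝ} (hε : 0 < ε) : ∃ C : ℝ, 1 ≤ C ∧ ∀ X : ℝ, 1 ≤ X → ∀ (N : ℝ) (S : Finset (𝓞 K)),
    0 ≤ N → (∀ x ∈ S, x ≠ 0 ∧ nz x ≤ N ∧ ∀ φ, sz φ x ≤ X) → (S.card : ℝ) ≤ C * X ^ ε * N := by
  obtain ⟨C, k, hC, h⟩ := norm_card K
  obtain ⟨C2, hC2, h2⟩ := Pool.H63.W1.log_le k ε hε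
  refine ⟨max (C * C2) 1, le_max_right _ _, fun X hX N S hN hS => ?_⟩
  have hX0 : 0 < X := by linarith
  have hXε : 0 < X ^ ε := Real.rpow_pos_of_pos hX0 _
  rcases S.eq_empty_or_nonempty with rfl | ⟨x, hx⟩
  · simp only [card_empty, Nat.cast_zero]
    positivity
  · have hN1 : 1 ≤ N := (one_le_nz (hS x hx).1).trans (hS x hx).2.1
    have h3 := h N X hN1 hX S fun x hx => ⟨(hS x hx).1, (hS x hx).2.1, (hS x hx).2.2⟩
    calc (S.card : ℝ) ≤ C * N * (1 + Real.log X) ^ k := h3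
      _ ≤ C * N * (C2 * X ^ ε) := mul_le_mul_of_nonneg_left (h2 X hX) (by positivity)
      _ = (C * C2) * X ^ ε * N := by ring
      _ ≤ max (C * C2) 1 * X ^ ε * N := by
          apply mul_le_mul_of_nonneg_right _ hN
          exact mul_le_mul_of_nonneg_right (le_max_left _ _) hXε.le

/-- the number of ideals which contain a given element -/
theorem idc {ε : ℝ} (hε : 0 < ε) : ∃ C : ℝ, 1 ≤ C ∧ ∀ X : ℝ, 1 ≤ X → ∀ x : 𝓞 K, x ≠ 0 →
    (∀ φ, sz φ x ≤ X) → ∀ G : Finset (Ideal (𝓞 K)), (∀ I ∈ G, x ∈ I) →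
    (G.card : ℝ) ≤ C * X ^ ε := by
  set d := Module.finrank ℚ K with hd
  have hd0 : (0 : ℝ) < d := by exact_mod_cast Module.finrank_pos
  obtain ⟨C, hC, h⟩ := ideal_div d (ε / d) (by positivity)
  refine ⟨max C 1, le_max_right _ _, fun X hX x hx hxX G hG => ?_⟩
  have hX0 : 0 < X := by linarith
  have h1 := h K le_rfl (Ideal.span {x}) (span_ne hx) G
    fun I hI => Ideal.dvd_iff_le.2 ((Ideal.span_singleton_le_iff_mem I).2 (hG I hI))
  have h2 : (Ideal.absNorm (Ideal.span {x}) : ℝ) ≤ X ^ d := by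
    have h3 := nz_le_vol hxX
    rw [vol_const, nz_ni] at h3
    exact h3
  calc (G.card : ℝ) ≤ C * (Ideal.absNorm (Ideal.span {x}) : ℝ) ^ (ε / d) := h1
    _ ≤ C * (X ^ d) ^ (ε / d) := by
        apply mul_le_mul_of_nonneg_left _ hC.le
        exact Real.rpow_le_rpow (Nat.cast_nonneg _) h2 (by positivity)
    _ = C * X ^ ε := by
        rw [← Real.rpow_natCast, ← Real.rpow_mul hX0.le, mul_div_cancel₀ _ hd0.ne']
    _ ≤ max C 1 * X ^ ε :=
        mul_le_mul_of_nonneg_right (le_max_left _ _) (Real.rpow_nonneg hX0.le _)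

theorem f3 {ε : ℝ} (hε : 0 < ε) : ∃ C : ℝ, 1 ≤ C ∧ ∀ X : ℝ, 1 ≤ X → ∀ n : 𝓞 K, n ≠ 0 →
    ∀ S : Finset (𝓞 K × 𝓞 K), (∀ t ∈ S, t.1 * t.2 = n ∧ ∀ φ, sz φ t.1 ≤ X ∧ sz φ t.2 ≤ X) →
    (S.card : ℝ) ≤ C * X ^ ε := by
  obtain ⟨C, hC, h⟩ := div_pairs K ε hε
  refine ⟨max C 1, le_max_right _ _, fun X hX n hn S hS => ?_⟩
  have hX0 : 0 < X := by linarith
  refine (h X hX n hn S fun t ht => ⟨(hS t ht).1, fun φ => ((hS t ht).2 φ).1,
    fun φ => ((hS t ht).2 φ).2⟩).trans ?_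
  exact mul_le_mul_of_nonneg_right (le_max_left _ _) (Real.rpow_nonneg hX0.le _)

/-- sum of `1 / N` over ideals -/
theorem ids {ε : ℝ} (hε : 0 < ε) : ∃ C : ℝ, 1 ≤ C ∧ ∀ X : ℝ, 1 ≤ X → ∀ G : Finset (Ideal (𝓞 K)),
    (∀ I ∈ G, I ≠ ⊥ ∧ ni I ≤ X) → ∑ I ∈ G, (ni I)⁻¹ ≤ C * X ^ ε := by
  classical
  obtain ⟨C, hC, h⟩ := dy (κ := Unit) hε 1
  obtain ⟨C2, hC2, h2⟩ := ideal_card K
  refine ⟨max (C * (2 * C2)) 1, le_max_right _ _, fun X hX G hG => ?_⟩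
  have hX0 : 0 < X := by linarith
  have h3 := h X hX (Ideal (𝓞 K)) G (fun I _ => ni I) (fun I => (ni I)⁻¹) (2 * C2) (by positivity)
    ?_ ?_
  · calc ∑ I ∈ G, (ni I)⁻¹ ≤ C * X ^ ε * (2 * C2) := h3
      _ = (C * (2 * C2)) * X ^ ε := by ring
      _ ≤ max (C * (2 * C2)) 1 * X ^ ε :=
        mul_le_mul_of_nonneg_right (le_max_left _ _) (Real.rpow_nonneg hX0.le _)
  · intro I hI _
    refine ⟨?_, by simpa using (hG I hI).2⟩
    refine le_trans ?_ (one_le_ni (hG I hI).1)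
    rw [pow_one]
    exact inv_le_one_of_one_le₀ hX
  · intro η hη S' hS' hc
    rcases S'.eq_empty_or_nonempty with rfl | ⟨I0, hI0⟩
    · simp only [sum_empty]
      positivity
    have hη1 : 1 ≤ η () := (one_le_ni (hG I0 (hS' hI0)).1).trans (hc I0 hI0 ()).1
    have h4 := h2 (η ()) hη1 S' fun I hI => ⟨(hG I (hS' hI)).1, (hc I hI ()).1⟩
    calc ∑ I ∈ S', (ni I)⁻¹ ≤ ∑ I ∈ S', 2 / η () := by
          refine Finset.sum_le_sum fun I hI => ?_
          have h5 := (hc I hI ()).2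
          have h6 : 0 < ni I := lt_of_lt_of_le one_pos (one_le_ni (hG I (hS' hI)).1)
          rw [inv_eq_one_div, div_le_div_iff₀ h6 (hη ())]
          linarith
      _ = S'.card * (2 / η ()) := by rw [Finset.sum_const, nsmul_eq_mul]
      _ ≤ (C2 * η ()) * (2 / η ()) := mul_le_mul_of_nonneg_right h4 (by have := hη (); positivity)
      _ = 2 * C2 := by
          have := (hη ()).ne'
          field_simp

end Pool.Agent.H67.WA
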