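import Pool.Agent.H67.WA.Cnt

/-!
# W1 step 8 for one size vector `η` (`c = diag(0, k)`, `k = c₃`)

PROOF. (1) `k`: `f1p` with `N = C1 t^(3d)`: at most `C X ^ ε' C1 t^(3d)` values. (2) for `k`: `b₁ ≠ 0` with
`sz φ b₁ ≤ η φ (s t) / sz φ k`: `f1n` with the ideal `⊤`: at most `C vol η (s t)^d / nz k ≤ C C1 vol η (s t)^d / t^(3d)`
(`nz k ≥ t^(3d) / C1`), and also `nz b₁ ≤ C1 vol η (s t)^d / t^(3d)`. Put `M1 = C1 vol η (s t)^d / t^(3d)`. (3) for `(k, b₁)`: the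
three ideals contain `b₁`, `b₁`, `k`: at most `(C X ^ ε')^3` triples (`idc`). (4) for `(k, b₁, A0, A1, A2)`: `b₂ ∈ A0 * A1` with
`sz φ b₂ ≤ C1 sz φ b₁`: `f1`: at most `C (1 + C1^d nz b₁ / ni (A0 A1)) ≤ 2 C C1^d nz b₁ / (ni A0 ni A1)` (`ni (A0 A1) ≤ nz b₁`).
(5) for fixed `b₂` two values `y, y'` of `b₃` differ by an element of `A0 ⊓ A2 = A0 * A2` (`b₁ (y - y') = D - D' ∈ A2`,
`A2 ⊔ (b₁) = ⊤`; `A0 ⊔ A2 = ⊤` because `b₁ ∈ A0 * A1 ≤ A0`; `Ideal.inf_eq_mul_of_isCoprime`), of size `≤ 2 η φ s² / sz φ b₁`: `f1d`: at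
most `C (1 + 2^d vol η s^(2d) / (nz b₁ ni A0 ni A2))`. The product of (4), (5) and `ni A0 ni A1 ni A2` is at most
`C' (nz b₁ ni A2 + vol η s^(2d))`, `ni A2 ≤ nz k ≤ C1 t^(3d)`. Sum over `b₁` and `k`:
`C X ^ ε t^(3d) M1 (M1 t^(3d) + vol η s^(2d)) ≤ C X ^ ε (vol η)² (s^(2d) t^(2d) + s^(3d) t^d)`, and
`s^(2d) t^(2d) + s^(3d) t^d ≤ 2 C1^(2d) (s t)^(3d)` (`s ≥ t ≥ 1 / C1`).
-/

set_option autoImplicit false

namespace Pool.Agent.H67.WA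

open NumberField Finset H88.A4

variable (K : Type) [Field K] [NumberField K]

variable {K} in
/-- a degenerate block, `c = diag(0, k)`, with three ideals -/
structure Dg (C1 X s t : ℝ) (β : Blk (𝓞 K)) (A : Fin 3 → Ideal (𝓞 K)) : Prop where
  c1 : β.c1 = 0
  c2 : β.c2 = 0
  c3 : β.c3 ≠ 0
  b1 : β.b1 ≠ 0
  d1 : β.D1 ≠ 0
  k1 : t ^ (3 * Module.finrank ℚ K) ≤ C1 * nz β.c3
  k2 : nz β.c3 ≤ C1 * t ^ (3 * Module.finrank ℚ K)
  b2 : ∀ φ, sz φ β.b2 ≤ C1 * sz φ β.b1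
  x : β.All (Bd X)
  m1 : β.b1 ∈ A 0 * A 1
  m2 : β.b2 ∈ A 0 * A 1
  m3 : β.b3 ∈ A 0
  m4 : β.c3 ∈ A 2
  m5 : β.D1 ∈ A 2
  cop : A 2 ⊔ Ideal.span {β.b1} = ⊤

theorem fibs {α β : Type} [DecidableEq β] (S : Finset α) (g : α → β) (w : α → ℝ) {N M : ℝ}
    (hM : 0 ≤ M) (hN : ((S.image g).card : ℝ) ≤ N)
    (h : ∀ y ∈ S.image g, ∑ x ∈ S with g x = y, w x ≤ M) : ∑ x ∈ S, w x ≤ N * M := by
  rw [← Finset.sum_fiberwise_of_maps_to (s := S) (t := S.image g) (g := g)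
    (fun x hx => Finset.mem_image_of_mem g hx)]
  calc _ ≤ ∑ y ∈ S.image g, M := Finset.sum_le_sum h
    _ = (S.image g).card * M := by simp
    _ ≤ N * M := mul_le_mul_of_nonneg_right hN hM

variable {K}

/-- layer 5: the number of `b₃` -/
theorem s8_5 {C1 C : ℝ} (hC : 1 ≤ C) (hf : ∀ (I : Ideal (𝓞 K)), I ≠ ⊥ → ∀ R : (K →+* ℂ) → ℝ,
    (∀ φ, 0 ≤ R φ) → ∀ S : Finset (𝓞 K), (∀ x ∈ S, ∀ y ∈ S, x - y ∈ I ∧ ∀ φ, sz φ (x - y) ≤ R φ) →
    (S.card : ℝ) ≤ C * (1 + vol R / ni I)) {X s t : ℝ}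
    {η : (K →+* ℂ) → ℝ} (hη : ∀ φ, 0 < η φ) (S : Finset (Blk (𝓞 K)))
    (A : Fin 3 → Ideal (𝓞 K)) (b1 b2 k : 𝓞 K) (hb1 : b1 ≠ 0)
    (h : ∀ β ∈ S, Dg C1 X s t β A ∧ (∀ φ, sz φ β.D1 ≤ η φ * s ^ 2) ∧ β.b1 = b1 ∧ β.b2 = b2 ∧
      β.c3 = k) :
    (S.card : ℝ) ≤ C * (1 + 2 ^ Module.finrank ℚ K *
      (vol η * (s ^ 2) ^ Module.finrank ℚ K) / (nz b1 * (ni (A 0) * ni (A 2)))) := by
  classical
  have hV : vol (fun φ => 2 * (η φ * s ^ 2) / sz φ b1) = 2 ^ Module.finrank ℚ K *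
      (vol η * (s ^ 2) ^ Module.finrank ℚ K) / nz b1 := by
    rw [vol_div (fun φ => 2 * (η φ * s ^ 2)) (fun φ => sz φ b1), vol_smul, vol_mul_const]
    rfl
  have hc : S.card = (S.image fun β => β.b3).card := by
    rw [Finset.card_image_of_injOn]
    intro β hβ γ hγ he
    obtain ⟨d1, -, e1, e2, e3⟩ := h β hβ
    obtain ⟨d1', -, e1', e2', e3'⟩ := h γ hγ
    ext
    · rw [e1, e1']
    · rw [e2, e2']
    · exact congrArg _ he
    · rw [d1.c1, d1'.c1]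
    · rw [d1.c2, d1'.c2]
    · rw [e3, e3']
  rcases S.eq_empty_or_nonempty with rfl | ⟨β0, hβ0⟩
  · have h1 : 0 ≤ vol η := vol_nonneg fun φ => (hη φ).le
    have h2 : 0 ≤ nz b1 := nz_nonneg _
    have h3 := ni_nonneg (A 0)
    have h4 := ni_nonneg (A 2)
    simp only [card_empty, Nat.cast_zero]
    positivity
  obtain ⟨D0, -, e0, -, e0'⟩ := h β0 hβ0
  have hcop : A 0 ⊔ A 2 = ⊤ := by
    rw [eq_top_iff, ← D0.cop, sup_comm]
    refine sup_le_sup_right ?_ _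
    rw [Ideal.span_singleton_le_iff_mem]
    exact Ideal.mul_le_left D0.m1
  have hinf : A 0 ⊓ A 2 = A 0 * A 2 := by
    refine (Ideal.mul_eq_inf_of_isCoprime ?_).symm
    rwa [Ideal.isCoprime_iff_sup_eq]
  have hA0 : A 0 ≠ ⊥ := by
    intro h0
    have := Ideal.mul_le_left D0.m1
    rw [h0, Ideal.mem_bot] at this
    exact D0.b1 this
  have hA2 : A 2 ≠ ⊥ := by
    intro h0
    have := D0.m4
    rw [h0, Ideal.mem_bot] at this
    exact D0.c3 this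
  have hne : A 0 * A 2 ≠ ⊥ := by
    rw [Ne, Ideal.mul_eq_bot, not_or]
    exact ⟨hA0, hA2⟩
  have key := hf (A 0 * A 2) hne (fun φ => 2 * (η φ * s ^ 2) / sz φ b1)
    (fun φ => by
      have := hη φ
      have := sz_nonneg φ b1
      positivity) (S.image fun β => β.b3) ?_
  · rw [hc]
    refine key.trans (le_of_eq ?_)
    rw [hV, ni_mul, div_div]
  · intro x hx y hy
    rw [Finset.mem_image] at hx hy
    obtain ⟨β, hβ, rfl⟩ := hx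
    obtain ⟨γ, hγ, rfl⟩ := hy
    obtain ⟨d1, s1, e1, e2, e3⟩ := h β hβ
    obtain ⟨d1', s1', e1', e2', e3'⟩ := h γ hγ
    have hD : b1 * (β.b3 - γ.b3) = β.D1 - γ.D1 := by
      unfold Blk.D1
      rw [e1, e1', e2, e2']
      ring
    constructor
    · rw [← hinf, Ideal.mem_inf]
      refine ⟨(A 0).sub_mem d1.m3 d1'.m3, ?_⟩
      have h1 : (1 : 𝓞 K) ∈ A 2 ⊔ Ideal.span {b1} := by
        have := D0.cop
        rw [e0] at this
        rw [this]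
        trivial
      rw [Submodule.mem_sup] at h1
      obtain ⟨a, ha, c, hc, hac⟩ := h1
      obtain ⟨r, rfl⟩ := Ideal.mem_span_singleton'.1 hc
      have h2 : β.b3 - γ.b3 = a * (β.b3 - γ.b3) + r * (β.D1 - γ.D1) := by
        rw [← hD]
        calc β.b3 - γ.b3 = 1 * (β.b3 - γ.b3) := (one_mul _).symm
          _ = (a + r * b1) * (β.b3 - γ.b3) := by rw [hac]
          _ = _ := by ring
      rw [h2]
      exact (A 2).add_mem ((A 2).mul_mem_right _ ha)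
        ((A 2).mul_mem_left _ ((A 2).sub_mem d1.m5 d1'.m5))
    · intro φ
      have hp := sz_pos φ hb1
      rw [le_div_iff₀ hp, mul_comm (sz φ _), ← sz_mul, hD]
      have := sz_sub φ β.D1 γ.D1
      linarith [s1 φ, s1' φ]

/-- layers 4, 5: the number of `(b₂, b₃)` -/
theorem s8_4 {C1 C : ℝ} (hC1 : 1 ≤ C1) (hC : 1 ≤ C) (hf0 : ∀ (I : Ideal (𝓞 K)), I ≠ ⊥ →
    ∀ R : (K →+* ℂ) → ℝ, (∀ φ, 0 ≤ R φ) → ∀ S : Finset (𝓞 K), (∀ x ∈ S, x ∈ I ∧ ∀ φ, sz φ x ≤ R φ) →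
    (S.card : ℝ) ≤ C * (1 + vol R / ni I))
    (hf : ∀ (I : Ideal (𝓞 K)), I ≠ ⊥ → ∀ R : (K →+* ℂ) → ℝ,
    (∀ φ, 0 ≤ R φ) → ∀ S : Finset (𝓞 K), (∀ x ∈ S, ∀ y ∈ S, x - y ∈ I ∧ ∀ φ, sz φ (x - y) ≤ R φ) →
    (S.card : ℝ) ≤ C * (1 + vol R / ni I)) {X s t : ℝ}
    {η : (K →+* ℂ) → ℝ} (hη : ∀ φ, 0 < η φ) (S : Finset (Blk (𝓞 K)))
    (A : Fin 3 → Ideal (𝓞 K)) (b1 k : 𝓞 K) (hb1 : b1 ≠ 0)
    (h : ∀ β ∈ S, Dg C1 X s t β A ∧ (∀ φ, sz φ β.D1 ≤ η φ * s ^ 2) ∧ β.b1 = b1 ∧ β.c3 = k) :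
    (S.card : ℝ) * (ni (A 0) * ni (A 1) * ni (A 2)) ≤ 2 * C ^ 2 * (2 * C1) ^ Module.finrank ℚ K *
      (nz b1 * ni (A 2) + vol η * (s ^ 2) ^ Module.finrank ℚ K) := by
  classical
  set d := Module.finrank ℚ K with hd
  have hV0 : 0 ≤ vol η * (s ^ 2) ^ d := by
    have h1 : 0 ≤ vol η := vol_nonneg fun φ => (hη φ).le
    positivity
  rcases S.eq_empty_or_nonempty with rfl | ⟨β0, hβ0⟩
  · have h2 : 0 ≤ nz b1 := nz_nonneg _
    have h4 := ni_nonneg (A 2)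
    simp only [card_empty, Nat.cast_zero, zero_mul]
    positivity
  obtain ⟨D0, -, e0, e0'⟩ := h β0 hβ0
  have hA0 : A 0 ≠ ⊥ := by
    intro h0
    have := Ideal.mul_le_left D0.m1
    rw [h0, Ideal.mem_bot] at this
    exact D0.b1 this
  have hA1 : A 1 ≠ ⊥ := by
    intro h0
    have := Ideal.mul_le_right D0.m1
    rw [h0, Ideal.mem_bot] at this
    exact D0.b1 this
  have hA2 : A 2 ≠ ⊥ := by
    intro h0
    have := D0.m4
    rw [h0, Ideal.mem_bot] at this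
    exact D0.c3 this
  have hne : A 0 * A 1 ≠ ⊥ := by
    rw [Ne, Ideal.mul_eq_bot, not_or]
    exact ⟨hA0, hA1⟩
  have ha0 := one_le_ni hA0
  have ha1 := one_le_ni hA1
  have ha2 := one_le_ni hA2
  have hn := one_le_nz hb1
  have hb := ni_le_nz D0.m1 D0.b1
  rw [e0, ni_mul] at hb
  set a0 := ni (A 0)
  set a1 := ni (A 1)
  set a2 := ni (A 2)
  set n1 := nz b1 with hn1
  set V := vol η * (s ^ 2) ^ d with hVd
  have hN5 : 0 ≤ C * (1 + 2 ^ d * V / (n1 * (a0 * a2))) := by positivity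
  have h4 : (S.card : ℝ) ≤ (C * (1 + C1 ^ d * n1 / (a0 * a1))) *
      (C * (1 + 2 ^ d * V / (n1 * (a0 * a2)))) := by
    have h5 : (S.card : ℝ) = ∑ β ∈ S, (1 : ℝ) := by simp
    rw [h5]
    refine fibs S (fun β => β.b2) (fun _ => (1 : ℝ)) hN5 ?_ ?_
    · have := hf0 (A 0 * A 1) hne (fun φ => C1 * sz φ b1)
        (fun φ => by
          have := sz_nonneg φ b1
          positivity) (S.image fun β => β.b2) ?_
      · refine this.trans (le_of_eq ?_)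
        rw [vol_smul, ni_mul]
        rfl
      · intro x hx
        rw [Finset.mem_image] at hx
        obtain ⟨β, hβ, rfl⟩ := hx
        obtain ⟨d1, s1, e1, e3⟩ := h β hβ
        refine ⟨d1.m2, fun φ => ?_⟩
        have := d1.b2 φ
        rwa [e1] at this
    · intro y hy
      have := s8_5 (C1 := C1) (X := X) (t := t) hC hf hη (S.filter fun β => β.b2 = y) A b1 y k hb1
        (fun β hβ => by
          rw [Finset.mem_filter] at hβ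
          obtain ⟨hβ, rfl⟩ := hβ
          obtain ⟨d1, s1, e1, e3⟩ := h β hβ
          exact ⟨d1, s1, e1, rfl, e3⟩)
      simpa using this
  have hc1 : (1 : ℝ) ≤ C1 ^ d := one_le_pow₀ hC1
  have h6 : 1 ≤ n1 / (a0 * a1) := by
    rw [one_le_div (by positivity)]
    exact hb
  have h7 : 1 + C1 ^ d * n1 / (a0 * a1) ≤ 2 * C1 ^ d * (n1 / (a0 * a1)) := by
    rw [mul_div_assoc]
    nlinarith
  calc (S.card : ℝ) * (a0 * a1 * a2)
      ≤ ((C * (2 * C1 ^ d * (n1 / (a0 * a1)))) *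
      (C * (1 + 2 ^ d * V / (n1 * (a0 * a2))))) * (a0 * a1 * a2) := by
        refine mul_le_mul_of_nonneg_right (h4.trans ?_) (by positivity)
        refine mul_le_mul_of_nonneg_right ?_ hN5
        exact mul_le_mul_of_nonneg_left h7 (by positivity)
    _ = 2 * C ^ 2 * C1 ^ d * (n1 * a2 + 2 ^ d * V / a0) := by
        field_simp
    _ ≤ 2 * C ^ 2 * C1 ^ d * (2 ^ d * (n1 * a2) + 2 ^ d * V) := by
        refine mul_le_mul_of_nonneg_left ?_ (by positivity)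
        refine add_le_add ?_ ?_
        · exact le_mul_of_one_le_left (by positivity) (one_le_pow₀ (by norm_num))
        · exact div_le_self (by positivity) ha0
    _ = _ := by
        rw [mul_pow]
        ring

/-- layers 3-5: the ideals and `(b₂, b₃)` -/
theorem s8_3 {C1 C L : ℝ} (hC1 : 1 ≤ C1) (hC : 1 ≤ C) (hL : 0 ≤ L) (hf0 : ∀ (I : Ideal (𝓞 K)),
    I ≠ ⊥ → ∀ R : (K →+* ℂ) → ℝ, (∀ φ, 0 ≤ R φ) → ∀ S : Finset (𝓞 K),
    (∀ x ∈ S, x ∈ I ∧ ∀ φ, sz φ x ≤ R φ) → (S.card : ℝ) ≤ C * (1 + vol R / ni I))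
    (hf : ∀ (I : Ideal (𝓞 K)), I ≠ ⊥ → ∀ R : (K →+* ℂ) → ℝ,
    (∀ φ, 0 ≤ R φ) → ∀ S : Finset (𝓞 K), (∀ x ∈ S, ∀ y ∈ S, x - y ∈ I ∧ ∀ φ, sz φ (x - y) ≤ R φ) →
    (S.card : ℝ) ≤ C * (1 + vol R / ni I)) {X s t : ℝ}
    (hi : ∀ x : 𝓞 K, x ≠ 0 → (∀ φ, sz φ x ≤ X) → ∀ G : Finset (Ideal (𝓞 K)), (∀ I ∈ G, x ∈ I) →
      (G.card : ℝ) ≤ L)
    {η : (K →+* ℂ) → ℝ} (hη : ∀ φ, 0 < η φ) (S : Finset (Blk (𝓞 K)))
    (A : Blk (𝓞 K) → Fin 3 → Ideal (𝓞 K)) (b1 k : 𝓞 K) {M : ℝ} (hM : 0 ≤ M)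
    (h : ∀ β ∈ S, Dg C1 X s t β (A β) ∧ (∀ φ, sz φ β.D1 ≤ η φ * s ^ 2) ∧ β.b1 = b1 ∧ β.c3 = k)
    (hM' : 2 * C ^ 2 * (2 * C1) ^ Module.finrank ℚ K *
      (nz b1 * (C1 * t ^ (3 * Module.finrank ℚ K)) + vol η * (s ^ 2) ^ Module.finrank ℚ K) ≤ M) :
    ∑ β ∈ S, ni (A β 0) * ni (A β 1) * ni (A β 2) ≤ L * (L * (L * M)) := by
  classical
  rcases S.eq_empty_or_nonempty with rfl | ⟨β0, hβ0⟩
  · simp only [sum_empty]
    positivity
  obtain ⟨D0, -, e0, e0'⟩ := h β0 hβ0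
  have hb1 : b1 ≠ 0 := by
    rw [← e0]
    exact D0.b1
  have hbX : ∀ φ, sz φ b1 ≤ X := fun φ => by
    have := D0.x.1 φ
    rwa [e0] at this
  have hk : k ≠ 0 := by
    rw [← e0']
    exact D0.c3
  have hkX : ∀ φ, sz φ k ≤ X := fun φ => by
    have := D0.x.2.2.2.2.2 φ
    rwa [e0'] at this
  refine fibs S (fun β => A β 0) _ (by positivity) (hi b1 hb1 hbX _ ?_) ?_
  · intro I hI
    rw [Finset.mem_image] at hI
    obtain ⟨β, hβ, rfl⟩ := hI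
    obtain ⟨d1, -, e1, -⟩ := h β hβ
    rw [← e1]
    exact Ideal.mul_le_left d1.m1
  intro I0 _
  refine fibs _ (fun β => A β 1) _ (by positivity) (hi b1 hb1 hbX _ ?_) ?_
  · intro I hI
    rw [Finset.mem_image] at hI
    obtain ⟨β, hβ, rfl⟩ := hI
    rw [Finset.mem_filter] at hβ
    obtain ⟨d1, -, e1, -⟩ := h β hβ.1
    rw [← e1]
    exact Ideal.mul_le_right d1.m1
  intro I1 _
  refine fibs _ (fun β => A β 2) _ hM (hi k hk hkX _ ?_) ?_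
  · intro I hI
    rw [Finset.mem_image] at hI
    obtain ⟨β, hβ, rfl⟩ := hI
    rw [Finset.mem_filter, Finset.mem_filter] at hβ
    obtain ⟨d1, -, -, e3⟩ := h β hβ.1.1
    rw [← e3]
    exact d1.m4
  intro I2 hI2
  obtain ⟨γ, hγ, hγ2⟩ := Finset.mem_image.1 hI2
  rw [Finset.mem_filter, Finset.mem_filter] at hγ
  have hI2n : ni I2 ≤ C1 * t ^ (3 * Module.finrank ℚ K) := by
    obtain ⟨d1, -, -, e3⟩ := h γ hγ.1.1
    refine le_trans ?_ d1.k2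
    rw [← hγ2]
    exact ni_le_nz d1.m4 d1.c3
  have h4 := s8_4 (X := X) (t := t) (C1 := C1) hC1 hC hf0 hf hη
    (((S.filter fun β => A β 0 = I0).filter fun β => A β 1 = I1).filter fun β => A β 2 = I2)
    ![I0, I1, I2] b1 k hb1 (fun β hβ => by
      simp only [Finset.mem_filter] at hβ
      obtain ⟨⟨⟨hβ, h0⟩, h1⟩, h2⟩ := hβ
      have hA : A β = ![I0, I1, I2] := by
        funext i
        fin_cases i
        · exact h0
        · exact h1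
        · exact h2
      have := h β hβ
      rwa [hA] at this)
  have hs : ∑ β ∈ ((S.filter fun β => A β 0 = I0).filter fun β => A β 1 = I1).filter
      fun β => A β 2 = I2, ni (A β 0) * ni (A β 1) * ni (A β 2) =
      ((((S.filter fun β => A β 0 = I0).filter fun β => A β 1 = I1).filter
        fun β => A β 2 = I2).card : ℝ) * (ni I0 * ni I1 * ni I2) := by
    rw [← nsmul_eq_mul, ← Finset.sum_const]
    refine Finset.sum_congr rfl fun β hβ => ?_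
    simp only [Finset.mem_filter] at hβ
    obtain ⟨⟨⟨hβ, h0⟩, h1⟩, h2⟩ := hβ
    rw [h0, h1, h2]
  rw [hs]
  refine (h4.trans ?_).trans hM'
  refine mul_le_mul_of_nonneg_left ?_ (by positivity)
  have hn := nz_nonneg b1
  have : nz b1 * ni I2 ≤ nz b1 * (C1 * t ^ (3 * Module.finrank ℚ K)) :=
    mul_le_mul_of_nonneg_left hI2n hn
  simp only [Matrix.cons_val] at *
  linarith

variable (K)

theorem s8a {ε : ℝ} (hε : 0 < ε) {C1 : ℝ} (hC1 : 1 ≤ C1) : ∃ C : ℝ, 1 ≤ C ∧ ∀ X s t : ℝ, 1 ≤ X →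
    Rg C1 s t → ∀ η : (K →+* ℂ) → ℝ, (∀ φ, 0 < η φ) →
    ∀ (S : Finset (Blk (𝓞 K))) (A : Blk (𝓞 K) → Fin 3 → Ideal (𝓞 K)),
    (∀ β ∈ S, Dg C1 X s t β (A β) ∧ ∀ φ, sz φ β.D1 ≤ η φ * s ^ 2 ∧
      sz φ (β.b1 * β.c3) ≤ η φ * (s * t)) →
    ∑ β ∈ S, ni (A β 0) * ni (A β 1) * ni (A β 2) ≤
      C * X ^ ε * ((s * t) ^ (3 * Module.finrank ℚ K) * vol η ^ 2) := by
  classical
  obtain ⟨c1, hc1, f1'⟩ := f1 K
  obtain ⟨c2, hc2, f1d'⟩ := f1d K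
  obtain ⟨c3, hc3, f1n'⟩ := f1n K
  obtain ⟨c4, hc4, f1p'⟩ := f1p K (ε := ε / 4) (by linarith)
  obtain ⟨c5, hc5, idc'⟩ := idc K (ε := ε / 4) (by linarith)
  set d := Module.finrank ℚ K with hd
  set C := c1 + c2 with hCd
  have hC : 1 ≤ C := by linarith
  refine ⟨c4 * c3 * c5 ^ 3 * C1 ^ 2 * (2 * C ^ 2 * (2 * C1) ^ d) * (2 * C1 ^ 2 * C1 ^ (2 * d)),
    ?_, ?_⟩
  · have h1 : (1 : ℝ) ≤ C1 ^ (2 * d) := one_le_pow₀ hC1
    have h2 : (1 : ℝ) ≤ (2 * C1) ^ d := one_le_pow₀ (by linarith)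
    have h3 : (1 : ℝ) ≤ C1 ^ 2 := one_le_pow₀ hC1
    have h4 : (1 : ℝ) ≤ C ^ 2 := one_le_pow₀ hC
    have h5 : (1 : ℝ) ≤ c5 ^ 3 := one_le_pow₀ hc5
    refine one_le_mul_of_one_le_of_one_le (one_le_mul_of_one_le_of_one_le
      (one_le_mul_of_one_le_of_one_le (one_le_mul_of_one_le_of_one_le
      (one_le_mul_of_one_le_of_one_le hc4 hc3) h5) h3) ?_) ?_
    · exact one_le_mul_of_one_le_of_one_le (by linarith) h2
    · exact one_le_mul_of_one_le_of_one_le (by linarith) h1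
  intro X s t hX hR η hη S A h
  obtain ⟨hR1, hR2⟩ := hR
  have ht : 0 < t := by
    by_contra hcon
    push Not at hcon
    nlinarith
  have hs : 0 < s := by linarith
  have hX0 : 0 < X := by linarith
  set x := X ^ (ε / 4) with hx
  have hx0 : 0 < x := Real.rpow_pos_of_pos hX0 _
  have hx4 : x ^ 4 = X ^ ε := by
    rw [hx, ← Real.rpow_natCast, ← Real.rpow_mul hX0.le]
    congr 1
    push_cast
    ring
  have hv : 0 < vol η := vol_pos hη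
  set σ := s ^ d with hσ
  set τ := t ^ d with hτ
  have hσ0 : 0 < σ := pow_pos hs _
  have hτ0 : 0 < τ := pow_pos ht _
  have hτ3 : t ^ (3 * d) = τ ^ 3 := by
    rw [hτ, ← pow_mul, mul_comm]
  have hστ : (s * t) ^ (3 * d) = (σ * τ) ^ 3 := by
    rw [hσ, hτ, ← mul_pow, ← pow_mul, mul_comm d 3]
  have hσ2 : (s ^ 2) ^ d = σ ^ 2 := by
    rw [hσ, ← pow_mul, ← pow_mul, mul_comm]
  have hτ1 : 1 ≤ C1 ^ d * τ := by
    rw [hτ, ← mul_pow]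
    exact one_le_pow₀ hR1
  have hτσ : τ ≤ σ := pow_le_pow_left₀ ht.le hR2 _
  set M1 := C1 * vol η * (σ * τ) / τ ^ 3 with hM1
  have hM1' : 0 ≤ M1 := by positivity
  set M := 2 * C ^ 2 * (2 * C1) ^ d * (M1 * (C1 * τ ^ 3) + vol η * σ ^ 2) with hM
  have hM0 : 0 ≤ M := by positivity
  have hf0 : ∀ (I : Ideal (𝓞 K)), I ≠ ⊥ → ∀ R : (K →+* ℂ) → ℝ, (∀ φ, 0 ≤ R φ) →
      ∀ S : Finset (𝓞 K), (∀ x ∈ S, x ∈ I ∧ ∀ φ, sz φ x ≤ R φ) →
      (S.card : ℝ) ≤ C * (1 + vol R / ni I) := by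
    intro I hI R hR S hS
    refine (f1' I hI R hR S hS).trans (mul_le_mul_of_nonneg_right (by linarith) ?_)
    have := div_nonneg (vol_nonneg hR) (ni_nonneg I)
    linarith
  have hf : ∀ (I : Ideal (𝓞 K)), I ≠ ⊥ → ∀ R : (K →+* ℂ) → ℝ, (∀ φ, 0 ≤ R φ) →
      ∀ S : Finset (𝓞 K), (∀ x ∈ S, ∀ y ∈ S, x - y ∈ I ∧ ∀ φ, sz φ (x - y) ≤ R φ) →
      (S.card : ℝ) ≤ C * (1 + vol R / ni I) := by
    intro I hI R hR S hS
    refine (f1d' I hI R hR S hS).trans (mul_le_mul_of_nonneg_right (by linarith) ?_)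
    have := div_nonneg (vol_nonneg hR) (ni_nonneg I)
    linarith
  -- layer 1
  have hL : 0 ≤ c5 * x := by positivity
  have main : ∑ β ∈ S, ni (A β 0) * ni (A β 1) * ni (A β 2) ≤
      (c4 * x * (C1 * τ ^ 3)) * ((c3 * M1) * ((c5 * x) * ((c5 * x) * ((c5 * x) * M)))) := by
    refine fibs S (fun β => β.c3) _ (by positivity) ?_ ?_
    · refine f1p' X hX (C1 * τ ^ 3) _ (by positivity) fun k hk => ?_
      rw [Finset.mem_image] at hk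
      obtain ⟨β, hβ, rfl⟩ := hk
      obtain ⟨D, -⟩ := h β hβ
      refine ⟨D.c3, ?_, fun φ => D.x.2.2.2.2.2 φ⟩
      rw [← hτ3]
      exact D.k2
    intro k hk
    obtain ⟨γ, hγ, hγk⟩ := Finset.mem_image.1 hk
    have hk0 : k ≠ 0 := by
      rw [← hγk]
      exact (h γ hγ).1.c3
    have hkn : τ ^ 3 ≤ C1 * nz k := by
      rw [← hγk, ← hτ3]
      exact (h γ hγ).1.k1
    have hnk := nz_pos hk0
    have hvol : vol (fun φ => η φ * (s * t) / sz φ k) ≤ M1 := by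
      rw [vol_div (fun φ => η φ * (s * t)) (fun φ => sz φ k), vol_mul_const, mul_pow]
      change vol η * (σ * τ) / nz k ≤ _
      rw [hM1, div_le_div_iff₀ hnk (by positivity)]
      have : 0 ≤ vol η * (σ * τ) := by positivity
      nlinarith
    refine fibs _ (fun β => β.b1) _ (by positivity) ?_ ?_
    · have := f1n' ⊤ top_ne_bot (fun φ => η φ * (s * t) / sz φ k) (fun φ => by
        have := hη φ
        have := sz_nonneg φ k
        positivity) ((S.filter fun β => β.c3 = k).image fun β => β.b1) ?_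
      · rw [ni_top, div_one] at this
        exact this.trans (mul_le_mul_of_nonneg_left hvol (by linarith))
      · intro b hb
        rw [Finset.mem_image] at hb
        obtain ⟨β, hβ, rfl⟩ := hb
        rw [Finset.mem_filter] at hβ
        obtain ⟨D, hD⟩ := h β hβ.1
        refine ⟨D.b1, Submodule.mem_top, fun φ => ?_⟩
        rw [le_div_iff₀ (sz_pos φ hk0), ← sz_mul, ← hβ.2]
        exact (hD φ).2
    intro b hb
    obtain ⟨γ', hγ', hγb⟩ := Finset.mem_image.1 hb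
    rw [Finset.mem_filter] at hγ'
    have hbn : nz b ≤ M1 := by
      refine le_trans ?_ hvol
      refine nz_le_vol fun φ => ?_
      rw [le_div_iff₀ (sz_pos φ hk0), ← sz_mul, ← hγ'.2, ← hγb]
      exact ((h γ' hγ'.1).2 φ).2
    refine s8_3 (X := X) (s := s) (t := t) (C1 := C1) hC1 hC hL hf0 hf (idc' X hX) hη _ A b k hM0
      ?_ ?_
    · intro β hβ
      simp only [Finset.mem_filter] at hβ
      obtain ⟨⟨hβ, e3⟩, e1⟩ := hβ
      obtain ⟨D, hD⟩ := h β hβ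
      exact ⟨D, fun φ => (hD φ).1, e1, e3⟩
    · rw [hM, ← hd, hτ3, hσ2]
      refine mul_le_mul_of_nonneg_left ?_ (by positivity)
      have : nz b * (C1 * τ ^ 3) ≤ M1 * (C1 * τ ^ 3) :=
        mul_le_mul_of_nonneg_right hbn (by positivity)
      linarith
  refine main.trans ?_
  rw [hστ, ← hx4]
  have hMτ : M1 * τ ^ 3 = C1 * vol η * (σ * τ) := by
    rw [hM1]
    field_simp
  have e1 : (c4 * x * (C1 * τ ^ 3)) * ((c3 * M1) * ((c5 * x) * ((c5 * x) * ((c5 * x) * M)))) =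
      (c4 * c3 * c5 ^ 3 * C1 ^ 2 * (2 * C ^ 2 * (2 * C1) ^ d)) * x ^ 4 *
        ((σ * τ) * (C1 ^ 2 * (σ * τ) + σ ^ 2) * vol η ^ 2) := by
    have e2 : M = 2 * C ^ 2 * (2 * C1) ^ d * (C1 * (C1 * vol η * (σ * τ)) + vol η * σ ^ 2) := by
      rw [hM, ← hMτ]
      ring
    rw [e2]
    calc _ = (c4 * c3 * c5 ^ 3 * C1) * x ^ 4 * (M1 * τ ^ 3) *
        (2 * C ^ 2 * (2 * C1) ^ d * (C1 * (C1 * vol η * (σ * τ)) + vol η * σ ^ 2)) := by ring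
      _ = _ := by
        rw [hMτ]
        ring
  rw [e1]
  have e3 : (σ * τ) * (C1 ^ 2 * (σ * τ) + σ ^ 2) ≤ (2 * C1 ^ 2 * C1 ^ (2 * d)) * (σ * τ) ^ 3 := by
    have g1 : 1 ≤ C1 ^ (2 * d) * τ ^ 2 := by
      have : C1 ^ (2 * d) * τ ^ 2 = (C1 ^ d * τ) ^ 2 := by
        have h0 : C1 ^ (2 * d) = (C1 ^ d) ^ 2 := by rw [← pow_mul, mul_comm]
        rw [h0]
        ring
      rw [this]
      exact one_le_pow₀ hτ1
    have g2 : (1 : ℝ) ≤ C1 ^ 2 := one_le_pow₀ hC1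
    have g3 : C1 ^ 2 * (σ * τ) ≤ C1 ^ 2 * σ ^ 2 := by
      refine mul_le_mul_of_nonneg_left ?_ (by positivity)
      nlinarith
    have g4 : σ ^ 2 ≤ C1 ^ 2 * σ ^ 2 := le_mul_of_one_le_left (by positivity) g2
    have g5 : C1 ^ 2 * (σ * τ) + σ ^ 2 ≤ 2 * C1 ^ 2 * σ ^ 2 := by linarith
    calc (σ * τ) * (C1 ^ 2 * (σ * τ) + σ ^ 2) ≤ (σ * τ) * (2 * C1 ^ 2 * σ ^ 2) :=
          mul_le_mul_of_nonneg_left g5 (by positivity)
      _ ≤ (σ * τ) * (2 * C1 ^ 2 * σ ^ 2) * (C1 ^ (2 * d) * τ ^ 2) :=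
          le_mul_of_one_le_right (by positivity) g1
      _ = _ := by ring
  calc _ ≤ (c4 * c3 * c5 ^ 3 * C1 ^ 2 * (2 * C ^ 2 * (2 * C1) ^ d)) * x ^ 4 *
        ((2 * C1 ^ 2 * C1 ^ (2 * d)) * (σ * τ) ^ 3 * vol η ^ 2) := by
        refine mul_le_mul_of_nonneg_left ?_ (by positivity)
        exact mul_le_mul_of_nonneg_right e3 (by positivity)
    _ = _ := by ring

end Pool.Agent.H67.WA
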