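import Pool.Agent.H88.A4.Defs

/-!
# W1 step 6: change of the basis of the plane `<x1, x2>`

`G = (g h; k l)` (columns = the new `x1`, `x2`: `x1' = g x1 + k x2`, `x2' = h x1 + l x2`), determinant `g l - h k`.
-/

set_option autoImplicit false

namespace Pool.Agent.H67.WA

open H88.A4

variable {R : Type} [CommRing R]

/-- the value of the form `(x1, x2, x3)` at `(x, y)` -/
def qf (x1 x2 x3 x y : R) : R := x1 * x ^ 2 + 2 * x2 * (x * y) + x3 * y ^ 2

/-- the blocks in the new basis -/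
def chg (g h k l : R) (β : Blk R) : Blk R where
  b1 := β.b1 * g ^ 2 + 2 * β.b2 * (g * k) + β.b3 * k ^ 2
  b2 := β.b1 * (g * h) + β.b2 * (g * l + h * k) + β.b3 * (k * l)
  b3 := β.b1 * h ^ 2 + 2 * β.b2 * (h * l) + β.b3 * l ^ 2
  c1 := β.c1 * g ^ 2 + 2 * β.c2 * (g * k) + β.c3 * k ^ 2
  c2 := β.c1 * (g * h) + β.c2 * (g * l + h * k) + β.c3 * (k * l)
  c3 := β.c1 * h ^ 2 + 2 * β.c2 * (h * l) + β.c3 * l ^ 2

/-- the rows in the new basis -/
def chr (g h k l : R) (π : Row R) : Row R where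
  p1 := g * π.p1 + k * π.p2
  p2 := h * π.p1 + l * π.p2
  q1 := g * π.q1 + k * π.q2
  q2 := h * π.q1 + l * π.q2

theorem chg_D1 (g h k l : R) (β : Blk R) : (chg g h k l β).D1 = (g * l - h * k) ^ 2 * β.D1 := by
  simp only [chg, Blk.D1]
  ring

theorem chg_D2 (g h k l : R) (β : Blk R) : (chg g h k l β).D2 = (g * l - h * k) ^ 2 * β.D2 := by
  simp only [chg, Blk.D2]
  ring

theorem chg_D3 (g h k l : R) (β : Blk R) : (chg g h k l β).D3 = (g * l - h * k) ^ 2 * β.D3 := by
  simp only [chg, Blk.D3]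
  ring

theorem chg_sol (g h k l : R) {β : Blk R} {π : Row R} {r r' u v : R} (H : Sol β π r r' u v) :
    Sol (chg g h k l β) (chr g h k l π) r r' ((g * l - h * k) ^ 2 * u) ((g * l - h * k) ^ 2 * v) where
  e1 := by
    rw [chg_D1, ← H.e1]
    simp only [chg, chr, Blk.Ab, Blk.D1]
    ring
  e2 := by
    have := H.e2
    rw [chg_D1, chg_D2]
    have h1 : (chg g h k l β).Ac (chr g h k l π).p1 (chr g h k l π).p2 (chr g h k l π).p1
        (chr g h k l π).p2 = (g * l - h * k) ^ 2 * β.Ac π.p1 π.p2 π.p1 π.p2 := by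
      simp only [chg, chr, Blk.Ac]
      ring
    have h2 : (chg g h k l β).Ab (chr g h k l π).p1 (chr g h k l π).p2 (chr g h k l π).q1
        (chr g h k l π).q2 = (g * l - h * k) ^ 2 * β.Ab π.p1 π.p2 π.q1 π.q2 := by
      simp only [chg, chr, Blk.Ab]
      ring
    rw [h1, h2]
    linear_combination (g * l - h * k) ^ 2 * this
  e3 := by
    have := H.e3
    rw [chg_D2, chg_D3]
    have h1 : (chg g h k l β).Ab (chr g h k l π).q1 (chr g h k l π).q2 (chr g h k l π).q1
        (chr g h k l π).q2 = (g * l - h * k) ^ 2 * β.Ab π.q1 π.q2 π.q1 π.q2 := by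
      simp only [chg, chr, Blk.Ab]
      ring
    have h2 : (chg g h k l β).Ac (chr g h k l π).p1 (chr g h k l π).p2 (chr g h k l π).q1
        (chr g h k l π).q2 = (g * l - h * k) ^ 2 * β.Ac π.p1 π.p2 π.q1 π.q2 := by
      simp only [chg, chr, Blk.Ac]
      ring
    rw [h1, h2]
    linear_combination (g * l - h * k) ^ 2 * this
  e4 := by
    rw [chg_D3, ← H.e4]
    simp only [chg, chr, Blk.Ac, Blk.D3]
    ring

end Pool.Agent.H67.WA
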