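import Pool.Agent.H67.WA.N2B
import Pool.Agent.H88.A4.Iface2

/-!
# W2 (every number field): STEP 7' = `Main2Stmt` from the completions lemma over `k`

As in `Main`: `ε1 = ε / (2 (A + 1))`, `H = Hp C (A + 1) s`. The blocks are conjugate (`c = τ(b)`), so that `tb` is injective on
them; `n2b` (over `M`, `[M : ℚ] = 2 [k : ℚ]`) gives `Σ (1 + N g ∏ Dt^(-3/4)) ≤ C H^ε1 s^(3 [M : ℚ])`.
-/

set_option autoImplicit false

namespace Pool.Agent.H67.WA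

open NumberField Finset H88.A4

variable (k M : Type) [Field k] [NumberField k] [Field M] [NumberField M] [Algebra k M]

private theorem dt_pos_n {s t : ℝ} (hs : 0 < s) {β : Blk (𝓞 M)} (hD : β.D1 ≠ 0) (φ : M →+* ℂ) :
    0 < Dt s t β φ := by
  unfold Dt
  refine lt_of_lt_of_le ?_ (le_max_left _ _)
  have h1 := sz_pos φ hD
  unfold sz at h1
  positivity

private theorem prod_dt_n {s t : ℝ} (hs : 0 < s) {β : Blk (𝓞 M)} (hD : β.D1 ≠ 0) :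
    ∏ φ : M →+* ℂ, Dt s t β φ ^ (-(3 / 4) : ℝ) =
      (Real.sqrt (Real.sqrt (vol (Dt s t β))))⁻¹ ^ 3 := by
  have hp : ∀ φ, 0 < Dt s t β φ := fun φ => dt_pos_n M hs hD φ
  rw [Real.finsetProd_rpow _ _ (fun φ _ => (hp φ).le)]
  have hv : 0 < vol (Dt s t β) := vol_pos hp
  change vol (Dt s t β) ^ (-(3 / 4) : ℝ) = _
  rw [Real.sqrt_eq_rpow, Real.sqrt_eq_rpow, ← Real.rpow_mul hv.le, ← Real.rpow_neg hv.le,
    ← Real.rpow_natCast, ← Real.rpow_mul hv.le]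
  norm_num

variable {M} in
private theorem all_mono_n {β : Blk (𝓞 M)} {X Y : ℝ} (hXY : X ≤ Y) (h : β.All (Bd X)) :
    β.All (Bd Y) := by
  obtain ⟨h1, h2, h3, h4, h5, h6⟩ := h
  exact ⟨fun φ => (h1 φ).trans hXY, fun φ => (h2 φ).trans hXY, fun φ => (h3 φ).trans hXY,
    fun φ => (h4 φ).trans hXY, fun φ => (h5 φ).trans hXY, fun φ => (h6 φ).trans hXY⟩

variable {k M} in
private theorem rep_mono_n {τ : M ≃ₐ[k] M} {β : Blk (𝓞 M)} {u : 𝓞 M} {X Y : ℝ} (hXY : X ≤ Y)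
    (h : Rep2 τ X β u) : Rep2 τ Y β u := by
  obtain ⟨π, r, r', hc, ⟨h1, h2, h3, h4⟩, h5⟩ := h
  exact ⟨π, r, r', hc, ⟨fun φ => (h1 φ).trans hXY, fun φ => (h2 φ).trans hXY,
    fun φ => (h3 φ).trans hXY, fun φ => (h4 φ).trans hXY⟩, h5⟩

variable {k M} in
private theorem cj_inj {τ : M ≃ₐ[k] M} {β γ : Blk (𝓞 M)} (hβ : β.Cj τ) (hγ : γ.Cj τ)
    (h : tb β = tb γ) : β = γ := by
  refine tbc_inj h ?_
  obtain ⟨h1, h2, h3⟩ := hβ
  obtain ⟨g1, g2, g3⟩ := hγ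
  simp only [tb, Prod.mk.injEq] at h
  obtain ⟨e1, e2, e3⟩ := h
  simp only [tc, Prod.mk.injEq]
  exact ⟨by rw [h1, g1, e1], by rw [h2, g2, e2], by rw [h3, g3, e3]⟩

theorem main2_of (h : Completions2Stmt k M) : Main2Stmt k M := by
  classical
  intro τ hτ m hm C hC A ε hε
  set ε1 : ℝ := ε / (2 * ((A : ℝ) + 1)) with hε1
  have hA1 : (0 : ℝ) < (A : ℝ) + 1 := by positivity
  have hε1p : 0 < ε1 := by positivity
  obtain ⟨C', hC', h'⟩ := h τ hτ m hm C hC ε1 hε1p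
  obtain ⟨C2, hC2, h7⟩ := n2b M hε1p hC
  have hC0 : (0 : ℝ) < C := lt_of_lt_of_le one_pos hC
  refine ⟨C' * C2 * (C * (1 + C)) ^ ε, by positivity, ?_⟩
  intro s ρ1 ρ2 hCs hRho S hS
  have hs : 0 < s := by
    by_contra hcon
    push Not at hcon
    have : C * s ≤ 0 := mul_nonpos_of_nonneg_of_nonpos hC0.le hcon
    linarith
  set B : ℝ := C * (1 + s) with hB
  have hB1 : 1 ≤ B := by
    rw [hB]
    nlinarith
  have hB0 : 0 < B := lt_of_lt_of_le one_pos hB1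
  set H : ℝ := Hp C (A + 1) s with hH
  have hHB : H = B ^ (A + 1) := rfl
  have hH1 : 1 ≤ H := by
    rw [hHB]
    exact one_le_pow₀ hB1
  have hBH : B ≤ H := by
    rw [hHB]
    exact le_self_pow₀ hB1 (Nat.succ_ne_zero A)
  have hsB : s ≤ B := by
    rw [hB]
    nlinarith
  have hsH : s ≤ H := hsB.trans hBH
  have hAH : Hp C A s ≤ H := by
    rw [hHB]
    exact pow_le_pow_right₀ hB1 (Nat.le_succ A)
  have h'' : ∀ β : Blk (𝓞 M), (β.Cj τ ∧ β.E ≠ 0 ∧ β.D1 ≠ 0 ∧ β.All (Bd H)) →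
      ∃ g : Ideal (𝓞 M), Squarefree g ∧ (β.b1 ∈ g ∧ β.b2 ∈ g ∧ β.b3 ∈ g) ∧
        ∀ S : Finset (𝓞 M), (∀ u ∈ S, Adm m C s s u (tO τ u) ∧ Rep2 τ H β u) →
          (S.card : ℝ) ≤ C' * H ^ ε1 *
            (1 + Ideal.absNorm g * ∏ φ : M →+* ℂ, Dt s s β φ ^ (-(3 / 4) : ℝ)) :=
    fun β hβ => h' s H hs hsH hH1 β hβ.1 hβ.2.1 hβ.2.2.1 hβ.2.2.2
  choose! g hg using h''
  set T : Finset (Blk (𝓞 M)) := S.image fun x => x.2 with hT
  have hTP : ∀ β ∈ T, Sz C s s ρ1 ρ2 β ∧ β.Cj τ ∧ β.All (Bd H) ∧ β.D1 ≠ 0 ∧ β.b1 ≠ 0 ∧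
      β.E ≠ 0 := by
    intro β hβ
    rw [hT, Finset.mem_image] at hβ
    obtain ⟨x, hx, rfl⟩ := hβ
    obtain ⟨-, ⟨h1, h2, h3, h4, h5⟩, h6, -⟩ := hS x hx
    exact ⟨h1, h2, all_mono_n hAH h6, h4, h3, h5⟩
  have hinj : Set.InjOn tb (T : Set (Blk (𝓞 M))) := by
    intro β hβ γ hγ hbg
    exact cj_inj (hTP β hβ).2.1 (hTP γ hγ).2.1 hbg
  set Ng : Blk (𝓞 M) → ℝ := fun β => (Ideal.absNorm (g β) : ℝ) with hNg
  have hsum := h7 H s ρ1 ρ2 hH1 hsH hCs hRho T Ng hinj (by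
    intro β hβ
    obtain ⟨h1, h2, h3, h4, h5, h6⟩ := hTP β hβ
    obtain ⟨-, ⟨hb1, hb2, hb3⟩, -⟩ := hg β ⟨h2, h6, h4, h3⟩
    refine ⟨h1, h3, h4, h5, by positivity, ?_⟩
    exact ni_le_of_le (cn_le hb1 hb2 hb3) (cn_ne (by rw [dt_tb]; exact h4)))
  have hfib : ∀ β ∈ T, ((S.filter fun x => x.2 = β).card : ℝ) ≤
      C' * H ^ ε1 * (1 + Ng β * (Real.sqrt (Real.sqrt (vol (Dt s s β))))⁻¹ ^ 3) := by
    intro β hβ
    obtain ⟨h1, h2, h3, h4, h5, h6⟩ := hTP β hβ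
    obtain ⟨-, -, hcount⟩ := hg β ⟨h2, h6, h4, h3⟩
    have hc := hcount ((S.filter fun x => x.2 = β).image fun x => x.1) (by
      intro y hy
      rw [Finset.mem_image] at hy
      obtain ⟨x, hx, rfl⟩ := hy
      rw [Finset.mem_filter] at hx
      obtain ⟨hx1, hx2⟩ := hx
      obtain ⟨h7', -, -, h8⟩ := hS x hx1
      rw [← hx2]
      exact ⟨h7', rep_mono_n hAH h8⟩)
    rw [Finset.card_image_of_injOn, prod_dt_n M hs h4] at hc
    · exact hc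
    · intro x hx y hy hxy
      simp only [Finset.coe_filter, Set.mem_ofPred_eq] at hx hy
      exact Prod.ext hxy (hx.2.trans hy.2.symm)
  have hcard : (S.card : ℝ) = ∑ β ∈ T, ((S.filter fun x => x.2 = β).card : ℝ) := by
    rw [Finset.card_eq_sum_card_image (fun x => x.2) S, Nat.cast_sum]
  have hHe : (H ^ ε1) * (H ^ ε1) ≤ (C * (1 + C)) ^ ε * s ^ ε := by
    have hH0 : 0 < H := lt_of_lt_of_le one_pos hH1
    rw [← Real.rpow_add hH0, hHB, ← Real.rpow_natCast, ← Real.rpow_mul hB0.le,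
      ← Real.mul_rpow (by positivity) hs.le]
    have he : ((A + 1 : ℕ) : ℝ) * (ε1 + ε1) = ε := by
      rw [hε1]
      push_cast
      field_simp
      ring
    rw [he]
    refine Real.rpow_le_rpow hB0.le ?_ hε.le
    have h1 : 1 + s ≤ (1 + C) * s := by nlinarith
    calc B = C * (1 + s) := hB
      _ ≤ C * ((1 + C) * s) := mul_le_mul_of_nonneg_left h1 hC0.le
      _ = C * (1 + C) * s := by ring
  have hfr : Module.finrank ℚ M = 2 * Module.finrank ℚ k := by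
    rw [← Module.finrank_mul_finrank ℚ k M, hτ.deg]
    ring
  have hrp : s ^ (6 * (Module.finrank ℚ k : ℝ) + ε) =
      s ^ (3 * Module.finrank ℚ M) * s ^ ε := by
    rw [Real.rpow_add hs, hfr, ← Real.rpow_natCast]
    congr 2
    push_cast
    ring
  have hH0 : 0 < H := lt_of_lt_of_le one_pos hH1
  have hHp : 0 < H ^ ε1 := Real.rpow_pos_of_pos hH0 _
  calc (S.card : ℝ) = ∑ β ∈ T, ((S.filter fun x => x.2 = β).card : ℝ) := hcard
    _ ≤ ∑ β ∈ T, C' * H ^ ε1 * (1 + Ng β * (Real.sqrt (Real.sqrt (vol (Dt s s β))))⁻¹ ^ 3) :=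
        Finset.sum_le_sum hfib
    _ = C' * H ^ ε1 * ∑ β ∈ T, (1 + Ng β * (Real.sqrt (Real.sqrt (vol (Dt s s β))))⁻¹ ^ 3) := by
        rw [Finset.mul_sum]
    _ ≤ C' * H ^ ε1 * (C2 * H ^ ε1 * s ^ (3 * Module.finrank ℚ M)) :=
        mul_le_mul_of_nonneg_left hsum (by positivity)
    _ = C' * C2 * (H ^ ε1 * H ^ ε1) * s ^ (3 * Module.finrank ℚ M) := by ring
    _ ≤ C' * C2 * ((C * (1 + C)) ^ ε * s ^ ε) * s ^ (3 * Module.finrank ℚ M) := by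
        refine mul_le_mul_of_nonneg_right ?_ (by positivity)
        exact mul_le_mul_of_nonneg_left hHe (by positivity)
    _ = C' * C2 * (C * (1 + C)) ^ ε * s ^ (6 * (Module.finrank ℚ k : ℝ) + ε) := by
        rw [hrp]
        ring

end Pool.Agent.H67.WA
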