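import Pool.Agent.H67.WA.IdU
import Pool.Agent.H67.WA.Chg

/-!
# W1 step 6: `D1 ≠ 0` for large `s`, `t` bounded if `D3 = 0 ≠ c₁`

PROOFS (`d = [K : ℚ]`). `d1_ne`: suppose `D1 = 0`. `e1`: `u = - Ab(p, p)`. `b₁ Ab(p,p) = (b₁ p₂ - b₂ p₁)² + D1 p₁²`,
`b₃ Ab(p,p) = (b₃ p₁ - b₂ p₂)² + D1 p₂²`. If `b₁ ≠ 0`: `u b₁ = - (b₁ p₂ - b₂ p₁)²`, `sq_u`: `nz u ≤ M^(2d) nz b₁`;
`(s³/C)^d ≤ nz u`, `nz b₁ ≤ (C s ρ₁²)^d ≤ (C³ s)^d`: so `s³ / C ≤ M² C³ s` (`pow_le_pow_left` for `d ≥ 1`), `s² ≤ M² C⁴`. If `b₁ = 0`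
then `b₂ = 0`, `b₃ ≠ 0` (otherwise `u = 0`), `u b₃ = - (b₃ p₁)²`: `s³ / C ≤ M² C s ρ₂²`, `s² ≤ M² C² ρ₂²`. (`hani` at `(1, 0)`) `c₁ ≠ 0`:
`1 ≤ nz c₁ ≤ (C t ρ₁²)^d`, `1 ≤ C t ρ₁²`; `ρ₁² ρ₂⁴ ≤ C²`, so `ρ₂⁴ ≤ C² C t ≤ C³ s`, `s⁴ ≤ M⁴ C⁴ C³ s`, `s³ ≤ M⁴ C⁷`. So
`s0 = M⁴ C⁷ + M² C⁴ + 1` works (`M ≥ 1`).
`d3_c1`: `D3 = 0`, `c₁ ≠ 0`: `e4`: `v = - Ac(q, q)`, `v c₁ = - (c₁ q₂ - c₂ q₁)²`, `sq_u`: `(t³/C)^d ≤ M^(2d) (C t ρ₁²)^d ≤ M^(2d) (C³ t)^d`: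
`t² ≤ M² C⁴`, `t ≤ M C²`.
-/

set_option autoImplicit false

namespace Pool.Agent.H67.WA

open NumberField Finset H88.A4

variable (K : Type) [Field K] [NumberField K]

variable {K} in
private theorem d1_core {M : ℕ} (hM : M ≠ 0) {C s R : ℝ} (hC : 1 ≤ C) (hs : 0 < s) (hR : 0 ≤ R)
    {u x z : 𝓞 K} (hu : u ≠ 0) (hx : x ≠ 0)
    (hsq : ∀ I : Ideal (𝓞 K), I ^ 2 ∣ Ideal.span {u} → I ∣ Ideal.span {(M : 𝓞 K)})
    (huge : ∀ φ : K →+* ℂ, s ^ 3 ≤ C * ‖φ (u : K)‖) (hb : Bd (C * s * R) x)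
    (h : u * x = - z ^ 2) : s ^ 2 ≤ (M : ℝ) ^ 2 * C ^ 2 * R := by
  have hd : Module.finrank ℚ K ≠ 0 := Module.finrank_pos.ne'
  have h1 := sq_u hM hu hx hsq h
  have h2 : (s ^ 3) ^ Module.finrank ℚ K ≤ C ^ Module.finrank ℚ K * nz u := by
    rw [← vol_const (K := K) (s ^ 3), nz, ← vol_smul]
    exact vol_mono (fun _ => by positivity) fun φ => huge φ
  have h3 : nz x ≤ (C * s * R) ^ Module.finrank ℚ K := by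
    rw [← vol_const (K := K) (C * s * R)]
    exact nz_le_vol fun φ => hb φ
  have h4 : (s ^ 3) ^ Module.finrank ℚ K ≤
      (C * ((M : ℝ) ^ 2 * (C * s * R))) ^ Module.finrank ℚ K := by
    calc (s ^ 3) ^ Module.finrank ℚ K ≤ C ^ Module.finrank ℚ K * nz u := h2
      _ ≤ C ^ Module.finrank ℚ K * (((M : ℝ) ^ Module.finrank ℚ K) ^ 2 *
          (C * s * R) ^ Module.finrank ℚ K) := by
          refine mul_le_mul_of_nonneg_left (h1.trans ?_) (by positivity)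
          exact mul_le_mul_of_nonneg_left h3 (by positivity)
      _ = (C * ((M : ℝ) ^ 2 * (C * s * R))) ^ Module.finrank ℚ K := by
          rw [mul_pow C, mul_pow ((M : ℝ) ^ 2), ← pow_mul, ← pow_mul, mul_comm (Module.finrank ℚ K) 2]
  have h5 : s ^ 3 ≤ C * ((M : ℝ) ^ 2 * (C * s * R)) :=
    (pow_le_pow_iff_left₀ (by positivity) (by positivity) hd).1 h4
  have h6 : s * s ^ 2 ≤ s * ((M : ℝ) ^ 2 * C ^ 2 * R) := by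
    have e1 : s * s ^ 2 = s ^ 3 := by ring
    have e2 : s * ((M : ℝ) ^ 2 * C ^ 2 * R) = C * ((M : ℝ) ^ 2 * (C * s * R)) := by ring
    rw [e1, e2]
    exact h5
  exact le_of_mul_le_mul_left h6 hs

theorem d1_ne {M : ℕ} (hM : M ≠ 0) {C : ℝ} (hC : 1 ≤ C) : ∃ s0 : ℝ, ∀ s t ρ1 ρ2 : ℝ, Rg C s t →
    s0 ≤ s → Rho C ρ1 ρ2 → ∀ (u v : 𝓞 K) (β : Blk (𝓞 K)) (H : ℝ), Adm M C s t u v →
    Sz C s t ρ1 ρ2 β → Rep H β u v → ¬ (β.b1 = 0 ∧ β.c1 = 0) → β.D1 ≠ 0 := by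
  refine ⟨(M : ℝ) ^ 4 * C ^ 7 + (M : ℝ) ^ 2 * C ^ 4 + 1, ?_⟩
  intro s t ρ1 ρ2 hRg hs0 hρ u v β H ha hz hr hbc hD
  have hM1 : (1 : ℝ) ≤ M := by exact_mod_cast Nat.one_le_iff_ne_zero.2 hM
  have hC0 : 0 < C := by linarith
  have hM4 : (1 : ℝ) ≤ (M : ℝ) ^ 4 * C ^ 7 :=
    one_le_mul_of_one_le_of_one_le (one_le_pow₀ hM1) (one_le_pow₀ hC)
  have hM2 : (1 : ℝ) ≤ (M : ℝ) ^ 2 * C ^ 4 :=
    one_le_mul_of_one_le_of_one_le (one_le_pow₀ hM1) (one_le_pow₀ hC)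
  have hs : 1 < s := by linarith
  have hs' : 0 < s := by linarith
  obtain ⟨hr1, hr12, hr1C, hr122⟩ := hρ
  obtain ⟨htC, hts⟩ := hRg
  obtain ⟨π, r, r', -, hsol⟩ := hr
  have hsol1 := hsol.e1
  have ht0 : 0 < t := by
    by_contra hcon
    push Not at hcon
    have : C * t ≤ 0 := mul_nonpos_of_nonneg_of_nonpos hC0.le hcon
    linarith
  rw [hD, mul_zero, zero_sub] at hsol1
  by_cases hb1 : β.b1 = 0
  · have hc1 : β.c1 ≠ 0 := fun h => hbc ⟨hb1, h⟩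
    have hb2 : β.b2 = 0 := by
      have h1 := hD
      unfold Blk.D1 at h1
      rw [hb1, zero_mul, zero_sub, neg_eq_zero] at h1
      exact pow_eq_zero_iff (two_ne_zero) |>.1 h1
    have hu : u = - (β.b3 * π.p1 ^ 2) := by
      rw [← hsol1]
      unfold Blk.Ab
      rw [hb1, hb2]
      ring
    have hb3 : β.b3 ≠ 0 := by
      intro h
      apply ha.u0
      rw [hu, h]
      ring
    have h1 : s ^ 2 ≤ (M : ℝ) ^ 2 * C ^ 2 * ρ2 ^ 2 := by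
      refine d1_core hM hC hs' (by positivity) ha.u0 hb3 ha.squ ha.uge hz.sb3
        (z := β.b3 * π.p1) ?_
      rw [hu]
      ring
    have h2 : 1 ≤ C * t * ρ1 ^ 2 := by
      have h3 : nz β.c1 ≤ (C * t * ρ1 ^ 2) ^ Module.finrank ℚ K := by
        rw [← vol_const (K := K) (C * t * ρ1 ^ 2)]
        exact nz_le_vol fun φ => hz.sc1 φ
      have h4 : (1 : ℝ) ^ Module.finrank ℚ K ≤ (C * t * ρ1 ^ 2) ^ Module.finrank ℚ K := by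
        rw [one_pow]
        exact (one_le_nz hc1).trans h3
      exact (pow_le_pow_iff_left₀ zero_le_one (by positivity) Module.finrank_pos.ne').1 h4
    have hρ2 : 0 < ρ2 := by linarith
    have h5 : ρ2 ^ 4 ≤ C ^ 3 * s := by
      have e1 : (ρ1 * ρ2 ^ 2) ^ 2 ≤ C ^ 2 := pow_le_pow_left₀ (by positivity) hr122 2
      calc ρ2 ^ 4 ≤ ρ2 ^ 4 * (C * t * ρ1 ^ 2) := le_mul_of_one_le_right (by positivity) h2
        _ = C * t * (ρ1 * ρ2 ^ 2) ^ 2 := by ring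
        _ ≤ C * s * C ^ 2 := by gcongr
        _ = C ^ 3 * s := by ring
    have h6 : s ^ 4 ≤ (M : ℝ) ^ 4 * C ^ 7 * s := by
      calc s ^ 4 = (s ^ 2) ^ 2 := by ring
        _ ≤ ((M : ℝ) ^ 2 * C ^ 2 * ρ2 ^ 2) ^ 2 := by gcongr
        _ = (M : ℝ) ^ 4 * C ^ 4 * ρ2 ^ 4 := by ring
        _ ≤ (M : ℝ) ^ 4 * C ^ 4 * (C ^ 3 * s) := by gcongr
        _ = (M : ℝ) ^ 4 * C ^ 7 * s := by ring
    have h7 : s ^ 3 ≤ (M : ℝ) ^ 4 * C ^ 7 := by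
      have e1 : s * s ^ 3 ≤ s * ((M : ℝ) ^ 4 * C ^ 7) := by
        have e2 : s * s ^ 3 = s ^ 4 := by ring
        rw [e2, mul_comm s]
        exact h6
      exact le_of_mul_le_mul_left e1 hs'
    have h8 : s ≤ s ^ 3 := by
      calc s = s ^ 1 := (pow_one s).symm
        _ ≤ s ^ 3 := pow_le_pow_right₀ hs.le (by norm_num)
    linarith
  · have h1 : s ^ 2 ≤ (M : ℝ) ^ 2 * C ^ 2 * ρ1 ^ 2 := by
      refine d1_core hM hC hs' (by positivity) ha.u0 hb1 ha.squ ha.uge hz.sb1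
        (z := β.b1 * π.p2 - β.b2 * π.p1) ?_
      have h2 : β.b1 * β.b3 - β.b2 ^ 2 = 0 := hD
      rw [← hsol1]
      unfold Blk.Ab
      linear_combination (-π.p1 ^ 2) * h2
    have h2 : s ^ 2 ≤ (M : ℝ) ^ 2 * C ^ 4 := by
      calc s ^ 2 ≤ (M : ℝ) ^ 2 * C ^ 2 * ρ1 ^ 2 := h1
        _ ≤ (M : ℝ) ^ 2 * C ^ 2 * C ^ 2 := by gcongr
        _ = (M : ℝ) ^ 2 * C ^ 4 := by ring
    have h8 : s ≤ s ^ 2 := by
      calc s = s ^ 1 := (pow_one s).symm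
        _ ≤ s ^ 2 := pow_le_pow_right₀ hs.le (by norm_num)
    linarith

theorem d3_c1 {M : ℕ} (hM : M ≠ 0) {C : ℝ} (hC : 1 ≤ C) {s t ρ1 ρ2 : ℝ} (hR : Rg C s t)
    (hρ : Rho C ρ1 ρ2) {u v : 𝓞 K} {β : Blk (𝓞 K)} {H : ℝ} (ha : Adm M C s t u v)
    (hs : Sz C s t ρ1 ρ2 β) (hr : Rep H β u v) (h3 : β.D3 = 0) (hc : β.c1 ≠ 0) :
    t ≤ M * C ^ 2 := by
  have hC0 : 0 < C := by linarith
  obtain ⟨hr1, hr12, hr1C, hr122⟩ := hρ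
  obtain ⟨htC, hts⟩ := hR
  obtain ⟨π, r, r', -, hsol⟩ := hr
  have hsol4 := hsol.e4
  have ht0 : 0 < t := by
    by_contra hcon
    push Not at hcon
    have : C * t ≤ 0 := mul_nonpos_of_nonneg_of_nonpos hC0.le hcon
    linarith
  rw [h3, mul_zero, zero_sub] at hsol4
  have h1 : t ^ 2 ≤ (M : ℝ) ^ 2 * C ^ 2 * ρ1 ^ 2 := by
    refine d1_core hM hC ht0 (by positivity) ha.v0 hc ha.sqv ha.vge hs.sc1
      (z := β.c1 * π.q2 - β.c2 * π.q1) ?_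
    have h2 : β.c1 * β.c3 - β.c2 ^ 2 = 0 := h3
    rw [← hsol4]
    unfold Blk.Ac
    linear_combination (-π.q1 ^ 2) * h2
  have h2 : t ^ 2 ≤ ((M : ℝ) * C ^ 2) ^ 2 := by
    calc t ^ 2 ≤ (M : ℝ) ^ 2 * C ^ 2 * ρ1 ^ 2 := h1
      _ ≤ (M : ℝ) ^ 2 * C ^ 2 * C ^ 2 := by gcongr
      _ = ((M : ℝ) * C ^ 2) ^ 2 := by ring
  exact (pow_le_pow_iff_left₀ ht0.le (by positivity) two_ne_zero).1 h2

end Pool.Agent.H67.WA
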