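import Pool.Agent.H67.WA.Cnt

/-!
# W1 step 7, blocks with `b₁₁ = 0` or `b₂₂ = 0`

PROOF. `nbb` (`b₁₁ = 0`): `dt b = - b₁₂ ^ 2`, so `b₁₂ ≠ 0`, `sz φ b₁₂ ≤ √(T v)` (`sz φ (dt b) = (sz φ b₁₂) ^ 2`). `b = (0, x, y)`,
`x = b₁₂`. Let `P = S.image b₁₂` (at most `C vol √T = C √(vol T)` elements by `f1n` with the ideal `⊤`, `ni ⊤ = 1`). For
`x ∈ P` let `S_x = S.filter (b₁₂ = x)`, `G_x = S_x.image cn`: every `I ∈ G_x` contains `x`, so `#G_x ≤ C X ^ ε` (`idc`) and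
`ni I ≤ nz x ≤ √(vol T)`. `∑_{b ∈ S_x} ni (cn b) = ∑_{I ∈ G_x} ni I * #{b ∈ S_x, cn b = I}` and the last number is at most
`C (1 + vol G / ni I)` (`f1` for the `b₂₂ ∈ I`), so the sum is `≤ C ∑_{I ∈ G_x} (ni I + vol G) ≤ C ^ 2 X ^ ε (√(vol T) + vol G)`.
`nbc` (`b₂₂ = 0`, `b₁₁ ≠ 0`): the same with `f1n` for the `b₁₁ ∈ I`, `b₁₁ ≠ 0`: `ni I * C vol G / ni I = C vol G`.
-/

set_option autoImplicit false

namespace Pool.Agent.H67.WA

open NumberField Finset H88.A4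

variable (K : Type) [Field K] [NumberField K]

open scoped Classical in
/-- the common part: fibres over `b₁₂` and the content -/
private theorem nb_core {ε : ℝ} (hε : 0 < ε) : ∃ C : ℝ, 1 ≤ C ∧ ∀ X : ℝ, 1 ≤ X →
    ∀ T : (K →+* ℂ) → ℝ, (∀ φ, 0 ≤ T φ) → ∀ (M : ℝ) (S : Finset (T3 K)), 0 ≤ M →
    (∀ b ∈ S, b.1 * b.2.2 = 0 ∧ dt b ≠ 0 ∧ ∀ φ, sz φ b.2.1 ≤ X ∧ sz φ (dt b) ≤ T φ) →
    (∀ (x : 𝓞 K) (I : Ideal (𝓞 K)), I ≠ ⊥ → ni I ≤ Real.sqrt (vol T) →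
      ((S.filter fun b : T3 K => b.2.1 = x ∧ cn b = I).card : ℝ) * ni I ≤ M) →
    ∑ b ∈ S, ni (cn b) ≤ C * X ^ ε * (Real.sqrt (vol T) * M) := by
  classical
  obtain ⟨C2, hC2, h2⟩ := f1n K
  obtain ⟨C3, hC3, h3⟩ := idc K hε
  refine ⟨C2 * C3, one_le_mul_of_one_le_of_one_le hC2 hC3, fun X hX T hT M S hM hS hF => ?_⟩
  have hX0 : 0 < X := by linarith
  have hXε : 0 < X ^ ε := Real.rpow_pos_of_pos hX0 _
  have hdt : ∀ b ∈ S, dt b = -(b.2.1 ^ 2) := fun b hb => by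
    unfold dt
    rw [(hS b hb).1, zero_sub]
  have hx0 : ∀ b ∈ S, b.2.1 ≠ 0 := fun b hb h => (hS b hb).2.1 (by rw [hdt b hb, h]; simp)
  have hxT : ∀ b ∈ S, ∀ φ, sz φ b.2.1 ≤ Real.sqrt (T φ) := fun b hb φ => by
    refine Real.le_sqrt_of_sq_le ?_
    rw [← sz_pow, ← sz_neg, ← hdt b hb]
    exact ((hS b hb).2.2 φ).2
  have hvs : vol (fun φ => Real.sqrt (T φ)) = Real.sqrt (vol T) := vol_sqrt hT
  have hsq : 0 ≤ Real.sqrt (vol T) := Real.sqrt_nonneg _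
  set P : Finset (𝓞 K) := S.image (fun b => b.2.1) with hP
  have hPc : (P.card : ℝ) ≤ C2 * Real.sqrt (vol T) := by
    have h4 := h2 ⊤ top_ne_bot (fun φ => Real.sqrt (T φ)) (fun φ => Real.sqrt_nonneg _) P
      (fun x hx => by
        obtain ⟨b, hb, rfl⟩ := Finset.mem_image.1 hx
        exact ⟨hx0 b hb, Submodule.mem_top, hxT b hb⟩)
    rwa [ni_top, div_one, hvs] at h4
  have hmaps : ∀ b ∈ S, b.2.1 ∈ P := fun b hb => Finset.mem_image_of_mem _ hb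
  rw [← Finset.sum_fiberwise_of_maps_to hmaps]
  have hterm : ∀ x ∈ P, ∑ b ∈ S with b.2.1 = x, ni (cn b) ≤ C3 * X ^ ε * M := by
    intro x hx
    set Sx := S.filter (fun b => b.2.1 = x) with hSx
    have hmx : ∀ b ∈ Sx, b ∈ S ∧ b.2.1 = x := fun b hb => Finset.mem_filter.1 hb
    obtain ⟨b0, hb0, hbx⟩ := Finset.mem_image.1 hx
    have hxne : x ≠ 0 := hbx ▸ hx0 b0 hb0
    set G : Finset (Ideal (𝓞 K)) := Sx.image cn with hG
    have hGc : (G.card : ℝ) ≤ C3 * X ^ ε := by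
      refine h3 X hX x hxne (fun φ => hbx ▸ ((hS b0 hb0).2.2 φ).1) G fun I hI => ?_
      obtain ⟨b, hb, rfl⟩ := Finset.mem_image.1 hI
      exact (hmx b hb).2 ▸ cn_2 b
    have hm2 : ∀ b ∈ Sx, cn b ∈ G := fun b hb => Finset.mem_image_of_mem _ hb
    rw [← Finset.sum_fiberwise_of_maps_to hm2]
    have hterm2 : ∀ I ∈ G, ∑ b ∈ Sx with cn b = I, ni (cn b) ≤ M := by
      intro I hI
      obtain ⟨b1, hb1, hbI⟩ := Finset.mem_image.1 hI
      rw [Finset.sum_congr rfl (fun b hb => by rw [(Finset.mem_filter.1 hb).2]), Finset.sum_const,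
        nsmul_eq_mul]
      have hI0 : I ≠ ⊥ := hbI ▸ cn_ne (hS b1 (hmx b1 hb1).1).2.1
      have hIs : ni I ≤ Real.sqrt (vol T) := by
        rw [← hvs]
        refine (ni_le_nz (x := x) ?_ hxne).trans (nz_le_vol fun φ => ?_)
        · rw [← (hmx b1 hb1).2, ← hbI]
          exact cn_2 b1
        · rw [← hbx]
          exact hxT b0 hb0 φ
      have h5 := hF x I hI0 hIs
      have h6 : Sx.filter (fun b => cn b = I) = S.filter (fun b => b.2.1 = x ∧ cn b = I) := by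
        rw [hSx, Finset.filter_filter]
      rw [h6]
      exact h5
    refine (Finset.sum_le_card_nsmul _ _ _ hterm2).trans ?_
    rw [nsmul_eq_mul]
    exact mul_le_mul_of_nonneg_right hGc hM
  refine (Finset.sum_le_card_nsmul _ _ _ hterm).trans ?_
  rw [nsmul_eq_mul]
  calc (P.card : ℝ) * (C3 * X ^ ε * M) ≤ (C2 * Real.sqrt (vol T)) * (C3 * X ^ ε * M) :=
        mul_le_mul_of_nonneg_right hPc (by positivity)
    _ = _ := by ring

theorem nbb {ε : ℝ} (hε : 0 < ε) : ∃ C : ℝ, 1 ≤ C ∧ ∀ X : ℝ, 1 ≤ X → ∀ G T : (K →+* ℂ) → ℝ,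
    (∀ φ, 0 ≤ G φ) → (∀ φ, 0 ≤ T φ) → ∀ S : Finset (T3 K),
    (∀ b ∈ S, b.1 = 0 ∧ dt b ≠ 0 ∧ ∀ φ, sz φ b.2.1 ≤ X ∧ sz φ b.2.2 ≤ G φ ∧
      sz φ (dt b) ≤ T φ) →
    ∑ b ∈ S, ni (cn b) ≤ C * X ^ ε * (Real.sqrt (vol T) * (Real.sqrt (vol T) + vol G)) := by
  classical
  obtain ⟨C1, hC1, h1⟩ := f1 K
  obtain ⟨C2, hC2, h2⟩ := nb_core K hε
  refine ⟨C2 * C1, one_le_mul_of_one_le_of_one_le hC2 hC1, fun X hX G T hG hT S hS => ?_⟩
  have hvG := vol_nonneg hG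
  have hsq : 0 ≤ Real.sqrt (vol T) := Real.sqrt_nonneg _
  have h3 := h2 X hX T hT (C1 * (Real.sqrt (vol T) + vol G)) S (by positivity)
    (fun b hb => ⟨by rw [(hS b hb).1, zero_mul], (hS b hb).2.1, fun φ =>
      ⟨((hS b hb).2.2 φ).1, ((hS b hb).2.2 φ).2.2⟩⟩) (fun x I hI hIs => by
      have hni : 0 < ni I := lt_of_lt_of_le one_pos (one_le_ni hI)
      set F := S.filter (fun b => b.2.1 = x ∧ cn b = I) with hF
      have hinj : Set.InjOn (fun b : T3 K => b.2.2) F := by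
        intro b hb b' hb' h
        obtain ⟨hb1, hb2, hb3⟩ := Finset.mem_filter.1 hb
        obtain ⟨hb1', hb2', hb3'⟩ := Finset.mem_filter.1 hb'
        exact Prod.ext ((hS b hb1).1.trans (hS b' hb1').1.symm)
          (Prod.ext (hb2.trans hb2'.symm) h)
      have h4 := h1 I hI G hG (F.image fun b => b.2.2) (fun y hy => by
        obtain ⟨b, hb, rfl⟩ := Finset.mem_image.1 hy
        obtain ⟨hb1, hb2, hb3⟩ := Finset.mem_filter.1 hb
        exact ⟨hb3 ▸ cn_3 b, fun φ => ((hS b hb1).2.2 φ).2.1⟩)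
      rw [Finset.card_image_of_injOn hinj] at h4
      calc (F.card : ℝ) * ni I ≤ (C1 * (1 + vol G / ni I)) * ni I :=
            mul_le_mul_of_nonneg_right h4 hni.le
        _ = C1 * (ni I + vol G) := by
            field_simp
        _ ≤ _ := mul_le_mul_of_nonneg_left (by linarith) (by linarith))
  refine h3.trans (le_of_eq (by ring))

theorem nbc {ε : ℝ} (hε : 0 < ε) : ∃ C : ℝ, 1 ≤ C ∧ ∀ X : ℝ, 1 ≤ X → ∀ G T : (K →+* ℂ) → ℝ,
    (∀ φ, 0 ≤ G φ) → (∀ φ, 0 ≤ T φ) → ∀ S : Finset (T3 K),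
    (∀ b ∈ S, b.2.2 = 0 ∧ b.1 ≠ 0 ∧ dt b ≠ 0 ∧ ∀ φ, sz φ b.2.1 ≤ X ∧ sz φ b.1 ≤ G φ ∧
      sz φ (dt b) ≤ T φ) →
    ∑ b ∈ S, ni (cn b) ≤ C * X ^ ε * (Real.sqrt (vol T) * vol G) := by
  classical
  obtain ⟨C1, hC1, h1⟩ := f1n K
  obtain ⟨C2, hC2, h2⟩ := nb_core K hε
  refine ⟨C2 * C1, one_le_mul_of_one_le_of_one_le hC2 hC1, fun X hX G T hG hT S hS => ?_⟩
  have hvG := vol_nonneg hG
  have hsq : 0 ≤ Real.sqrt (vol T) := Real.sqrt_nonneg _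
  have h3 := h2 X hX T hT (C1 * vol G) S (by positivity)
    (fun b hb => ⟨by rw [(hS b hb).1, mul_zero], (hS b hb).2.2.1, fun φ =>
      ⟨((hS b hb).2.2.2 φ).1, ((hS b hb).2.2.2 φ).2.2⟩⟩) (fun x I hI hIs => by
      have hni : 0 < ni I := lt_of_lt_of_le one_pos (one_le_ni hI)
      set F := S.filter (fun b => b.2.1 = x ∧ cn b = I) with hF
      have hinj : Set.InjOn (fun b : T3 K => b.1) F := by
        intro b hb b' hb' h
        obtain ⟨hb1, hb2, hb3⟩ := Finset.mem_filter.1 hb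
        obtain ⟨hb1', hb2', hb3'⟩ := Finset.mem_filter.1 hb'
        exact Prod.ext h (Prod.ext (hb2.trans hb2'.symm) ((hS b hb1).1.trans (hS b' hb1').1.symm))
      have h4 := h1 I hI G hG (F.image fun b => b.1) (fun y hy => by
        obtain ⟨b, hb, rfl⟩ := Finset.mem_image.1 hy
        obtain ⟨hb1, hb2, hb3⟩ := Finset.mem_filter.1 hb
        exact ⟨(hS b hb1).2.1, hb3 ▸ cn_1 b, fun φ => ((hS b hb1).2.2.2 φ).2.1⟩)
      rw [Finset.card_image_of_injOn hinj] at h4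
      calc (F.card : ℝ) * ni I ≤ (C1 * (vol G / ni I)) * ni I :=
            mul_le_mul_of_nonneg_right h4 hni.le
        _ = C1 * vol G := by
            field_simp)
  refine h3.trans (le_of_eq (by ring))

end Pool.Agent.H67.WA
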