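import Pool.Agent.H67.WA.NbA
import Pool.Agent.H67.WA.NbB

/-!
# W2 (every number field) step 7' for one size vector `η`: sums over one matrix

`b₁₁ ≠ 0`, so only the types `b₂₂ ≠ 0` (`nba`) and `b₂₂ = 0` (`nbc`) occur. With `a = s ^ d`, `w = √√(vol η)`:
`(1 + K a p q) (w² a)² ≤ C a³ w³` and `w² a K a p² ≤ C a³ w³`, because `1 ≤ w² a` (`D1 ≠ 0`) and `w² ≤ K p q`.
-/

set_option autoImplicit false

namespace Pool.Agent.H67.WA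

open NumberField Finset H88.A4

variable (K : Type) [Field K] [NumberField K]

private theorem n2_tab {K a p q w : ℝ} (hK : 1 ≤ K) (ha : 1 ≤ K * a) (hp : 0 < p) (hpq : p ≤ q)
    (hpK : p ≤ K) (hq : p * q ^ 2 ≤ K) (hw : 0 < w) (hwK : w ^ 2 ≤ K * (p * q))
    (hwa : 1 ≤ w ^ 2 * a) :
    (1 + K * (a * (p * q))) * (w ^ 2 * a) ^ 2 ≤ 2 * K ^ 4 * (a ^ 3 * w ^ 3) ∧
      w ^ 2 * a * (K * (a * p ^ 2)) ≤ 2 * K ^ 4 * (a ^ 3 * w ^ 3) := by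
  have hK0 : 0 < K := by linarith
  have hq0 : 0 < q := lt_of_lt_of_le hp hpq
  have ha0 : 0 < a := by
    by_contra hc
    have : K * a ≤ 0 := mul_nonpos_of_nonneg_of_nonpos hK0.le (not_lt.1 hc)
    linarith
  have e1 : (p * q) ^ 2 ≤ K ^ 2 := by
    calc (p * q) ^ 2 = p * (p * q ^ 2) := by ring
      _ ≤ K * K := mul_le_mul hpK hq (by positivity) hK0.le
      _ = K ^ 2 := by ring
  have e2 : p * q ≤ K := le_of_sq_le_sq e1 hK0.le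
  have e3 : w ≤ K := by
    refine le_of_sq_le_sq ?_ hK0.le
    nlinarith
  have e4 : p ^ 2 ≤ K := by nlinarith
  have e5 : 1 ≤ K * (a * (p * q)) := by
    calc 1 ≤ w ^ 2 * a := hwa
      _ ≤ (K * (p * q)) * a := mul_le_mul_of_nonneg_right hwK ha0.le
      _ = K * (a * (p * q)) := by ring
  have e6 : 1 ≤ K * (a * w) := by
    have h1 : 1 ≤ (K * (a * w)) ^ 2 := by
      calc (1 : ℝ) = 1 * 1 := by ring
        _ ≤ (K * a) * (w ^ 2 * a) := mul_le_mul ha hwa zero_le_one (by positivity)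
        _ = K * (a * w) ^ 2 := by ring
        _ ≤ K * (K * (a * w) ^ 2) := le_mul_of_one_le_left (by positivity) hK
        _ = (K * (a * w)) ^ 2 := by ring
    by_contra hc
    push Not at hc
    have h2 : 0 ≤ K * (a * w) := by positivity
    nlinarith
  have hle : ∀ n : ℕ, n ≤ 4 → K ^ n ≤ K ^ 4 := fun n hn => pow_le_pow_right₀ hK hn
  have hP : 0 ≤ a ^ 3 * w ^ 3 := by positivity
  constructor
  · calc (1 + K * (a * (p * q))) * (w ^ 2 * a) ^ 2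
        ≤ (2 * (K * (a * (p * q)))) * (w ^ 2 * a) ^ 2 :=
          mul_le_mul_of_nonneg_right (by linarith) (by positivity)
      _ = 2 * K * (a ^ 3 * w ^ 3) * ((p * q) * w) := by ring
      _ ≤ 2 * K * (a ^ 3 * w ^ 3) * (K * K) :=
          mul_le_mul_of_nonneg_left (mul_le_mul e2 e3 hw.le hK0.le) (by positivity)
      _ = 2 * K ^ 3 * (a ^ 3 * w ^ 3) := by ring
      _ ≤ 2 * K ^ 4 * (a ^ 3 * w ^ 3) :=
          mul_le_mul_of_nonneg_right (by have := hle 3 (by norm_num); linarith) hP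
  · calc w ^ 2 * a * (K * (a * p ^ 2)) = K * (a ^ 2 * w ^ 2) * p ^ 2 * 1 := by ring
      _ ≤ K * (a ^ 2 * w ^ 2) * K * (K * (a * w)) :=
          mul_le_mul (mul_le_mul_of_nonneg_left e4 (by positivity)) e6 zero_le_one (by positivity)
      _ = K ^ 3 * (a ^ 3 * w ^ 3) := by ring
      _ ≤ 2 * K ^ 4 * (a ^ 3 * w ^ 3) :=
          mul_le_mul_of_nonneg_right (by have := hle 3 (by norm_num)
                                         have h4 : 0 < K ^ 4 := by positivity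
                                         linarith) hP

theorem n2a {ε : ℝ} (hε : 0 < ε) {C1 : ℝ} (hC1 : 1 ≤ C1) : ∃ C : ℝ, 1 ≤ C ∧
    ∀ X s ρ1 ρ2 : ℝ, 1 ≤ X → 1 ≤ C1 * s → Rho C1 ρ1 ρ2 → ∀ η : (K →+* ℂ) → ℝ, (∀ φ, 0 < η φ) →
    (∀ φ, η φ ≤ C1 * (ρ1 * ρ2) ^ 2) → ∀ S : Finset (T3 K),
    (∀ b ∈ S, b.1 ≠ 0 ∧ dt b ≠ 0 ∧ ∀ φ, sz φ b.1 ≤ X ∧ sz φ b.2.1 ≤ X ∧ sz φ b.2.2 ≤ X ∧
      sz φ b.1 ≤ C1 * s * ρ1 ^ 2 ∧ sz φ b.2.1 ≤ C1 * s * (ρ1 * ρ2) ∧ sz φ (dt b) ≤ η φ * s ^ 2) →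
    ∑ b ∈ S, ni (cn b) ≤
      C * X ^ ε * (s ^ (3 * Module.finrank ℚ K) * Real.sqrt (Real.sqrt (vol η)) ^ 3) := by
  classical
  obtain ⟨Ca, hCa, ha⟩ := nba K hε
  obtain ⟨Cc, hCc, hc⟩ := nbc K hε
  obtain ⟨d, hd⟩ : ∃ d, d = Module.finrank ℚ K := ⟨_, rfl⟩
  have hC10 : 0 < C1 := by linarith
  have hK : 1 ≤ C1 ^ d := one_le_pow₀ hC1
  have hK4 : 1 ≤ (C1 ^ d) ^ 4 := one_le_pow₀ hK
  refine ⟨(Ca + Cc) * (2 * (C1 ^ d) ^ 4), by nlinarith, ?_⟩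
  intro X s ρ1 ρ2 hX hs1 hρ η hη hη2 S hS
  rw [← hd]
  have hX0 : 0 < X := by linarith
  have hXe : 0 ≤ X ^ ε := (Real.rpow_pos_of_pos hX0 _).le
  have hs : 0 < s := by
    by_contra hcon
    push Not at hcon
    nlinarith
  have hρ1 : 0 < ρ1 := hρ.1
  have hρ2 : 0 < ρ2 := lt_of_lt_of_le hρ1 hρ.2.1
  have hvη : 0 < vol η := vol_pos hη
  rcases S.eq_empty_or_nonempty with rfl | ⟨b0, hb0⟩
  · rw [Finset.sum_empty]
    positivity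
  obtain ⟨w, hw⟩ : ∃ w, w = Real.sqrt (Real.sqrt (vol η)) := ⟨_, rfl⟩
  have hw0 : 0 < w := by
    rw [hw]
    exact Real.sqrt_pos.2 (Real.sqrt_pos.2 hvη)
  have hw2 : w ^ 2 = Real.sqrt (vol η) := by
    rw [hw, Real.sq_sqrt (Real.sqrt_nonneg _)]
  have hT0 : ∀ φ : K →+* ℂ, 0 ≤ η φ * s ^ 2 := fun φ => mul_nonneg (hη φ).le (by positivity)
  have hvT : vol (fun φ => η φ * s ^ 2) = (w ^ 2 * s ^ d) ^ 2 := by
    rw [vol_mul_const, mul_pow, hw2, Real.sq_sqrt hvη.le, ← pow_mul, ← pow_mul, ← hd, mul_comm d 2]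
  have hsT : Real.sqrt (vol fun φ => η φ * s ^ 2) = w ^ 2 * s ^ d := by
    rw [hvT, Real.sqrt_sq (by positivity)]
  have hKpq : w ^ 2 ≤ C1 ^ d * (ρ1 ^ d * ρ2 ^ d) := by
    rw [hw2, Real.sqrt_le_left (by positivity)]
    calc vol η ≤ vol (fun _ : K →+* ℂ => C1 * (ρ1 * ρ2) ^ 2) :=
          vol_mono (fun φ => (hη φ).le) hη2
      _ = C1 ^ d * (ρ1 ^ d * ρ2 ^ d) ^ 2 := by
          rw [vol_const, ← hd, mul_pow, ← pow_mul, ← mul_pow, ← pow_mul, mul_comm 2 d]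
      _ ≤ (C1 ^ d * (ρ1 ^ d * ρ2 ^ d)) ^ 2 := by
          rw [mul_pow (C1 ^ d)]
          refine mul_le_mul_of_nonneg_right ?_ (by positivity)
          nlinarith
  have h1ha : 1 ≤ w ^ 2 * s ^ d := by
    have h1 : nz (dt b0) ≤ vol (fun φ => η φ * s ^ 2) :=
      nz_le_vol fun φ => ((hS b0 hb0).2.2 φ).2.2.2.2.2
    have h2 := (one_le_nz (hS b0 hb0).2.1).trans h1
    rw [hvT] at h2
    by_contra hcon
    push Not at hcon
    have h4 : 0 ≤ w ^ 2 * s ^ d := by positivity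
    nlinarith
  have hCs : 1 ≤ C1 ^ d * s ^ d := by
    rw [← mul_pow]
    exact one_le_pow₀ hs1
  obtain ⟨t0, t2⟩ := n2_tab hK hCs (by positivity : 0 < ρ1 ^ d)
    (pow_le_pow_left₀ hρ1.le hρ.2.1 d) (pow_le_pow_left₀ hρ1.le hρ.2.2.1 d)
    (by
      calc ρ1 ^ d * (ρ2 ^ d) ^ 2 = (ρ1 * ρ2 ^ 2) ^ d := by
            rw [mul_pow, ← pow_mul, ← pow_mul, mul_comm 2 d]
        _ ≤ C1 ^ d := pow_le_pow_left₀ (by positivity) hρ.2.2.2 d) hw0 hKpq h1ha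
  have hA := ha X hX (fun _ => C1 * s * (ρ1 * ρ2)) (fun φ => η φ * s ^ 2)
    (fun _ => by positivity) hT0 (S.filter fun b => b.2.2 ≠ 0) (fun b hb => by
      obtain ⟨hbS, hb2⟩ := Finset.mem_filter.1 hb
      obtain ⟨h1, h2, h3⟩ := hS b hbS
      exact ⟨h1, hb2, h2, fun φ => ⟨(h3 φ).1, (h3 φ).2.2.1, (h3 φ).2.2.2.2.1, (h3 φ).2.2.2.2.2⟩⟩)
  have hvA : vol (fun _ : K →+* ℂ => C1 * s * (ρ1 * ρ2)) = C1 ^ d * (s ^ d * (ρ1 ^ d * ρ2 ^ d)) := by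
    rw [vol_const, ← hd, mul_pow, mul_pow, mul_pow]
    ring
  rw [hvT, hvA] at hA
  have hB := hc X hX (fun _ => C1 * s * ρ1 ^ 2) (fun φ => η φ * s ^ 2)
    (fun _ => by positivity) hT0 (S.filter fun b => ¬ b.2.2 ≠ 0) (fun b hb => by
      obtain ⟨hbS, hb2⟩ := Finset.mem_filter.1 hb
      obtain ⟨h1, h2, h3⟩ := hS b hbS
      exact ⟨not_not.1 hb2, h1, h2, fun φ => ⟨(h3 φ).2.1, (h3 φ).2.2.2.1, (h3 φ).2.2.2.2.2⟩⟩)
  have hvG : vol (fun _ : K →+* ℂ => C1 * s * ρ1 ^ 2) = C1 ^ d * (s ^ d * (ρ1 ^ d) ^ 2) := by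
    rw [vol_const, ← hd, mul_pow, mul_pow, ← pow_mul, ← pow_mul, mul_comm 2 d]
    ring
  rw [hsT, hvG] at hB
  rw [← Finset.sum_filter_add_sum_filter_not S (fun b => b.2.2 ≠ 0)]
  calc _ ≤ Ca * X ^ ε * (2 * (C1 ^ d) ^ 4 * ((s ^ d) ^ 3 * w ^ 3)) +
        Cc * X ^ ε * (2 * (C1 ^ d) ^ 4 * ((s ^ d) ^ 3 * w ^ 3)) :=
        add_le_add (hA.trans (mul_le_mul_of_nonneg_left t0 (by positivity)))
          (hB.trans (mul_le_mul_of_nonneg_left t2 (by positivity)))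
    _ = (Ca + Cc) * (2 * (C1 ^ d) ^ 4) * X ^ ε * (s ^ (3 * d) * Real.sqrt (Real.sqrt (vol η)) ^ 3) := by
        rw [← hw, ← pow_mul s d 3, mul_comm d 3]
        ring

end Pool.Agent.H67.WA
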