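import Pool.Agent.H67.WA.N2A

/-!
# W2 (every number field) step 7', all sizes (as in `S7`)
-/

set_option autoImplicit false

namespace Pool.Agent.H67.WA

open NumberField Finset H88.A4

variable (K : Type) [Field K] [NumberField K]

variable {K} in
private theorem quad2 (φ : K →+* ℂ) {x y z : 𝓞 K} {a b c : ℝ} (hx : sz φ x ≤ a) (hz : sz φ z ≤ c)
    (hy : sz φ y ≤ b) (ha : 0 ≤ a) : sz φ (x * z - y ^ 2) ≤ a * c + b ^ 2 := by
  refine (sz_sub φ _ _).trans ?_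
  rw [sz_mul, sz_pow]
  exact add_le_add (mul_le_mul hx hz (sz_nonneg _ _) ha) (pow_le_pow_left₀ (sz_nonneg _ _) hy 2)

variable {K} in
private theorem bounds2 {C1 s t ρ1 ρ2 : ℝ} (hC1 : 1 ≤ C1) (hs : 0 < s) (ht : 0 < t) (h1 : 0 < ρ1)
    (h2 : 0 < ρ2) {β : Blk (𝓞 K)} (h : Sz C1 s t ρ1 ρ2 β) (φ : K →+* ℂ) :
    sz φ β.D1 ≤ 4 * C1 ^ 2 * (ρ1 * ρ2) ^ 2 * s ^ 2 ∧
    sz φ β.D2 ≤ 4 * C1 ^ 2 * (ρ1 * ρ2) ^ 2 * (s * t) ∧
    sz φ β.D3 ≤ 4 * C1 ^ 2 * (ρ1 * ρ2) ^ 2 * t ^ 2 := by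
  have hC0 : 0 < C1 := by linarith
  have b1 : sz φ β.b1 ≤ C1 * s * ρ1 ^ 2 := h.sb1 φ
  have b2 : sz φ β.b2 ≤ C1 * s * (ρ1 * ρ2) := h.sb2 φ
  have b3 : sz φ β.b3 ≤ C1 * s * ρ2 ^ 2 := h.sb3 φ
  have c1 : sz φ β.c1 ≤ C1 * t * ρ1 ^ 2 := h.sc1 φ
  have c2 : sz φ β.c2 ≤ C1 * t * (ρ1 * ρ2) := h.sc2 φ
  have c3 : sz φ β.c3 ≤ C1 * t * ρ2 ^ 2 := h.sc3 φ
  refine ⟨?_, ?_, ?_⟩
  · refine (quad2 φ b1 b3 b2 (by positivity)).trans ?_
    have : 0 ≤ C1 ^ 2 * (ρ1 * ρ2) ^ 2 * s ^ 2 := by positivity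
    nlinarith
  · have h5 : sz φ β.D2 ≤ sz φ β.b1 * sz φ β.c3 + sz φ β.b3 * sz φ β.c1 +
        2 * (sz φ β.b2 * sz φ β.c2) := by
      unfold Blk.D2
      refine (sz_sub φ _ _).trans (add_le_add ((sz_add φ _ _).trans ?_) ?_)
      · rw [sz_mul, sz_mul]
      · rw [sz_mul, sz_mul, sz_two, mul_assoc]
    have h6 := mul_le_mul b1 c3 (sz_nonneg _ _) (by positivity)
    have h7 := mul_le_mul b3 c1 (sz_nonneg _ _) (by positivity)
    have h8 := mul_le_mul b2 c2 (sz_nonneg _ _) (by positivity)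
    nlinarith
  · refine (quad2 φ c1 c3 c2 (by positivity)).trans ?_
    have : 0 ≤ C1 ^ 2 * (ρ1 * ρ2) ^ 2 * t ^ 2 := by positivity
    nlinarith

variable {K} in
private theorem Dt_le2 {C1 s t ρ1 ρ2 : ℝ} (hC1 : 1 ≤ C1) (hs : 0 < s) (ht : 0 < t) (h1 : 0 < ρ1)
    (h2 : 0 < ρ2) {β : Blk (𝓞 K)} (h : Sz C1 s t ρ1 ρ2 β) (φ : K →+* ℂ) :
    Dt s t β φ ≤ 4 * C1 ^ 2 * (ρ1 * ρ2) ^ 2 := by
  obtain ⟨e1, e2, e3⟩ := bounds2 hC1 hs ht h1 h2 h φ
  refine max_le ?_ (max_le ?_ ?_)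
  · rw [div_le_iff₀ (by positivity)]
    exact e1
  · rw [div_le_iff₀ (by positivity)]
    exact e2
  · rw [div_le_iff₀ (by positivity)]
    exact e3

theorem n2b {ε : ℝ} (hε : 0 < ε) {C1 : ℝ} (hC1 : 1 ≤ C1) : ∃ C : ℝ, 1 ≤ C ∧
    ∀ X s ρ1 ρ2 : ℝ, 1 ≤ X → s ≤ X → 1 ≤ C1 * s → Rho C1 ρ1 ρ2 →
    ∀ (S : Finset (Blk (𝓞 K))) (Ng : Blk (𝓞 K) → ℝ), Set.InjOn tb (S : Set (Blk (𝓞 K))) →
    (∀ β ∈ S, Sz C1 s s ρ1 ρ2 β ∧ β.All (Bd X) ∧ β.D1 ≠ 0 ∧ β.b1 ≠ 0 ∧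
      0 ≤ Ng β ∧ Ng β ≤ ni (cn (tb β))) →
    ∑ β ∈ S, (1 + Ng β * (Real.sqrt (Real.sqrt (vol (Dt s s β))))⁻¹ ^ 3) ≤
      C * X ^ ε * s ^ (3 * Module.finrank ℚ K) := by
  classical
  set d : ℕ := Module.finrank ℚ K with hd
  have hC0 : 0 < C1 := by linarith
  set C1' : ℝ := 8 * C1 ^ 2 with hC1'
  have hC11 : C1 ≤ C1' := by nlinarith
  have hC1'1 : 1 ≤ C1' := hC1.trans hC11
  obtain ⟨Ca, hCa, ha⟩ := n2a K (half_pos hε) hC1'1
  obtain ⟨Cd, hCd, hdy⟩ := dy (κ := K →+* ℂ) (half_pos hε) (2 * d + 2)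
  set Y : ℝ := 4 * C1 ^ 4 with hY
  have hY1 : 4 ≤ Y := by
    have : 1 ≤ C1 ^ 4 := one_le_pow₀ hC1
    linarith
  set Cη : ℝ := Real.sqrt (Real.sqrt (Y ^ d)) ^ 3 with hCη
  have hCη1 : 1 ≤ Cη := one_le_pow₀ (Real.one_le_sqrt.2 (Real.one_le_sqrt.2
    (one_le_pow₀ (by linarith))))
  set c2 : ℝ := Real.sqrt (Real.sqrt (2 ^ d)) ^ 3 with hc2
  have hc21 : 0 < c2 := by positivity
  have hYε : 0 < Y ^ (ε / 2) := Real.rpow_pos_of_pos (by linarith) _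
  refine ⟨Ca * Cη + Cd * Y ^ (ε / 2) * (c2 * Ca), ?_,
    fun X s ρ1 ρ2 hX hsX hRg hRho S Ng hinj hS => ?_⟩
  · have h1 : 1 ≤ Ca * Cη := one_le_mul_of_one_le_of_one_le hCa hCη1
    have h2 : 0 ≤ Cd * Y ^ (ε / 2) * (c2 * Ca) := by positivity
    linarith
  obtain ⟨hρ1, hρ12, hρ1C, hρρ⟩ := hRho
  have hs : 0 < s := by
    by_contra hcon
    push Not at hcon
    nlinarith
  have hρ2 : 0 < ρ2 := by linarith
  have hX0 : 0 < X := by linarith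
  have hρsq : (ρ1 * ρ2) ^ 2 ≤ C1 ^ 2 := by
    have : (ρ1 * ρ2) ^ 2 = ρ1 * (ρ1 * ρ2 ^ 2) := by ring
    rw [this, sq C1]
    exact mul_le_mul hρ1C hρρ (by positivity) hC0.le
  have hDY : 4 * C1 ^ 2 * (ρ1 * ρ2) ^ 2 ≤ Y := by
    rw [hY]
    have : 0 < C1 ^ 2 := by positivity
    nlinarith
  have hRg' : 1 ≤ C1' * s := by nlinarith
  have hRho' : Rho C1' ρ1 ρ2 := ⟨hρ1, hρ12, hρ1C.trans hC11, hρρ.trans hC11⟩
  have hm : ∀ {a b : ℝ} {x : 𝓞 K}, 0 < a → 0 < b → Bd (C1 * a * b) x → Bd (C1' * a * b) x :=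
    fun ha hb hx φ => (hx φ).trans (mul_le_mul_of_nonneg_right
      (mul_le_mul_of_nonneg_right hC11 ha.le) hb.le)
  have hXε : 0 < X ^ (ε / 2) := Real.rpow_pos_of_pos hX0 _
  have hX1ε : 1 ≤ X ^ (ε / 2) := Real.one_le_rpow hX (by positivity)
  have hXX : X ^ (ε / 2) * X ^ (ε / 2) = X ^ ε := by rw [← Real.rpow_add hX0, add_halves]
  have hXle : X ^ (ε / 2) ≤ X ^ ε := by
    rw [← hXX]
    exact le_mul_of_one_le_left hXε.le hX1ε
  -- the sum over a subset through the images under `tb`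
  have hsum : ∀ S' ⊆ S, ∀ η : (K →+* ℂ) → ℝ, (∀ φ, 0 < η φ) →
      (∀ φ, η φ ≤ C1' * (ρ1 * ρ2) ^ 2) → (∀ β ∈ S', ∀ φ, sz φ β.D1 ≤ η φ * s ^ 2) →
      ∑ β ∈ S', ni (cn (tb β)) ≤
        Ca * X ^ (ε / 2) * (s ^ (3 * d) * Real.sqrt (Real.sqrt (vol η)) ^ 3) := by
    intro S' hS' η hη hη2 hD
    have h1 := ha X s ρ1 ρ2 hX hRg' hRho' η hη hη2 (S'.image tb) (by
      intro b hb
      obtain ⟨β, hβ, rfl⟩ := Finset.mem_image.1 hb
      obtain ⟨h1, h2, h3, h4, -⟩ := hS β (hS' hβ)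
      exact ⟨h4, h3, fun φ => ⟨h2.1 φ, h2.2.1 φ, h2.2.2.1 φ,
        hm hs (by positivity) h1.sb1 φ, hm hs (by positivity) h1.sb2 φ, hD β hβ φ⟩⟩)
    rw [Finset.sum_image (fun x hx y hy h => hinj (hS' hx) (hS' hy) h)] at h1
    exact h1
  rw [Finset.sum_add_distrib]
  have hone : ∑ β ∈ S, (1 : ℝ) ≤ Ca * Cη * X ^ ε * s ^ (3 * d) := by
    have h1 : ∑ β ∈ S, (1 : ℝ) ≤ ∑ β ∈ S, ni (cn (tb β)) := by
      refine Finset.sum_le_sum fun β hβ => ?_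
      exact one_le_ni (cn_ne (by rw [dt_tb]; exact (hS β hβ).2.2.1))
    have hpos : 0 < 4 * C1 ^ 2 * (ρ1 * ρ2) ^ 2 := by positivity
    have h2 := hsum S (Finset.Subset.refl S) (fun _ => 4 * C1 ^ 2 * (ρ1 * ρ2) ^ 2)
      (fun _ => hpos) (fun _ => by
        have : 0 ≤ C1 ^ 2 * (ρ1 * ρ2) ^ 2 := by positivity
        rw [hC1']
        nlinarith) (fun β hβ φ => (bounds2 hC1 hs hs hρ1 hρ2 (hS β hβ).1 φ).1)
    rw [vol_const] at h2
    have h3 : Real.sqrt (Real.sqrt ((4 * C1 ^ 2 * (ρ1 * ρ2) ^ 2) ^ d)) ^ 3 ≤ Cη :=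
      pow_le_pow_left₀ (Real.sqrt_nonneg _) (Real.sqrt_le_sqrt (Real.sqrt_le_sqrt
        (pow_le_pow_left₀ hpos.le hDY d))) 3
    calc ∑ β ∈ S, (1 : ℝ) ≤ _ := h1
      _ ≤ _ := h2
      _ ≤ Ca * X ^ ε * (s ^ (3 * d) * Cη) := by
          refine mul_le_mul (mul_le_mul_of_nonneg_left hXle (by linarith)) ?_ (by positivity)
            (by positivity)
          exact mul_le_mul_of_nonneg_left h3 (by positivity)
      _ = _ := by ring
  have htwo : ∑ β ∈ S, Ng β * (Real.sqrt (Real.sqrt (vol (Dt s s β))))⁻¹ ^ 3 ≤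
      Cd * (Y * X) ^ (ε / 2) * (c2 * Ca * X ^ (ε / 2) * s ^ (3 * d)) := by
    have hYX : 1 ≤ Y * X := one_le_mul_of_one_le_of_one_le (by linarith) hX
    refine hdy (Y * X) hYX _ S (fun β => Dt s s β) _ _ (by positivity) (fun β hβ φ => ?_)
      (fun η hη S' hS' hηD => ?_)
    · have h3 := hS β hβ
      constructor
      · have hD3 : sz φ β.D1 / s ^ 2 ≤ Dt s s β φ := le_max_left _ _
        refine le_trans ?_ hD3
        have hall := h3.2.1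
        have hup : ∀ ψ, sz ψ β.D1 ≤ 2 * X ^ 2 := fun ψ => by
          refine (quad2 ψ (hall.1 ψ) (hall.2.2.1 ψ) (hall.2.1 ψ) hX0.le).trans ?_
          nlinarith
        have hlow := sz_low h3.2.2.1 (X := 2 * X ^ 2) (by nlinarith) hup φ
        rw [le_div_iff₀ (by positivity)]
        refine le_trans ?_ hlow
        rw [← hd, inv_mul_le_iff₀ (by positivity), ← div_eq_mul_inv, le_div_iff₀ (by positivity)]
        have h4 : (2 * X ^ 2) ^ d ≤ (Y * X) ^ (2 * d) := by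
          rw [pow_mul]
          refine pow_le_pow_left₀ (by positivity) ?_ d
          rw [mul_pow]
          have h6 : (2 : ℝ) ≤ Y ^ 2 := by nlinarith
          exact mul_le_mul_of_nonneg_right h6 (by positivity)
        have h5 : s ^ 2 ≤ (Y * X) ^ 2 := by
          refine pow_le_pow_left₀ hs.le ?_ 2
          exact hsX.trans (le_mul_of_one_le_left hX0.le (by linarith))
        rw [pow_add, mul_comm (s ^ 2)]
        exact mul_le_mul h4 h5 (by positivity) (by positivity)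
      · refine (Dt_le2 hC1 hs hs hρ1 hρ2 h3.1 φ).trans (hDY.trans ?_)
        have h4 : Y ≤ Y * X := le_mul_of_one_le_right (by linarith) hX
        exact h4.trans (le_self_pow₀ hYX (by omega))
    · rcases S'.eq_empty_or_nonempty with rfl | ⟨β0, hβ0⟩
      · simp only [Finset.sum_empty]
        positivity
      have hvη : 0 < vol η := vol_pos hη
      have hsη : 0 < Real.sqrt (Real.sqrt (vol η)) := Real.sqrt_pos.2 (Real.sqrt_pos.2 hvη)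
      have hηle : ∀ φ, η φ ≤ C1' * (ρ1 * ρ2) ^ 2 := fun φ => by
        have h4 := (hηD β0 hβ0 φ).2
        have h5 := Dt_le2 hC1 hs hs hρ1 hρ2 (hS β0 (hS' hβ0)).1 φ
        rw [hC1']
        linarith
      have h2 := hsum S' hS' η hη hηle (fun β hβ φ => by
        have h4 : sz φ β.D1 / s ^ 2 ≤ η φ := (le_max_left _ _).trans (hηD β hβ φ).1
        rwa [div_le_iff₀ (by positivity)] at h4)
      have hterm : ∀ β ∈ S', Ng β * (Real.sqrt (Real.sqrt (vol (Dt s s β))))⁻¹ ^ 3 ≤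
          c2 * (Real.sqrt (Real.sqrt (vol η)))⁻¹ ^ 3 * ni (cn (tb β)) := by
        intro β hβ
        have h3 := hS β (hS' hβ)
        have h4 : vol η ≤ 2 ^ d * vol (Dt s s β) := by
          rw [← vol_smul]
          exact vol_mono (fun φ => (hη φ).le) fun φ => (hηD β hβ φ).2
        have h5 : Real.sqrt (Real.sqrt (vol η)) ≤
            Real.sqrt (Real.sqrt (2 ^ d)) * Real.sqrt (Real.sqrt (vol (Dt s s β))) := by
          rw [← Real.sqrt_mul (by positivity), ← Real.sqrt_mul (by positivity)]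
          exact Real.sqrt_le_sqrt (Real.sqrt_le_sqrt h4)
        have hD0 : 0 < Real.sqrt (Real.sqrt (vol (Dt s s β))) := by
          by_contra hcon
          have : Real.sqrt (Real.sqrt (vol (Dt s s β))) = 0 :=
            le_antisymm (not_lt.1 hcon) (Real.sqrt_nonneg _)
          rw [this, mul_zero] at h5
          linarith
        have h6 : (Real.sqrt (Real.sqrt (vol (Dt s s β))))⁻¹ ≤
            Real.sqrt (Real.sqrt (2 ^ d)) * (Real.sqrt (Real.sqrt (vol η)))⁻¹ := by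
          rw [inv_le_iff_one_le_mul₀ hD0, mul_right_comm, ← div_eq_mul_inv, one_le_div hsη]
          exact h5
        have h7 : (Real.sqrt (Real.sqrt (vol (Dt s s β))))⁻¹ ^ 3 ≤
            c2 * (Real.sqrt (Real.sqrt (vol η)))⁻¹ ^ 3 := by
          rw [hc2, ← mul_pow]
          exact pow_le_pow_left₀ (by positivity) h6 3
        calc Ng β * (Real.sqrt (Real.sqrt (vol (Dt s s β))))⁻¹ ^ 3
            ≤ ni (cn (tb β)) * (c2 * (Real.sqrt (Real.sqrt (vol η)))⁻¹ ^ 3) :=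
              mul_le_mul h3.2.2.2.2.2 h7 (by positivity) (ni_nonneg _)
          _ = _ := by ring
      refine (Finset.sum_le_sum hterm).trans ?_
      rw [← Finset.mul_sum]
      calc c2 * (Real.sqrt (Real.sqrt (vol η)))⁻¹ ^ 3 * ∑ β ∈ S', ni (cn (tb β))
          ≤ c2 * (Real.sqrt (Real.sqrt (vol η)))⁻¹ ^ 3 *
            (Ca * X ^ (ε / 2) * (s ^ (3 * d) * Real.sqrt (Real.sqrt (vol η)) ^ 3)) :=
            mul_le_mul_of_nonneg_left h2 (by positivity)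
        _ = _ := by
            field_simp
  refine (add_le_add hone htwo).trans (le_of_eq ?_)
  rw [Real.mul_rpow (by linarith) hX0.le, ← hXX]
  ring

end Pool.Agent.H67.WA
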