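import Pool.Agent.H67.WA.S7A

/-!
# W1 step 7, all sizes

`Dt` is `H88.A4.Dt`. PROOF. (i) the term `1`: `s7a` with `η φ = 4 C1² (ρ₁ ρ₂)²` (with the constant `4 C1²` in place of `C1`,
`Sz`, `Rg`, `Rho` are monotone in the constant; `1 ≤ ni (cn (tb β)) ni (cn (tc β))` since `D1, D3 ≠ 0`; `√(vol η) ^ 3 ≤ C`,
`ρ₁ ρ₂ ≤ C1` because `(ρ₁ ρ₂)² = ρ₁ (ρ₁ ρ₂²) ≤ C1²`). The sizes of `D1`, `D2`, `D3` are at most `4 C1² (ρ₁ ρ₂)²` times `s²`, `s t`,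
`t²` (`Sz`), so `Dt s t β φ ≤ 4 C1² (ρ₁ ρ₂)² ≤ 4 C1⁴`. (ii) the other term: `Dt s t β φ ≥ sz φ D3 / t² ≥ (2 X²)^(-d) X^(-2)`
(`sz_low`, `t ≤ X`). `dy` with `κ = (K →+* ℂ)`, `X' = 4 C1 ^ 4 X`, `A = 2 d + 2`, `D = Dt s t`,
`w β = Ng β * (√(vol (Dt s t β)))⁻¹ ^ 3`, `ε / 2`. For `η` with `Dt ≤ η ≤ 2 Dt` on `S'`: `η φ ≤ 8 C1² (ρ₁ρ₂)²`,
`vol η ≤ 2^d vol Dt`, `(√vol Dt)⁻¹ ≤ 2^d (√vol η)⁻¹`, `sz φ D1 ≤ Dt s² ≤ η φ s²`, the same for `D3`; `Ng ≤ ni (cn ..) ni (cn ..)`, so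
`∑ w ≤ 2^(3d) (√vol η)⁻³ ∑ ni ni ≤ 2^(3d) C X^(ε/2) (s t)^(3 d)` by `s7a` with the constant `8 C1²`.
-/

set_option autoImplicit false

namespace Pool.Agent.H67.WA

open NumberField Finset H88.A4

variable (K : Type) [Field K] [NumberField K]

variable {K} in
private theorem quad (φ : K →+* ℂ) {x y z : 𝓞 K} {a b c : ℝ} (hx : sz φ x ≤ a) (hz : sz φ z ≤ c)
    (hy : sz φ y ≤ b) (ha : 0 ≤ a) : sz φ (x * z - y ^ 2) ≤ a * c + b ^ 2 := by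
  refine (sz_sub φ _ _).trans ?_
  rw [sz_mul, sz_pow]
  exact add_le_add (mul_le_mul hx hz (sz_nonneg _ _) ha) (pow_le_pow_left₀ (sz_nonneg _ _) hy 2)

variable {K} in
private theorem bounds {C1 s t ρ1 ρ2 : ℝ} (hC1 : 1 ≤ C1) (hs : 0 < s) (ht : 0 < t) (h1 : 0 < ρ1)
    (h2 : 0 < ρ2) {β : Blk (𝓞 K)} (h : Sz C1 s t ρ1 ρ2 β) (φ : K →+* ℂ) :
    sz φ β.D1 ≤ 4 * C1 ^ 2 * (ρ1 * ρ2) ^ 2 * s ^ 2 ∧
    sz φ β.D2 ≤ 4 * C1 ^ 2 * (ρ1 * ρ2) ^ 2 * (s * t) ∧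
    sz φ β.D3 ≤ 4 * C1 ^ 2 * (ρ1 * ρ2) ^ 2 * t ^ 2 := by
  have hC0 : 0 < C1 := by linarith
  have b1 : sz φ β.b1 ≤ C1 * s * ρ1 ^ 2 := h.sb1 φ
  have b2 : sz φ β.b2 ≤ C1 * s * (ρ1 * ρ2) := h.sb2 φ
  have b3 : sz φ β.b3 ≤ C1 * s * ρ2 ^ 2 := h.sb3 φ
  have c1 : sz φ β.c1 ≤ C1 * t * ρ1 ^ 2 := h.sc1 φ
  have c2 : sz φ β.c2 ≤ C1 * t * (ρ1 * ρ2) := h.sc2 φ
  have c3 : sz φ β.c3 ≤ C1 * t * ρ2 ^ 2 := h.sc3 φ
  refine ⟨?_, ?_, ?_⟩
  · refine (quad φ b1 b3 b2 (by positivity)).trans ?_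
    have : 0 ≤ C1 ^ 2 * (ρ1 * ρ2) ^ 2 * s ^ 2 := by positivity
    nlinarith
  · have h5 : sz φ β.D2 ≤ sz φ β.b1 * sz φ β.c3 + sz φ β.b3 * sz φ β.c1 +
        2 * (sz φ β.b2 * sz φ β.c2) := by
      unfold Blk.D2
      refine (sz_sub φ _ _).trans (add_le_add ((sz_add φ _ _).trans ?_) ?_)
      · rw [sz_mul, sz_mul]
      · rw [sz_mul, sz_mul, sz_two, mul_assoc]
    have h6 := mul_le_mul b1 c3 (sz_nonneg _ _) (by positivity)
    have h7 := mul_le_mul b3 c1 (sz_nonneg _ _) (by positivity)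
    have h8 := mul_le_mul b2 c2 (sz_nonneg _ _) (by positivity)
    nlinarith
  · refine (quad φ c1 c3 c2 (by positivity)).trans ?_
    have : 0 ≤ C1 ^ 2 * (ρ1 * ρ2) ^ 2 * t ^ 2 := by positivity
    nlinarith

variable {K} in
private theorem Dt_le {C1 s t ρ1 ρ2 : ℝ} (hC1 : 1 ≤ C1) (hs : 0 < s) (ht : 0 < t) (h1 : 0 < ρ1)
    (h2 : 0 < ρ2) {β : Blk (𝓞 K)} (h : Sz C1 s t ρ1 ρ2 β) (φ : K →+* ℂ) :
    Dt s t β φ ≤ 4 * C1 ^ 2 * (ρ1 * ρ2) ^ 2 := by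
  obtain ⟨e1, e2, e3⟩ := bounds hC1 hs ht h1 h2 h φ
  refine max_le ?_ (max_le ?_ ?_)
  · rw [div_le_iff₀ (by positivity)]
    exact e1
  · rw [div_le_iff₀ (by positivity)]
    exact e2
  · rw [div_le_iff₀ (by positivity)]
    exact e3

theorem s7 {ε : ℝ} (hε : 0 < ε) {C1 : ℝ} (hC1 : 1 ≤ C1) : ∃ C : ℝ, 1 ≤ C ∧
    ∀ X s t ρ1 ρ2 : ℝ, 1 ≤ X → s ≤ X → Rg C1 s t → Rho C1 ρ1 ρ2 →
    ∀ (S : Finset (Blk (𝓞 K))) (Ng : Blk (𝓞 K) → ℝ),
    (∀ β ∈ S, Sz C1 s t ρ1 ρ2 β ∧ β.All (Bd X) ∧ β.D1 ≠ 0 ∧ β.D3 ≠ 0 ∧ ¬ (β.b1 = 0 ∧ β.c1 = 0) ∧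
      0 ≤ Ng β ∧ Ng β ≤ ni (cn (tb β)) * ni (cn (tc β))) →
    ∑ β ∈ S, (1 + Ng β * (Real.sqrt (vol (Dt s t β)))⁻¹ ^ 3) ≤
      C * X ^ ε * (s * t) ^ (3 * Module.finrank ℚ K) := by
  classical
  set d : ℕ := Module.finrank ℚ K with hd
  have hC0 : 0 < C1 := by linarith
  set C1' : ℝ := 8 * C1 ^ 2 with hC1'
  have hC11 : C1 ≤ C1' := by nlinarith
  have hC1'1 : 1 ≤ C1' := hC1.trans hC11
  obtain ⟨Ca, hCa, ha⟩ := s7a K (half_pos hε) hC1'1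
  obtain ⟨Cd, hCd, hdy⟩ := dy (κ := K →+* ℂ) (half_pos hε) (2 * d + 2)
  set Y : ℝ := 4 * C1 ^ 4 with hY
  have hY1 : 4 ≤ Y := by
    have : 1 ≤ C1 ^ 4 := one_le_pow₀ hC1
    linarith
  set Cη : ℝ := Real.sqrt (Y ^ d) ^ 3 with hCη
  have hCη1 : 1 ≤ Cη := one_le_pow₀ (Real.one_le_sqrt.2 (one_le_pow₀ (by linarith)))
  set c2 : ℝ := Real.sqrt (2 ^ d) ^ 3 with hc2
  have hc21 : 0 < c2 := by positivity
  have hYε : 0 < Y ^ (ε / 2) := Real.rpow_pos_of_pos (by linarith) _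
  refine ⟨Ca * Cη + Cd * Y ^ (ε / 2) * (c2 * Ca), ?_,
    fun X s t ρ1 ρ2 hX hsX hRg hRho S Ng hS => ?_⟩
  · have h1 : 1 ≤ Ca * Cη := one_le_mul_of_one_le_of_one_le hCa hCη1
    have h2 : 0 ≤ Cd * Y ^ (ε / 2) * (c2 * Ca) := by positivity
    linarith
  obtain ⟨hct, hts⟩ := hRg
  obtain ⟨hρ1, hρ12, hρ1C, hρρ⟩ := hRho
  have ht : 0 < t := by
    by_contra hcon
    push Not at hcon
    nlinarith
  have hs : 0 < s := by linarith
  have hρ2 : 0 < ρ2 := by linarith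
  have hX0 : 0 < X := by linarith
  have hst : 0 < s * t := mul_pos hs ht
  have hρsq : (ρ1 * ρ2) ^ 2 ≤ C1 ^ 2 := by
    have : (ρ1 * ρ2) ^ 2 = ρ1 * (ρ1 * ρ2 ^ 2) := by ring
    rw [this, sq C1]
    exact mul_le_mul hρ1C hρρ (by positivity) hC0.le
  have hDY : 4 * C1 ^ 2 * (ρ1 * ρ2) ^ 2 ≤ Y := by
    rw [hY]
    have : 0 < C1 ^ 2 := by positivity
    nlinarith
  have hRg' : Rg C1' s t := ⟨by nlinarith, hts⟩
  have hRho' : Rho C1' ρ1 ρ2 := ⟨hρ1, hρ12, hρ1C.trans hC11, hρρ.trans hC11⟩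
  have hSz' : ∀ β ∈ S, Sz C1' s t ρ1 ρ2 β := fun β hβ => by
    have h := (hS β hβ).1
    have hm : ∀ {a b : ℝ} {x : 𝓞 K}, 0 < a → 0 < b → Bd (C1 * a * b) x → Bd (C1' * a * b) x :=
      fun ha hb hx φ => (hx φ).trans (mul_le_mul_of_nonneg_right
        (mul_le_mul_of_nonneg_right hC11 ha.le) hb.le)
    exact ⟨hm hs (by positivity) h.sb1, hm hs (by positivity) h.sb2, hm hs (by positivity) h.sb3,
      hm ht (by positivity) h.sc1, hm ht (by positivity) h.sc2, hm ht (by positivity) h.sc3⟩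
  have hXε : 0 < X ^ (ε / 2) := Real.rpow_pos_of_pos hX0 _
  have hX1ε : 1 ≤ X ^ (ε / 2) := Real.one_le_rpow hX (by positivity)
  have hXX : X ^ (ε / 2) * X ^ (ε / 2) = X ^ ε := by rw [← Real.rpow_add hX0, add_halves]
  have hXle : X ^ (ε / 2) ≤ X ^ ε := by
    rw [← hXX]
    exact le_mul_of_one_le_left hXε.le hX1ε
  rw [Finset.sum_add_distrib]
  have hone : ∑ β ∈ S, (1 : ℝ) ≤ Ca * Cη * X ^ ε * (s * t) ^ (3 * d) := by
    have h1 : ∑ β ∈ S, (1 : ℝ) ≤ ∑ β ∈ S, ni (cn (tb β)) * ni (cn (tc β)) := by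
      refine Finset.sum_le_sum fun β hβ => ?_
      exact one_le_mul_of_one_le_of_one_le (one_le_ni (cn_ne (by rw [dt_tb]; exact (hS β hβ).2.2.1)))
        (one_le_ni (cn_ne (by rw [dt_tc]; exact (hS β hβ).2.2.2.1)))
    have hpos : 0 < 4 * C1 ^ 2 * (ρ1 * ρ2) ^ 2 := by positivity
    have h2 := ha X s t ρ1 ρ2 hX hRg' hRho' (fun _ => 4 * C1 ^ 2 * (ρ1 * ρ2) ^ 2)
      (fun _ => hpos) (fun _ => by
        have : 0 ≤ C1 ^ 2 * (ρ1 * ρ2) ^ 2 := by positivity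
        rw [hC1']
        nlinarith) S (fun β hβ => by
        have h3 := hS β hβ
        exact ⟨hSz' β hβ, h3.2.1, h3.2.2.1, h3.2.2.2.1, h3.2.2.2.2.1, fun φ =>
          ⟨(bounds hC1 hs ht hρ1 hρ2 h3.1 φ).1, (bounds hC1 hs ht hρ1 hρ2 h3.1 φ).2.2⟩⟩)
    rw [vol_const] at h2
    have h3 : Real.sqrt ((4 * C1 ^ 2 * (ρ1 * ρ2) ^ 2) ^ d) ^ 3 ≤ Cη :=
      pow_le_pow_left₀ (Real.sqrt_nonneg _) (Real.sqrt_le_sqrt
        (pow_le_pow_left₀ hpos.le hDY d)) 3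
    calc ∑ β ∈ S, (1 : ℝ) ≤ _ := h1
      _ ≤ _ := h2
      _ ≤ Ca * X ^ ε * ((s * t) ^ (3 * d) * Cη) := by
          refine mul_le_mul (mul_le_mul_of_nonneg_left hXle (by linarith)) ?_ (by positivity)
            (by positivity)
          exact mul_le_mul_of_nonneg_left h3 (by positivity)
      _ = _ := by ring
  have htwo : ∑ β ∈ S, Ng β * (Real.sqrt (vol (Dt s t β)))⁻¹ ^ 3 ≤
      Cd * (Y * X) ^ (ε / 2) * (c2 * Ca * X ^ (ε / 2) * (s * t) ^ (3 * d)) := by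
    have hYX : 1 ≤ Y * X := one_le_mul_of_one_le_of_one_le (by linarith) hX
    refine hdy (Y * X) hYX _ S (fun β => Dt s t β) _ _ (by positivity) (fun β hβ φ => ?_)
      (fun η hη S' hS' hηD => ?_)
    · have h3 := hS β hβ
      constructor
      · have hD3 : sz φ β.D3 / t ^ 2 ≤ Dt s t β φ :=
          le_trans (le_max_right _ _) (le_max_right _ _)
        refine le_trans ?_ hD3
        have hall := h3.2.1
        have hup : ∀ ψ, sz ψ β.D3 ≤ 2 * X ^ 2 := fun ψ => by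
          refine (quad ψ (hall.2.2.2.1 ψ) (hall.2.2.2.2.2 ψ) (hall.2.2.2.2.1 ψ) hX0.le).trans ?_
          nlinarith
        have hlow := sz_low h3.2.2.2.1 (X := 2 * X ^ 2) (by nlinarith) hup φ
        rw [le_div_iff₀ (by positivity)]
        refine le_trans ?_ hlow
        rw [← hd, inv_mul_le_iff₀ (by positivity), ← div_eq_mul_inv, le_div_iff₀ (by positivity)]
        have h4 : (2 * X ^ 2) ^ d ≤ (Y * X) ^ (2 * d) := by
          rw [pow_mul]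
          refine pow_le_pow_left₀ (by positivity) ?_ d
          rw [mul_pow]
          have h6 : (2 : ℝ) ≤ Y ^ 2 := by nlinarith
          exact mul_le_mul_of_nonneg_right h6 (by positivity)
        have h5 : t ^ 2 ≤ (Y * X) ^ 2 := by
          refine pow_le_pow_left₀ ht.le ?_ 2
          exact (hts.trans hsX).trans (le_mul_of_one_le_left hX0.le (by linarith))
        rw [pow_add, mul_comm (t ^ 2)]
        exact mul_le_mul h4 h5 (by positivity) (by positivity)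
      · refine (Dt_le hC1 hs ht hρ1 hρ2 h3.1 φ).trans (hDY.trans ?_)
        have h4 : Y ≤ Y * X := le_mul_of_one_le_right (by linarith) hX
        exact h4.trans (le_self_pow₀ hYX (by omega))
    · rcases S'.eq_empty_or_nonempty with rfl | ⟨β0, hβ0⟩
      · simp only [Finset.sum_empty]
        positivity
      have hvη : 0 < vol η := vol_pos hη
      have hsη : 0 < Real.sqrt (vol η) := Real.sqrt_pos.2 hvη
      have hηle : ∀ φ, η φ ≤ C1' * (ρ1 * ρ2) ^ 2 := fun φ => by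
        have h4 := (hηD β0 hβ0 φ).2
        have h5 := Dt_le hC1 hs ht hρ1 hρ2 (hS β0 (hS' hβ0)).1 φ
        rw [hC1']
        linarith
      have h2 := ha X s t ρ1 ρ2 hX hRg' hRho' η hη hηle S' (fun β hβ => by
        have h3 := hS β (hS' hβ)
        refine ⟨hSz' β (hS' hβ), h3.2.1, h3.2.2.1, h3.2.2.2.1, h3.2.2.2.2.1, fun φ => ⟨?_, ?_⟩⟩
        · have h4 : sz φ β.D1 / s ^ 2 ≤ η φ := (le_max_left _ _).trans (hηD β hβ φ).1
          rwa [div_le_iff₀ (by positivity)] at h4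
        · have h4 : sz φ β.D3 / t ^ 2 ≤ η φ :=
            (le_trans (le_max_right _ _) (le_max_right _ _)).trans (hηD β hβ φ).1
          rwa [div_le_iff₀ (by positivity)] at h4)
      have hterm : ∀ β ∈ S', Ng β * (Real.sqrt (vol (Dt s t β)))⁻¹ ^ 3 ≤
          c2 * (Real.sqrt (vol η))⁻¹ ^ 3 * (ni (cn (tb β)) * ni (cn (tc β))) := by
        intro β hβ
        have h3 := hS β (hS' hβ)
        have h4 : vol η ≤ 2 ^ d * vol (Dt s t β) := by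
          rw [← vol_smul]
          exact vol_mono (fun φ => (hη φ).le) fun φ => (hηD β hβ φ).2
        have h5 : Real.sqrt (vol η) ≤ Real.sqrt (2 ^ d) * Real.sqrt (vol (Dt s t β)) := by
          rw [← Real.sqrt_mul (by positivity)]
          exact Real.sqrt_le_sqrt h4
        have hD0 : 0 < Real.sqrt (vol (Dt s t β)) := by
          by_contra hcon
          have : Real.sqrt (vol (Dt s t β)) = 0 := le_antisymm (not_lt.1 hcon) (Real.sqrt_nonneg _)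
          rw [this, mul_zero] at h5
          linarith
        have h6 : (Real.sqrt (vol (Dt s t β)))⁻¹ ≤ Real.sqrt (2 ^ d) * (Real.sqrt (vol η))⁻¹ := by
          rw [inv_le_iff_one_le_mul₀ hD0, mul_right_comm, ← div_eq_mul_inv, one_le_div hsη]
          exact h5
        have h7 : (Real.sqrt (vol (Dt s t β)))⁻¹ ^ 3 ≤ c2 * (Real.sqrt (vol η))⁻¹ ^ 3 := by
          rw [hc2, ← mul_pow]
          exact pow_le_pow_left₀ (by positivity) h6 3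
        calc Ng β * (Real.sqrt (vol (Dt s t β)))⁻¹ ^ 3
            ≤ (ni (cn (tb β)) * ni (cn (tc β))) * (c2 * (Real.sqrt (vol η))⁻¹ ^ 3) :=
              mul_le_mul h3.2.2.2.2.2.2 h7 (by positivity)
                (mul_nonneg (ni_nonneg _) (ni_nonneg _))
          _ = _ := by ring
      refine (Finset.sum_le_sum hterm).trans ?_
      rw [← Finset.mul_sum]
      calc c2 * (Real.sqrt (vol η))⁻¹ ^ 3 * ∑ β ∈ S', ni (cn (tb β)) * ni (cn (tc β))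
          ≤ c2 * (Real.sqrt (vol η))⁻¹ ^ 3 *
            (Ca * X ^ (ε / 2) * ((s * t) ^ (3 * d) * Real.sqrt (vol η) ^ 3)) :=
            mul_le_mul_of_nonneg_left h2 (by positivity)
        _ = _ := by
            field_simp
  refine (add_le_add hone htwo).trans (le_of_eq ?_)
  rw [Real.mul_rpow (by linarith) hX0.le, ← hXX]
  ring

end Pool.Agent.H67.WA
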