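import Mathlib

/-!
# W1 step 7, the table

`a = s ^ d`, `a' = s' ^ d`, `p = ρ₁ ^ d`, `q = ρ₂ ^ d`, `h = √(vol η)`.
PROOF. From the hypotheses: `(p q)² = p (p q²) ≤ K²`, `p q ≤ K`, `h ≤ K²`, `h ≤ K p q ≤ K q²`, `1 ≤ h a' ≤ K p q a'`,
`1 ≤ K p q a' ≤ K p q a`, `q ≤ q * (K p q a') = K a' (p q²) ≤ K² a'`, `1 ≤ K² a' ` (`1 ≤ h a' `).
`B1 ≤ 2 K a³ p q h²`, `B2 ≤ 2 K h a² q²`, `B3 = K h a² p²`, `C1 ≤ 2 K a'³ p q h²`, `C2 ≤ 2 K h a'² q²`, `C3 = K h a'² p²`.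
(1,1): `4 K² (a a')³ (p q)² h⁴`, `(p q)² h ≤ K⁴`. (2,1): `4 K² a² a'³ p q³ h³`, `p q³ ≤ K q ≤ K³ a' ≤ K³ a`.
(3,1): `2 K² a² a'³ p³ q h³`, `p³ q ≤ K³`, `1 ≤ K² a`. (1,2): `4 K² a³ a'² p q³ h³`, `p q³ ≤ K³ a'`. (1,3): `p³ q ≤ K³`,
`1 ≤ K² a'`. (2,3), (3,2): `2 K² h² a² a'² (p q)²`, `1 ≤ h a'`, `(p q)² ≤ K²`, `1 ≤ K² a`. (3,3): `K² h² a² a'² p⁴` the same.
-/

set_option autoImplicit false

namespace Pool.Agent.H67.WA

/-- bound for the blocks with `b₁₁ b₂₂ ≠ 0`, `b₁₁ = 0`, `b₂₂ = 0 ≠ b₁₁` -/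
noncomputable def BB (K a p q h : ℝ) : Fin 3 → ℝ :=
  ![(1 + K * (a * (p * q))) * (h * a) ^ 2, h * a * (h * a + K * (a * q ^ 2)), h * a * (K * (a * p ^ 2))]

theorem tab {K : ℝ} (hK : 1 ≤ K) : ∃ C : ℝ, 1 ≤ C ∧ ∀ a a' p q h : ℝ, 0 < p → p ≤ q → p ≤ K →
    p * q ^ 2 ≤ K → 0 < h → h ≤ K * (p * q) → 1 ≤ h * a' → a' ≤ a →
    ∀ i j : Fin 3, ¬ (i = 1 ∧ j = 1) → BB K a p q h i * BB K a' p q h j ≤ C * ((a * a') ^ 3 * h ^ 3) := by
  refine ⟨4 * K ^ 6, ?_, ?_⟩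
  · have : 1 ≤ K ^ 6 := one_le_pow₀ hK
    linarith
  intro a a' p q h hp hpq hpK hq hh hhK hha haa
  have hq0 : 0 < q := lt_of_lt_of_le hp hpq
  have hK0 : 0 < K := by linarith
  have ha' : 0 < a' := by
    by_contra hc
    have : h * a' ≤ 0 := mul_nonpos_of_nonneg_of_nonpos hh.le (not_lt.1 hc)
    linarith
  have ha : 0 < a := lt_of_lt_of_le ha' haa
  have e1 : (p * q) ^ 2 ≤ K ^ 2 := by
    calc (p * q) ^ 2 = p * (p * q ^ 2) := by ring
      _ ≤ K * K := mul_le_mul hpK hq (by positivity) hK0.le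
      _ = K ^ 2 := by ring
  have e2 : p * q ≤ K := le_of_sq_le_sq e1 hK0.le
  have e3 : p * q ≤ q ^ 2 := by nlinarith
  have e4 : p ^ 2 ≤ p * q := by nlinarith
  have e5 : h ≤ K ^ 2 := by nlinarith
  have e6 : h ≤ K * q ^ 2 := hhK.trans (mul_le_mul_of_nonneg_left e3 hK0.le)
  have e7 : 1 ≤ K * (a' * (p * q)) := by
    calc 1 ≤ h * a' := hha
      _ ≤ (K * (p * q)) * a' := mul_le_mul_of_nonneg_right hhK ha'.le
      _ = K * (a' * (p * q)) := by ring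
  have e8 : 1 ≤ K * (a * (p * q)) := e7.trans
    (mul_le_mul_of_nonneg_left (mul_le_mul_of_nonneg_right haa (by positivity)) hK0.le)
  have e9 : q ≤ K ^ 2 * a' := by
    calc q = q * 1 := by ring
      _ ≤ q * (K * (a' * (p * q))) := mul_le_mul_of_nonneg_left e7 hq0.le
      _ = K * a' * (p * q ^ 2) := by ring
      _ ≤ K * a' * K := mul_le_mul_of_nonneg_left hq (by positivity)
      _ = K ^ 2 * a' := by ring
  have e10 : 1 ≤ K ^ 2 * a' := hha.trans (mul_le_mul_of_nonneg_right e5 ha'.le)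
  have e11 : 1 ≤ K ^ 2 * a := e10.trans (mul_le_mul_of_nonneg_left haa (by positivity))
  have e12 : p * q ^ 3 ≤ K ^ 3 * a' := by
    calc p * q ^ 3 = (p * q ^ 2) * q := by ring
      _ ≤ K * (K ^ 2 * a') := mul_le_mul hq e9 hq0.le hK0.le
      _ = K ^ 3 * a' := by ring
  have e13 : p ^ 3 * q ≤ K ^ 2 := by
    calc p ^ 3 * q = p ^ 2 * (p * q) := by ring
      _ ≤ (p * q) * (p * q) := mul_le_mul_of_nonneg_right e4 (by positivity)
      _ = (p * q) ^ 2 := by ring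
      _ ≤ K ^ 2 := e1
  have e14 : p ^ 4 ≤ K ^ 2 := by
    calc p ^ 4 = p ^ 2 * p ^ 2 := by ring
      _ ≤ (p * q) * (p * q) := mul_le_mul e4 e4 (by positivity) (by positivity)
      _ = (p * q) ^ 2 := by ring
      _ ≤ K ^ 2 := e1
  -- the three bounds for one block
  have b0 : ∀ x : ℝ, 0 < x → 1 ≤ K * (x * (p * q)) →
      (1 + K * (x * (p * q))) * (h * x) ^ 2 ≤ 2 * K * (x ^ 3 * (p * q) * h ^ 2) := by
    intro x hx h1
    calc (1 + K * (x * (p * q))) * (h * x) ^ 2 ≤ (2 * (K * (x * (p * q)))) * (h * x) ^ 2 :=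
          mul_le_mul_of_nonneg_right (by linarith) (by positivity)
      _ = 2 * K * (x ^ 3 * (p * q) * h ^ 2) := by ring
  have b1 : ∀ x : ℝ, 0 < x → h * x * (h * x + K * (x * q ^ 2)) ≤ 2 * K * (h * x ^ 2 * q ^ 2) := by
    intro x hx
    have : h * x ≤ K * (x * q ^ 2) := by
      calc h * x ≤ (K * q ^ 2) * x := mul_le_mul_of_nonneg_right e6 hx.le
        _ = K * (x * q ^ 2) := by ring
    calc h * x * (h * x + K * (x * q ^ 2)) ≤ h * x * (2 * (K * (x * q ^ 2))) :=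
          mul_le_mul_of_nonneg_left (by linarith) (by positivity)
      _ = 2 * K * (h * x ^ 2 * q ^ 2) := by ring
  have A0 := b0 a ha e8
  have A1 := b1 a ha
  have C0 := b0 a' ha' e7
  have C1 := b1 a' ha'
  have n0 : ∀ x : ℝ, 0 < x → 0 ≤ (1 + K * (x * (p * q))) * (h * x) ^ 2 := fun x hx => by positivity
  have n1 : ∀ x : ℝ, 0 < x → 0 ≤ h * x * (h * x + K * (x * q ^ 2)) := fun x hx => by positivity
  have n2 : ∀ x : ℝ, 0 < x → 0 ≤ h * x * (K * (x * p ^ 2)) := fun x hx => by positivity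
  have hK2 : 1 ≤ K ^ 2 := one_le_pow₀ hK
  set P := (a * a') ^ 3 * h ^ 3 with hP
  have hP0 : 0 < P := by positivity
  have hKle : ∀ n : ℕ, n ≤ 6 → K ^ n ≤ K ^ 6 := fun n hn => pow_le_pow_right₀ hK hn
  have fin4 : ∀ c : ℝ, c ≤ 4 * K ^ 6 → c * P ≤ 4 * K ^ 6 * P := fun c hc =>
    mul_le_mul_of_nonneg_right hc hP0.le
  intro i j hij
  have hB0 : ∀ x, BB K x p q h 0 = (1 + K * (x * (p * q))) * (h * x) ^ 2 := fun x => rfl
  have hB1 : ∀ x, BB K x p q h 1 = h * x * (h * x + K * (x * q ^ 2)) := fun x => rfl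
  have hB2 : ∀ x, BB K x p q h 2 = h * x * (K * (x * p ^ 2)) := fun x => rfl
  fin_cases i <;> fin_cases j
  · simp only [Fin.zero_eta, hB0]
    calc _ ≤ (2 * K * (a ^ 3 * (p * q) * h ^ 2)) * (2 * K * (a' ^ 3 * (p * q) * h ^ 2)) :=
          mul_le_mul A0 C0 (n0 a' ha') (by positivity)
      _ = 4 * K ^ 2 * ((p * q) ^ 2 * h) * P := by rw [hP]; ring
      _ ≤ 4 * K ^ 2 * (K ^ 2 * K ^ 2) * P := by
          apply mul_le_mul_of_nonneg_right _ hP0.le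
          apply mul_le_mul_of_nonneg_left _ (by positivity)
          exact mul_le_mul e1 e5 hh.le (by positivity)
      _ = 4 * K ^ 6 * P := by ring
  · simp only [Fin.zero_eta, Fin.mk_one, hB0, hB1]
    calc _ ≤ (2 * K * (a ^ 3 * (p * q) * h ^ 2)) * (2 * K * (h * a' ^ 2 * q ^ 2)) :=
          mul_le_mul A0 C1 (n1 a' ha') (by positivity)
      _ = 4 * K ^ 2 * (a ^ 3 * a' ^ 2 * h ^ 3) * (p * q ^ 3) := by ring
      _ ≤ 4 * K ^ 2 * (a ^ 3 * a' ^ 2 * h ^ 3) * (K ^ 3 * a') :=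
          mul_le_mul_of_nonneg_left e12 (by positivity)
      _ = 4 * K ^ 5 * P := by rw [hP]; ring
      _ ≤ 4 * K ^ 6 * P := fin4 _ (by have := hKle 5 (by norm_num); linarith)
  · simp only [Fin.zero_eta, Fin.reduceFinMk, hB0, hB2]
    calc _ ≤ (2 * K * (a ^ 3 * (p * q) * h ^ 2)) * (h * a' * (K * (a' * p ^ 2))) :=
          mul_le_mul_of_nonneg_right A0 (n2 a' ha')
      _ = 2 * K ^ 2 * (a ^ 3 * a' ^ 2 * h ^ 3) * (p ^ 3 * q) * 1 := by ring
      _ ≤ 2 * K ^ 2 * (a ^ 3 * a' ^ 2 * h ^ 3) * K ^ 2 * (K ^ 2 * a') := by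
          apply mul_le_mul _ e10 zero_le_one (by positivity)
          exact mul_le_mul_of_nonneg_left e13 (by positivity)
      _ = 2 * K ^ 6 * P := by rw [hP]; ring
      _ ≤ 4 * K ^ 6 * P := fin4 _ (by have : 0 < K ^ 6 := by positivity
                                      linarith)
  · simp only [Fin.zero_eta, Fin.mk_one, hB0, hB1]
    calc _ ≤ (2 * K * (h * a ^ 2 * q ^ 2)) * (2 * K * (a' ^ 3 * (p * q) * h ^ 2)) :=
          mul_le_mul A1 C0 (n0 a' ha') (by positivity)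
      _ = 4 * K ^ 2 * (a ^ 2 * a' ^ 3 * h ^ 3) * (p * q ^ 3) := by ring
      _ ≤ 4 * K ^ 2 * (a ^ 2 * a' ^ 3 * h ^ 3) * (K ^ 3 * a) := by
          apply mul_le_mul_of_nonneg_left _ (by positivity)
          exact e12.trans (mul_le_mul_of_nonneg_left haa (by positivity))
      _ = 4 * K ^ 5 * P := by rw [hP]; ring
      _ ≤ 4 * K ^ 6 * P := fin4 _ (by have := hKle 5 (by norm_num); linarith)
  · exact absurd ⟨rfl, rfl⟩ hij
  · simp only [Fin.mk_one, Fin.reduceFinMk, hB1, hB2]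
    calc _ ≤ (2 * K * (h * a ^ 2 * q ^ 2)) * (h * a' * (K * (a' * p ^ 2))) :=
          mul_le_mul_of_nonneg_right A1 (n2 a' ha')
      _ = 2 * K ^ 2 * (a ^ 2 * a' ^ 2 * h ^ 2) * (p * q) ^ 2 * (1 * 1) := by ring
      _ ≤ 2 * K ^ 2 * (a ^ 2 * a' ^ 2 * h ^ 2) * K ^ 2 * ((h * a') * (K ^ 2 * a)) := by
          apply mul_le_mul _ (mul_le_mul hha e11 zero_le_one (by positivity)) (by positivity)
            (by positivity)
          exact mul_le_mul_of_nonneg_left e1 (by positivity)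
      _ = 2 * K ^ 6 * P := by rw [hP]; ring
      _ ≤ 4 * K ^ 6 * P := fin4 _ (by have : 0 < K ^ 6 := by positivity
                                      linarith)
  · simp only [Fin.zero_eta, Fin.reduceFinMk, hB0, hB2]
    calc _ ≤ (h * a * (K * (a * p ^ 2))) * (2 * K * (a' ^ 3 * (p * q) * h ^ 2)) :=
          mul_le_mul_of_nonneg_left C0 (n2 a ha)
      _ = 2 * K ^ 2 * (a ^ 2 * a' ^ 3 * h ^ 3) * (p ^ 3 * q) * 1 := by ring
      _ ≤ 2 * K ^ 2 * (a ^ 2 * a' ^ 3 * h ^ 3) * K ^ 2 * (K ^ 2 * a) := by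
          apply mul_le_mul _ e11 zero_le_one (by positivity)
          exact mul_le_mul_of_nonneg_left e13 (by positivity)
      _ = 2 * K ^ 6 * P := by rw [hP]; ring
      _ ≤ 4 * K ^ 6 * P := fin4 _ (by have : 0 < K ^ 6 := by positivity
                                      linarith)
  · simp only [Fin.mk_one, Fin.reduceFinMk, hB1, hB2]
    calc _ ≤ (h * a * (K * (a * p ^ 2))) * (2 * K * (h * a' ^ 2 * q ^ 2)) :=
          mul_le_mul_of_nonneg_left C1 (n2 a ha)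
      _ = 2 * K ^ 2 * (a ^ 2 * a' ^ 2 * h ^ 2) * (p * q) ^ 2 * (1 * 1) := by ring
      _ ≤ 2 * K ^ 2 * (a ^ 2 * a' ^ 2 * h ^ 2) * K ^ 2 * ((h * a') * (K ^ 2 * a)) := by
          apply mul_le_mul _ (mul_le_mul hha e11 zero_le_one (by positivity)) (by positivity)
            (by positivity)
          exact mul_le_mul_of_nonneg_left e1 (by positivity)
      _ = 2 * K ^ 6 * P := by rw [hP]; ring
      _ ≤ 4 * K ^ 6 * P := fin4 _ (by have : 0 < K ^ 6 := by positivity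
                                      linarith)
  · simp only [Fin.reduceFinMk, hB2]
    calc _ = K ^ 2 * (a ^ 2 * a' ^ 2 * h ^ 2) * p ^ 4 * (1 * 1) := by ring
      _ ≤ K ^ 2 * (a ^ 2 * a' ^ 2 * h ^ 2) * K ^ 2 * ((h * a') * (K ^ 2 * a)) := by
          apply mul_le_mul _ (mul_le_mul hha e11 zero_le_one (by positivity)) (by positivity)
            (by positivity)
          exact mul_le_mul_of_nonneg_left e14 (by positivity)
      _ = 1 * K ^ 6 * P := by rw [hP]; ring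
      _ ≤ 4 * K ^ 6 * P := fin4 _ (by have : 0 < K ^ 6 := by positivity
                                      linarith)

end Pool.Agent.H67.WA
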