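import Pool.Agent.H67.WA.NbA
import Pool.Agent.H67.WA.NbB
import Pool.Agent.H67.WA.Tab

/-!
# W1 step 7 for one size vector `η`

PROOF. `a = s ^ d`, `a' = t ^ d`, `p = ρ₁ ^ d`, `q = ρ₂ ^ d`, `h = √(vol η)`. `S` is the disjoint union of the eight classes
`(type b, type c)`, types: 0: `b₁₁ b₂₂ ≠ 0`; 1: `b₁₁ = 0`; 2: `b₂₂ = 0 ≠ b₁₁`. In the class `(i, j)`:
`∑ ni (cn (tb β)) ni (cn (tc β)) ≤ (∑_{b ∈ P} ni (cn b)) (∑_{c ∈ Q} ni (cn c))`, `P`, `Q` the images under `tb`, `tc`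
(`β ↦ (tb β, tc β)` is injective (`tbc_inj`) into `P ×ˢ Q`, `Finset.sum_le_sum_of_subset_of_nonneg`, `Finset.sum_product`). `nba`, `nbb`,
`nbc` with `T φ = η φ * s ^ 2` (`vol T = vol η * s ^ (2 d) = (h a) ^ 2`, `√(vol T) = h a`), `A φ = C1 s (ρ₁ ρ₂)`,
`G φ = C1 s ρ₂ ^ 2` or `C1 s ρ₁ ^ 2`: the bounds are `C X ^ (ε/2) * BB (C1 ^ d) a p q h i`, for `c` with `t` in place of `s`.
`tab` with `K = C1 ^ d`: `h = √(vol η) ≤ √((C1 (ρ₁ ρ₂)²) ^ d) ≤ C1 ^ d p q`; `1 ≤ h a'`: if `S` is nonempty then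
`1 ≤ nz β.D3 ≤ vol (η t²) = (h a') ^ 2`.
-/

set_option autoImplicit false

namespace Pool.Agent.H67.WA

open NumberField Finset H88.A4

variable (K : Type) [Field K] [NumberField K]

variable {K} in
open Classical in
/-- the type of a matrix -/
private noncomputable def typ (b : T3 K) : Fin 3 :=
  if b.1 ≠ 0 ∧ b.2.2 ≠ 0 then 0 else if b.1 = 0 then 1 else 2

variable {K} in
private theorem typ0 {b : T3 K} (h : typ b = 0) : b.1 ≠ 0 ∧ b.2.2 ≠ 0 := by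
  by_contra hc
  unfold typ at h
  rw [if_neg hc] at h
  split_ifs at h <;> exact absurd h (by decide)

variable {K} in
private theorem typ1 {b : T3 K} (h : typ b = 1) : b.1 = 0 := by
  by_contra hc
  unfold typ at h
  split_ifs at h <;> exact absurd h (by decide)

variable {K} in
private theorem typ2 {b : T3 K} (h : typ b = 2) : b.2.2 = 0 ∧ b.1 ≠ 0 := by
  unfold typ at h
  split_ifs at h with h1 h2
  · exact absurd h (by decide)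
  · exact absurd h (by decide)
  · refine ⟨?_, h2⟩
    by_contra h3
    exact h1 ⟨h2, h3⟩

/-- the three bounds together -/
private theorem typ_bd {ε : ℝ} (hε : 0 < ε) {C1 : ℝ} (hC1 : 1 ≤ C1) : ∃ C : ℝ, 1 ≤ C ∧
    ∀ X r ρ1 ρ2 : ℝ, 1 ≤ X → 0 < r → 0 < ρ1 → 0 < ρ2 → ∀ η : (K →+* ℂ) → ℝ, (∀ φ, 0 < η φ) →
    ∀ (i : Fin 3) (S : Finset (T3 K)), (∀ b ∈ S, typ b = i ∧ dt b ≠ 0 ∧
      (∀ φ, sz φ b.1 ≤ X ∧ sz φ b.2.1 ≤ X ∧ sz φ b.2.2 ≤ X) ∧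
      (∀ φ, sz φ b.1 ≤ C1 * r * ρ1 ^ 2 ∧ sz φ b.2.1 ≤ C1 * r * (ρ1 * ρ2) ∧
        sz φ b.2.2 ≤ C1 * r * ρ2 ^ 2) ∧ ∀ φ, sz φ (dt b) ≤ η φ * r ^ 2) →
    ∑ b ∈ S, ni (cn b) ≤ C * X ^ ε * BB (C1 ^ Module.finrank ℚ K) (r ^ Module.finrank ℚ K)
      (ρ1 ^ Module.finrank ℚ K) (ρ2 ^ Module.finrank ℚ K) (Real.sqrt (vol η)) i := by
  obtain ⟨Ca, hCa, ha⟩ := nba K hε
  obtain ⟨Cb, hCb, hb⟩ := nbb K hε
  obtain ⟨Cc, hCc, hc⟩ := nbc K hε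
  refine ⟨Ca + Cb + Cc, by linarith, ?_⟩
  intro X r ρ1 ρ2 hX hr hρ1 hρ2 η hη i S hS
  have hX0 : 0 < X := by linarith
  have hXe : 0 ≤ X ^ ε := (Real.rpow_pos_of_pos hX0 _).le
  have hC10 : 0 < C1 := by linarith
  obtain ⟨d, hd⟩ : ∃ d, d = Module.finrank ℚ K := ⟨_, rfl⟩
  rw [← hd]
  have hvη : 0 < vol η := vol_pos hη
  have hT0 : ∀ φ : K →+* ℂ, 0 ≤ η φ * r ^ 2 := fun φ => mul_nonneg (hη φ).le (by positivity)
  have hvT : vol (fun φ => η φ * r ^ 2) = (Real.sqrt (vol η) * r ^ d) ^ 2 := by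
    rw [vol_mul_const, mul_pow, Real.sq_sqrt hvη.le, ← pow_mul, ← pow_mul, ← hd, mul_comm d 2]
  have hsT : Real.sqrt (vol fun φ => η φ * r ^ 2) = Real.sqrt (vol η) * r ^ d := by
    rw [hvT, Real.sqrt_sq (by positivity)]
  have hle : ∀ {c Y : ℝ}, 0 ≤ c → c ≤ Ca + Cb + Cc → 0 ≤ Y →
      c * X ^ ε * Y ≤ (Ca + Cb + Cc) * X ^ ε * Y := fun h0 h1 h2 =>
    mul_le_mul_of_nonneg_right (mul_le_mul_of_nonneg_right h1 hXe) h2
  fin_cases i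
  · have h1 := ha X hX (fun _ => C1 * r * (ρ1 * ρ2)) (fun φ => η φ * r ^ 2)
      (fun _ => by positivity) hT0 S (fun b hb' => by
        obtain ⟨h2, h3, h4, h5, h6⟩ := hS b hb'
        exact ⟨(typ0 h2).1, (typ0 h2).2, h3, fun φ => ⟨(h4 φ).1, (h4 φ).2.2, (h5 φ).2.1, h6 φ⟩⟩)
    have hvA : vol (fun _ : K →+* ℂ => C1 * r * (ρ1 * ρ2)) = C1 ^ d * (r ^ d * (ρ1 ^ d * ρ2 ^ d)) := by
      rw [vol_const, ← hd, mul_pow, mul_pow, mul_pow]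
      ring
    rw [hvT, hvA] at h1
    refine h1.trans ?_
    have hY : (0 : ℝ) ≤ (1 + C1 ^ d * (r ^ d * (ρ1 ^ d * ρ2 ^ d))) *
        (Real.sqrt (vol η) * r ^ d) ^ 2 := by positivity
    exact hle (by linarith) (by linarith) hY
  · have h1 := hb X hX (fun _ => C1 * r * ρ2 ^ 2) (fun φ => η φ * r ^ 2)
      (fun _ => by positivity) hT0 S (fun b hb' => by
        obtain ⟨h2, h3, h4, h5, h6⟩ := hS b hb'
        exact ⟨typ1 h2, h3, fun φ => ⟨(h4 φ).2.1, (h5 φ).2.2, h6 φ⟩⟩)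
    have hvG : vol (fun _ : K →+* ℂ => C1 * r * ρ2 ^ 2) = C1 ^ d * (r ^ d * (ρ2 ^ d) ^ 2) := by
      rw [vol_const, ← hd, mul_pow, mul_pow, ← pow_mul, ← pow_mul, mul_comm 2 d]
      ring
    rw [hsT, hvG] at h1
    refine h1.trans ?_
    have hY : (0 : ℝ) ≤ Real.sqrt (vol η) * r ^ d *
        (Real.sqrt (vol η) * r ^ d + C1 ^ d * (r ^ d * (ρ2 ^ d) ^ 2)) := by positivity
    exact hle (by linarith) (by linarith) hY
  · have h1 := hc X hX (fun _ => C1 * r * ρ1 ^ 2) (fun φ => η φ * r ^ 2)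
      (fun _ => by positivity) hT0 S (fun b hb' => by
        obtain ⟨h2, h3, h4, h5, h6⟩ := hS b hb'
        exact ⟨(typ2 h2).1, (typ2 h2).2, h3, fun φ => ⟨(h4 φ).2.1, (h5 φ).1, h6 φ⟩⟩)
    have hvG : vol (fun _ : K →+* ℂ => C1 * r * ρ1 ^ 2) = C1 ^ d * (r ^ d * (ρ1 ^ d) ^ 2) := by
      rw [vol_const, ← hd, mul_pow, mul_pow, ← pow_mul, ← pow_mul, mul_comm 2 d]
      ring
    rw [hsT, hvG] at h1
    refine h1.trans ?_
    have hY : (0 : ℝ) ≤ Real.sqrt (vol η) * r ^ d * (C1 ^ d * (r ^ d * (ρ1 ^ d) ^ 2)) := by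
      positivity
    exact hle (by linarith) (by linarith) hY

/-- a sum over blocks is at most the product of the sums over the two images -/
private theorem sum_le_prod (S : Finset (Blk (𝓞 K))) (P Q : Finset (T3 K))
    (hP : ∀ β ∈ S, tb β ∈ P) (hQ : ∀ β ∈ S, tc β ∈ Q) :
    ∑ β ∈ S, ni (cn (tb β)) * ni (cn (tc β)) ≤ (∑ b ∈ P, ni (cn b)) * ∑ c ∈ Q, ni (cn c) := by
  classical
  rw [Finset.sum_mul_sum, ← Finset.sum_product']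
  have hinj : Set.InjOn (fun β : Blk (𝓞 K) => (tb β, tc β)) (S : Set (Blk (𝓞 K))) := by
    intro β _ γ _ h
    simp only [Prod.mk.injEq] at h
    exact tbc_inj h.1 h.2
  calc ∑ β ∈ S, ni (cn (tb β)) * ni (cn (tc β))
      = ∑ z ∈ S.image (fun β => (tb β, tc β)), ni (cn z.1) * ni (cn z.2) := by
        rw [Finset.sum_image hinj]
    _ ≤ ∑ z ∈ P ×ˢ Q, ni (cn z.1) * ni (cn z.2) := by
        refine Finset.sum_le_sum_of_subset_of_nonneg ?_ fun z _ _ =>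
          mul_nonneg (ni_nonneg _) (ni_nonneg _)
        intro z hz
        rw [Finset.mem_image] at hz
        obtain ⟨β, hβ, rfl⟩ := hz
        exact Finset.mem_product.2 ⟨hP β hβ, hQ β hβ⟩

theorem s7a {ε : ℝ} (hε : 0 < ε) {C1 : ℝ} (hC1 : 1 ≤ C1) : ∃ C : ℝ, 1 ≤ C ∧
    ∀ X s t ρ1 ρ2 : ℝ, 1 ≤ X → Rg C1 s t → Rho C1 ρ1 ρ2 → ∀ η : (K →+* ℂ) → ℝ, (∀ φ, 0 < η φ) →
    (∀ φ, η φ ≤ C1 * (ρ1 * ρ2) ^ 2) → ∀ S : Finset (Blk (𝓞 K)),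
    (∀ β ∈ S, Sz C1 s t ρ1 ρ2 β ∧ β.All (Bd X) ∧ β.D1 ≠ 0 ∧ β.D3 ≠ 0 ∧ ¬ (β.b1 = 0 ∧ β.c1 = 0) ∧
      ∀ φ, sz φ β.D1 ≤ η φ * s ^ 2 ∧ sz φ β.D3 ≤ η φ * t ^ 2) →
    ∑ β ∈ S, ni (cn (tb β)) * ni (cn (tc β)) ≤
      C * X ^ ε * ((s * t) ^ (3 * Module.finrank ℚ K) * Real.sqrt (vol η) ^ 3) := by
  classical
  obtain ⟨Cb, hCb, hbd⟩ := typ_bd K (half_pos hε) hC1
  have hK : 1 ≤ C1 ^ Module.finrank ℚ K := one_le_pow₀ hC1
  obtain ⟨Ct, hCt, htab⟩ := tab hK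
  have hCC : 1 ≤ Cb ^ 2 * Ct := one_le_mul_of_one_le_of_one_le (one_le_pow₀ hCb) hCt
  refine ⟨9 * (Cb ^ 2 * Ct), by linarith, ?_⟩
  intro X s t ρ1 ρ2 hX hR hρ η hη hη2 S hS
  obtain ⟨d, hd⟩ : ∃ d, d = Module.finrank ℚ K := ⟨_, rfl⟩
  simp only [← hd] at htab hbd hK ⊢
  have hX0 : 0 < X := by linarith
  have hC10 : 0 < C1 := by linarith
  have ht : 0 < t := by
    by_contra hc
    push Not at hc
    have := hR.1
    nlinarith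
  have hs : 0 < s := lt_of_lt_of_le ht hR.2
  have hρ1 : 0 < ρ1 := hρ.1
  have hρ2 : 0 < ρ2 := lt_of_lt_of_le hρ1 hρ.2.1
  have hvη : 0 < vol η := vol_pos hη
  rcases S.eq_empty_or_nonempty with rfl | ⟨β0, hβ0⟩
  · rw [Finset.sum_empty]
    positivity
  have hh : 0 < Real.sqrt (vol η) := Real.sqrt_pos.2 hvη
  have hKpq : Real.sqrt (vol η) ≤ C1 ^ d * (ρ1 ^ d * ρ2 ^ d) := by
    rw [Real.sqrt_le_left (by positivity)]
    calc vol η ≤ vol (fun _ : K →+* ℂ => C1 * (ρ1 * ρ2) ^ 2) :=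
          vol_mono (fun φ => (hη φ).le) hη2
      _ = C1 ^ d * (ρ1 ^ d * ρ2 ^ d) ^ 2 := by
          rw [vol_const, ← hd, mul_pow, ← pow_mul, ← mul_pow, ← pow_mul, mul_comm 2 d]
      _ ≤ (C1 ^ d * (ρ1 ^ d * ρ2 ^ d)) ^ 2 := by
          rw [mul_pow (C1 ^ d)]
          refine mul_le_mul_of_nonneg_right ?_ (by positivity)
          nlinarith
  have h1ha : 1 ≤ Real.sqrt (vol η) * t ^ d := by
    have h1 : nz β0.D3 ≤ vol (fun φ => η φ * t ^ 2) :=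
      nz_le_vol fun φ => ((hS β0 hβ0).2.2.2.2.2 φ).2
    have h2 := (one_le_nz (hS β0 hβ0).2.2.2.1).trans h1
    rw [vol_mul_const, ← pow_mul, ← hd, mul_comm 2 d, pow_mul] at h2
    have h3 : vol η * (t ^ d) ^ 2 = (Real.sqrt (vol η) * t ^ d) ^ 2 := by
      rw [mul_pow, Real.sq_sqrt hvη.le]
    rw [h3] at h2
    by_contra hc
    push Not at hc
    have h4 : 0 ≤ Real.sqrt (vol η) * t ^ d := by positivity
    nlinarith
  have htab' := htab (s ^ d) (t ^ d) (ρ1 ^ d) (ρ2 ^ d) (Real.sqrt (vol η)) (by positivity)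
    (pow_le_pow_left₀ hρ1.le hρ.2.1 d) (pow_le_pow_left₀ hρ1.le hρ.2.2.1 d)
    (by
      calc ρ1 ^ d * (ρ2 ^ d) ^ 2 = (ρ1 * ρ2 ^ 2) ^ d := by
            rw [mul_pow, ← pow_mul, ← pow_mul, mul_comm 2 d]
        _ ≤ C1 ^ d := pow_le_pow_left₀ (by positivity) hρ.2.2.2 d) hh hKpq h1ha
    (pow_le_pow_left₀ ht.le hR.2 d)
  -- the class `(i, j)`
  have hcls : ∀ ij : Fin 3 × Fin 3, ∑ β ∈ S with (typ (tb β), typ (tc β)) = ij,
      ni (cn (tb β)) * ni (cn (tc β)) ≤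
      Cb ^ 2 * Ct * X ^ ε * ((s * t) ^ (3 * d) * Real.sqrt (vol η) ^ 3) := by
    rintro ⟨i, j⟩
    by_cases hij : i = 1 ∧ j = 1
    · obtain ⟨rfl, rfl⟩ := hij
      have hemp : (S.filter fun β => (typ (tb β), typ (tc β)) = ((1, 1) : Fin 3 × Fin 3)) = ∅ := by
        rw [Finset.filter_eq_empty_iff]
        intro β hβ h
        simp only [Prod.mk.injEq] at h
        exact (hS β hβ).2.2.2.2.1 ⟨typ1 h.1, typ1 h.2⟩
      rw [hemp, Finset.sum_empty]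
      positivity
    · obtain ⟨F, hF⟩ : ∃ F, F = S.filter fun β => (typ (tb β), typ (tc β)) = (i, j) := ⟨_, rfl⟩
      rw [← hF]
      have hFS : ∀ β ∈ F, β ∈ S ∧ typ (tb β) = i ∧ typ (tc β) = j := by
        intro β hβ
        rw [hF, Finset.mem_filter, Prod.mk.injEq] at hβ
        exact hβ
      have h1 := sum_le_prod K F (F.image tb) (F.image tc)
        (fun β hβ => Finset.mem_image_of_mem _ hβ) (fun β hβ => Finset.mem_image_of_mem _ hβ)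
      have h2 := hbd X s ρ1 ρ2 hX hs hρ1 hρ2 η hη i (F.image tb) (by
        intro b hb
        rw [Finset.mem_image] at hb
        obtain ⟨β, hβ, rfl⟩ := hb
        obtain ⟨hβS, hi, hj⟩ := hFS β hβ
        obtain ⟨hsz, hall, hD1, hD3, hne, hη'⟩ := hS β hβS
        exact ⟨hi, hD1, fun φ => ⟨hall.1 φ, hall.2.1 φ, hall.2.2.1 φ⟩,
          fun φ => ⟨hsz.sb1 φ, hsz.sb2 φ, hsz.sb3 φ⟩, fun φ => (hη' φ).1⟩)
      have h3 := hbd X t ρ1 ρ2 hX ht hρ1 hρ2 η hη j (F.image tc) (by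
        intro b hb
        rw [Finset.mem_image] at hb
        obtain ⟨β, hβ, rfl⟩ := hb
        obtain ⟨hβS, hi, hj⟩ := hFS β hβ
        obtain ⟨hsz, hall, hD1, hD3, hne, hη'⟩ := hS β hβS
        exact ⟨hj, hD3, fun φ => ⟨hall.2.2.2.1 φ, hall.2.2.2.2.1 φ, hall.2.2.2.2.2 φ⟩,
          fun φ => ⟨hsz.sc1 φ, hsz.sc2 φ, hsz.sc3 φ⟩, fun φ => (hη' φ).2⟩)
      have h4 := htab' i j hij
      have hsum0 : 0 ≤ ∑ c ∈ F.image tc, ni (cn c) := Finset.sum_nonneg fun _ _ => ni_nonneg _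
      have hsum1 : 0 ≤ ∑ c ∈ F.image tb, ni (cn c) := Finset.sum_nonneg fun _ _ => ni_nonneg _
      have hX2 : X ^ (ε / 2) * X ^ (ε / 2) = X ^ ε := by
        rw [← Real.rpow_add hX0]
        congr 1
        ring
      calc ∑ β ∈ F, ni (cn (tb β)) * ni (cn (tc β))
          ≤ (∑ b ∈ F.image tb, ni (cn b)) * ∑ c ∈ F.image tc, ni (cn c) := h1
        _ ≤ (Cb * X ^ (ε / 2) * BB (C1 ^ d) (s ^ d) (ρ1 ^ d) (ρ2 ^ d) (Real.sqrt (vol η)) i) *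
            (Cb * X ^ (ε / 2) * BB (C1 ^ d) (t ^ d) (ρ1 ^ d) (ρ2 ^ d) (Real.sqrt (vol η)) j) :=
            mul_le_mul h2 h3 hsum0 (hsum1.trans h2)
        _ = Cb ^ 2 * X ^ ε * (BB (C1 ^ d) (s ^ d) (ρ1 ^ d) (ρ2 ^ d) (Real.sqrt (vol η)) i *
            BB (C1 ^ d) (t ^ d) (ρ1 ^ d) (ρ2 ^ d) (Real.sqrt (vol η)) j) := by
            rw [← hX2]
            ring
        _ ≤ Cb ^ 2 * X ^ ε * (Ct * ((s ^ d * t ^ d) ^ 3 * Real.sqrt (vol η) ^ 3)) :=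
            mul_le_mul_of_nonneg_left h4 (by positivity)
        _ = Cb ^ 2 * Ct * X ^ ε * ((s * t) ^ (3 * d) * Real.sqrt (vol η) ^ 3) := by
            rw [← mul_pow s t d, ← pow_mul (s * t) d 3, mul_comm d 3]
            ring
  calc ∑ β ∈ S, ni (cn (tb β)) * ni (cn (tc β))
      = ∑ ij : Fin 3 × Fin 3, ∑ β ∈ S with (typ (tb β), typ (tc β)) = ij,
          ni (cn (tb β)) * ni (cn (tc β)) := (Finset.sum_fiberwise _ _ _).symm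
    _ ≤ ∑ ij : Fin 3 × Fin 3, Cb ^ 2 * Ct * X ^ ε * ((s * t) ^ (3 * d) *
          Real.sqrt (vol η) ^ 3) := Finset.sum_le_sum fun ij _ => hcls ij
    _ = 9 * (Cb ^ 2 * Ct) * X ^ ε * ((s * t) ^ (3 * d) * Real.sqrt (vol η) ^ 3) := by
        rw [Finset.sum_const, Finset.card_univ, nsmul_eq_mul]
        simp only [Fintype.card_prod, Fintype.card_fin]
        push_cast
        ring

end Pool.Agent.H67.WA
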