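import Pool.Agent.H67.WA.S8A

/-!
# W1 step 8, all sizes

PROOF. As in `S7`. On `S`: `D3 = 0`, `D2 = b₁ c₃`, so `Dt s t β φ = max (|D1|/s²) (max (|b₁ c₃|/(s t)) 0)`, at most `C1` by hypothesis
and at least `sz φ (b₁ c₃) / (s t) ≥ (X²)^(-d) X^(-2)` (`sz_low`, `s, t ≤ X`). The term `1`: `s8a` with `A = fun _ _ => ⊤` (the conditions
on the ideals are trivial, `ni ⊤ = 1`) and `η = C1` (`vol η = C1^d`, `vol_const`). The other term: `dy` with `κ = (K →+* ℂ)`,
`X' = C1 X`, `A = 2 d + 2`, `D = Dt s t`, `w β = Ng β * (√(vol (Dt s t β)))⁻¹ ^ 3`; for `η` with `Dt ≤ η ≤ 2 Dt`: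
`w ≤ 2^(3d) (√vol η)⁻³ ni (A 0) ni (A 1) ni (A 2)`, `s8a`, `(vol η)² (√vol η)⁻³ = √(vol η) ≤ (2 C1)^d`.
-/

set_option autoImplicit false

namespace Pool.Agent.H67.WA

open NumberField Finset H88.A4

variable (K : Type) [Field K] [NumberField K]

theorem s8 {ε : ℝ} (hε : 0 < ε) {C1 : ℝ} (hC1 : 1 ≤ C1) : ∃ C : ℝ, 1 ≤ C ∧ ∀ X s t : ℝ, 1 ≤ X →
    s ≤ X → Rg C1 s t → ∀ (S : Finset (Blk (𝓞 K))) (Ng : Blk (𝓞 K) → ℝ)
    (A : Blk (𝓞 K) → Fin 3 → Ideal (𝓞 K)),
    (∀ β ∈ S, Dg C1 X s t β (A β) ∧ 0 ≤ Ng β ∧ Ng β ≤ ni (A β 0) * ni (A β 1) * ni (A β 2) ∧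
      ∀ φ, Dt s t β φ ≤ C1) →
    ∑ β ∈ S, (1 + Ng β * (Real.sqrt (vol (Dt s t β)))⁻¹ ^ 3) ≤
      C * X ^ ε * (s * t) ^ (3 * Module.finrank ℚ K) := by
  classical
  set d : ℕ := Module.finrank ℚ K with hd
  have hC0 : 0 < C1 := by linarith
  obtain ⟨Ca, hCa, ha⟩ := s8a K (half_pos hε) hC1
  obtain ⟨Cd, hCd, hdy⟩ := dy (κ := K →+* ℂ) (half_pos hε) (2 * d + 2)
  set c2 : ℝ := Real.sqrt (2 ^ d) ^ 3 with hc2
  have hc21 : 0 < c2 := by positivity
  set c3 : ℝ := Real.sqrt ((2 * C1) ^ d) with hc3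
  have hc31 : 0 < c3 := by positivity
  have hYε : 0 < C1 ^ (ε / 2) := Real.rpow_pos_of_pos (by linarith) _
  refine ⟨Ca * (C1 ^ d) ^ 2 + Cd * C1 ^ (ε / 2) * (c2 * Ca * c3), ?_,
    fun X s t hX hsX hRg S Ng A hS => ?_⟩
  · have h1 : 1 ≤ Ca * (C1 ^ d) ^ 2 :=
      one_le_mul_of_one_le_of_one_le hCa (one_le_pow₀ (one_le_pow₀ hC1))
    have h2 : 0 ≤ Cd * C1 ^ (ε / 2) * (c2 * Ca * c3) := by positivity
    linarith
  have hRg0 := hRg
  obtain ⟨hct, hts⟩ := hRg
  have ht : 0 < t := by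
    by_contra hcon
    push Not at hcon
    nlinarith
  have hs : 0 < s := by linarith
  have hX0 : 0 < X := by linarith
  have hst : 0 < s * t := mul_pos hs ht
  have hD3 : ∀ β ∈ S, β.D3 = 0 := fun β hβ => by
    unfold Blk.D3
    rw [(hS β hβ).1.c1, (hS β hβ).1.c2]
    ring
  have hD2 : ∀ β ∈ S, β.D2 = β.b1 * β.c3 := fun β hβ => by
    unfold Blk.D2
    rw [(hS β hβ).1.c1, (hS β hβ).1.c2]
    ring
  have hXε : 0 < X ^ (ε / 2) := Real.rpow_pos_of_pos hX0 _
  have hX1ε : 1 ≤ X ^ (ε / 2) := Real.one_le_rpow hX (by positivity)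
  have hXX : X ^ (ε / 2) * X ^ (ε / 2) = X ^ ε := by rw [← Real.rpow_add hX0, add_halves]
  have hXle : X ^ (ε / 2) ≤ X ^ ε := by
    rw [← hXX]
    exact le_mul_of_one_le_left hXε.le hX1ε
  have hdD : ∀ β ∈ S, ∀ (η : (K →+* ℂ) → ℝ), (∀ φ, Dt s t β φ ≤ η φ) → ∀ φ,
      sz φ β.D1 ≤ η φ * s ^ 2 ∧ sz φ (β.b1 * β.c3) ≤ η φ * (s * t) := by
    intro β hβ η hη φ
    constructor
    · have h4 : sz φ β.D1 / s ^ 2 ≤ η φ := (le_max_left _ _).trans (hη φ)
      rwa [div_le_iff₀ (by positivity)] at h4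
    · have h4 : sz φ β.D2 / (s * t) ≤ η φ :=
        ((le_max_left _ _).trans (le_max_right _ _)).trans (hη φ)
      rwa [div_le_iff₀ (by positivity), hD2 β hβ] at h4
  rw [Finset.sum_add_distrib]
  have hone : ∑ β ∈ S, (1 : ℝ) ≤ Ca * (C1 ^ d) ^ 2 * X ^ ε * (s * t) ^ (3 * d) := by
    have h2 := ha X s t hX hRg0 (fun _ => C1) (fun _ => hC0) S (fun _ _ => ⊤) (fun β hβ => by
      obtain ⟨h3, -, -, h4⟩ := hS β hβ
      refine ⟨⟨h3.c1, h3.c2, h3.c3, h3.b1, h3.d1, h3.k1, h3.k2, h3.b2, h3.x, ?_, ?_, ?_, ?_, ?_,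
        ?_⟩, hdD β hβ _ h4⟩
      · rw [Ideal.top_mul]
        exact Submodule.mem_top
      · rw [Ideal.top_mul]
        exact Submodule.mem_top
      · exact Submodule.mem_top
      · exact Submodule.mem_top
      · exact Submodule.mem_top
      · exact top_sup_eq _)
    rw [vol_const] at h2
    simp only [ni_top, mul_one] at h2
    calc ∑ β ∈ S, (1 : ℝ) ≤ _ := h2
      _ ≤ Ca * X ^ ε * ((s * t) ^ (3 * d) * (C1 ^ d) ^ 2) := by
          exact mul_le_mul_of_nonneg_right (mul_le_mul_of_nonneg_left hXle (by linarith))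
            (by positivity)
      _ = _ := by ring
  have htwo : ∑ β ∈ S, Ng β * (Real.sqrt (vol (Dt s t β)))⁻¹ ^ 3 ≤
      Cd * (C1 * X) ^ (ε / 2) * (c2 * Ca * c3 * X ^ (ε / 2) * (s * t) ^ (3 * d)) := by
    have hYX : 1 ≤ C1 * X := one_le_mul_of_one_le_of_one_le hC1 hX
    refine hdy (C1 * X) hYX _ S (fun β => Dt s t β) _ _ (by positivity) (fun β hβ φ => ?_)
      (fun η hη S' hS' hηD => ?_)
    · obtain ⟨h3, -, -, h4⟩ := hS β hβ
      constructor
      · have hD2' : sz φ β.D2 / (s * t) ≤ Dt s t β φ :=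
          (le_max_left _ _).trans (le_max_right _ _)
        refine le_trans ?_ hD2'
        rw [hD2 β hβ]
        have hall := h3.x
        have hup : ∀ ψ, sz ψ (β.b1 * β.c3) ≤ X ^ 2 := fun ψ => by
          rw [sz_mul, sq]
          exact mul_le_mul (hall.1 ψ) (hall.2.2.2.2.2 ψ) (sz_nonneg _ _) hX0.le
        have hlow := sz_low (mul_ne_zero h3.b1 h3.c3) (X := X ^ 2) (one_le_pow₀ hX) hup φ
        rw [le_div_iff₀ (by positivity)]
        refine le_trans ?_ hlow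
        rw [← hd, inv_mul_le_iff₀ (by positivity), ← div_eq_mul_inv, le_div_iff₀ (by positivity)]
        have h7 : X ≤ C1 * X := le_mul_of_one_le_left hX0.le hC1
        have h4 : (X ^ 2) ^ d ≤ (C1 * X) ^ (2 * d) := by
          rw [← pow_mul]
          exact pow_le_pow_left₀ hX0.le h7 _
        have h5 : s * t ≤ (C1 * X) ^ 2 := by
          rw [sq]
          exact mul_le_mul (hsX.trans h7) ((hts.trans hsX).trans h7) ht.le (by positivity)
        rw [pow_add, mul_comm (s * t)]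
        exact mul_le_mul h4 h5 (by positivity) (by positivity)
      · refine (h4 φ).trans ?_
        have h5 : C1 ≤ C1 * X := le_mul_of_one_le_right (by linarith) hX
        exact h5.trans (le_self_pow₀ hYX (by omega))
    · rcases S'.eq_empty_or_nonempty with rfl | ⟨β0, hβ0⟩
      · simp only [Finset.sum_empty]
        positivity
      have hvη : 0 < vol η := vol_pos hη
      have hsη : 0 < Real.sqrt (vol η) := Real.sqrt_pos.2 hvη
      have hηle : ∀ φ, η φ ≤ 2 * C1 := fun φ => by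
        have h4 := (hηD β0 hβ0 φ).2
        have h5 := (hS β0 (hS' hβ0)).2.2.2 φ
        linarith
      have hvle : Real.sqrt (vol η) ≤ c3 := by
        rw [hc3]
        refine Real.sqrt_le_sqrt ?_
        rw [← vol_const]
        exact vol_mono (fun φ => (hη φ).le) hηle
      have h2 := ha X s t hX hRg0 η hη S' A (fun β hβ => by
        exact ⟨(hS β (hS' hβ)).1, hdD β (hS' hβ) η fun φ => (hηD β hβ φ).1⟩)
      have hterm : ∀ β ∈ S', Ng β * (Real.sqrt (vol (Dt s t β)))⁻¹ ^ 3 ≤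
          c2 * (Real.sqrt (vol η))⁻¹ ^ 3 * (ni (A β 0) * ni (A β 1) * ni (A β 2)) := by
        intro β hβ
        obtain ⟨-, h30, h3, -⟩ := hS β (hS' hβ)
        have h4 : vol η ≤ 2 ^ d * vol (Dt s t β) := by
          rw [← vol_smul]
          exact vol_mono (fun φ => (hη φ).le) fun φ => (hηD β hβ φ).2
        have h5 : Real.sqrt (vol η) ≤ Real.sqrt (2 ^ d) * Real.sqrt (vol (Dt s t β)) := by
          rw [← Real.sqrt_mul (by positivity)]
          exact Real.sqrt_le_sqrt h4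
        have hD0 : 0 < Real.sqrt (vol (Dt s t β)) := by
          by_contra hcon
          have : Real.sqrt (vol (Dt s t β)) = 0 := le_antisymm (not_lt.1 hcon) (Real.sqrt_nonneg _)
          rw [this, mul_zero] at h5
          linarith
        have h6 : (Real.sqrt (vol (Dt s t β)))⁻¹ ≤ Real.sqrt (2 ^ d) * (Real.sqrt (vol η))⁻¹ := by
          rw [inv_le_iff_one_le_mul₀ hD0, mul_right_comm, ← div_eq_mul_inv, one_le_div hsη]
          exact h5
        have h7 : (Real.sqrt (vol (Dt s t β)))⁻¹ ^ 3 ≤ c2 * (Real.sqrt (vol η))⁻¹ ^ 3 := by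
          rw [hc2, ← mul_pow]
          exact pow_le_pow_left₀ (by positivity) h6 3
        calc Ng β * (Real.sqrt (vol (Dt s t β)))⁻¹ ^ 3
            ≤ (ni (A β 0) * ni (A β 1) * ni (A β 2)) * (c2 * (Real.sqrt (vol η))⁻¹ ^ 3) :=
              mul_le_mul h3 h7 (by positivity)
                (mul_nonneg (mul_nonneg (ni_nonneg _) (ni_nonneg _)) (ni_nonneg _))
          _ = _ := by ring
      refine (Finset.sum_le_sum hterm).trans ?_
      rw [← Finset.mul_sum]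
      have hsq : vol η ^ 2 = Real.sqrt (vol η) ^ 4 := by
        have h8 := Real.sq_sqrt hvη.le
        calc vol η ^ 2 = (Real.sqrt (vol η) ^ 2) ^ 2 := by rw [h8]
          _ = _ := by ring
      calc c2 * (Real.sqrt (vol η))⁻¹ ^ 3 * ∑ β ∈ S', ni (A β 0) * ni (A β 1) * ni (A β 2)
          ≤ c2 * (Real.sqrt (vol η))⁻¹ ^ 3 *
            (Ca * X ^ (ε / 2) * ((s * t) ^ (3 * d) * vol η ^ 2)) :=
            mul_le_mul_of_nonneg_left h2 (by positivity)
        _ = c2 * Ca * Real.sqrt (vol η) * X ^ (ε / 2) * (s * t) ^ (3 * d) := by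
            rw [hsq]
            field_simp
        _ ≤ c2 * Ca * c3 * X ^ (ε / 2) * (s * t) ^ (3 * d) := by
            refine mul_le_mul_of_nonneg_right (mul_le_mul_of_nonneg_right
              (mul_le_mul_of_nonneg_left hvle (by positivity)) hXε.le) (by positivity)
  refine (add_le_add hone htwo).trans (le_of_eq ?_)
  rw [Real.mul_rpow (by linarith) hX0.le, ← hXX]
  ring

end Pool.Agent.H67.WA
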